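import Pool.Agent.Q59.RL.Fix

/-!
# The dyadic law for the lines fixed by the Galois group
-/

set_option linter.unusedSectionVars false

namespace Pool.Agent.Q59.RL

open Finset Filter Topology NumberField Pool.Agent.H916R2 Pool.Agent.Q59.FS

section Units

/-- nonzero complex numbers, additively -/
noncomputable def toU (z : ℂ) : Additive ℂˣ :=
  if h : z = 0 then 0 else Additive.ofMul (Units.mk0 z h)

lemma toU_mul {x y : ℂ} (hx : x ≠ 0) (hy : y ≠ 0) : toU (x * y) = toU x + toU y := by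
  unfold toU
  rw [dif_neg hx, dif_neg hy, dif_neg (mul_ne_zero hx hy), ← ofMul_mul]
  congr 1
  exact Units.ext rfl

lemma toU_one : toU 1 = 0 := by
  unfold toU
  rw [dif_neg one_ne_zero]
  have : Units.mk0 (1 : ℂ) one_ne_zero = 1 := Units.ext rfl
  rw [this, ofMul_one]

lemma toU_prod {κ : Type*} (S : Finset κ) (f : κ → ℂ) (hf : ∀ i ∈ S, f i ≠ 0) :
    toU (∏ i ∈ S, f i) = ∑ i ∈ S, toU (f i) := by
  classical
  induction S using Finset.induction_on with
  | empty => simp [toU_one]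
  | insert a S ha ih =>
    rw [prod_insert ha, sum_insert ha, toU_mul (hf a (mem_insert_self a S))
      (prod_ne_zero_iff.mpr fun i hi => hf i (mem_insert_of_mem hi)),
      ih fun i hi => hf i (mem_insert_of_mem hi)]

lemma toU_inj {x y : ℂ} (hx : x ≠ 0) (hy : y ≠ 0) : toU x = toU y ↔ x = y := by
  unfold toU
  rw [dif_neg hx, dif_neg hy]
  constructor
  · intro h
    exact congrArg Units.val (Additive.ofMul.injective h)
  · intro h
    congr 1
    exact Units.ext h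

end Units

section Lc

variable {ι : Type} [Fintype ι] [DecidableEq ι] {G : Type*} [AddCommGroup G]

/-- linear combinations -/
def lc (u : ι → G) : (ι → ℤ) →+ G where
  toFun := fun x => ∑ i, x i • u i
  map_zero' := by simp
  map_add' := fun x y => by
    simp only [Pi.add_apply, add_smul]
    rw [sum_add_distrib]

omit [DecidableEq ι] in
lemma lc_apply (u : ι → G) (x : ι → ℤ) : lc u x = ∑ i, x i • u i := rfl

lemma lc_single (u : ι → G) (i : ι) : lc u (Pi.single i 1) = u i := by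
  rw [lc_apply, sum_eq_single i]
  · simp
  · intro j _ hj
    rw [Pi.single_eq_of_ne hj, zero_smul]
  · intro h
    exact absurd (mem_univ i) h

lemma lc_df (u : ι → G) {k : ℕ} (p : (Fin k → ι) × (Fin k → ι)) :
    lc u (df (fun i => (Pi.single i 1 : ι → ℤ)) p) = df u p := by
  rw [df_map]
  congr 1
  funext i
  exact lc_single u i

end Lc

section Law

variable {K : Type} [Field K] [NumberField K] {m : ℕ} [NeZero m] {σ : K →+* ℂ}

/-- the square root of the size -/
noncomputable def rt (D : Datum m σ) : ℂ := ((Real.sqrt (Fintype.card D.F) : ℝ) : ℂ)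

lemma rt_sq (D : Datum m σ) : rt D ^ 2 = Fintype.card D.F := by
  unfold rt
  rw [← Complex.ofReal_pow, Real.sq_sqrt (by positivity)]
  norm_cast

lemma rt_ne (D : Datum m σ) : rt D ≠ 0 := by
  intro h
  have h1 := rt_sq D
  rw [h, zero_pow two_ne_zero] at h1
  have h2 : (Fintype.card D.F : ℂ) ≠ 0 := by exact_mod_cast Fintype.card_ne_zero
  exact h2 h1.symm

/-- the normalised product -/
noncomputable def gm (D : Datum m σ) (s : Multiset (ZMod m × 𝓞 K)) : ℂ :=
  BB D.χ D.ψ D.φ s / rt D ^ Multiset.card s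

lemma gm_add (D : Datum m σ) (s t : Multiset (ZMod m × 𝓞 K)) : gm D (s + t) = gm D s * gm D t := by
  unfold gm
  rw [BB_add, Multiset.card_add, pow_add, div_mul_div_comm]

lemma gm_zero (D : Datum m σ) : gm D 0 = 1 := by
  unfold gm
  rw [BB_zero, Multiset.card_zero, pow_zero, div_one]

lemma gm_sum (D : Datum m σ) {κ : Type*} (S : Finset κ) (L : κ → Multiset (ZMod m × 𝓞 K)) :
    gm D (∑ i ∈ S, L i) = ∏ i ∈ S, gm D (L i) := by
  classical
  induction S using Finset.induction_on with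
  | empty => simp [gm_zero]
  | insert a S ha ih => rw [sum_insert ha, prod_insert ha, gm_add, ih]

lemma gm_ne {D : Datum m σ} {s : Multiset (ZMod m × 𝓞 K)} (hs : ∀ z ∈ s, z.1 ≠ 0)
    (hc : ∀ z ∈ s, D.φ z.2 ≠ 0) : gm D s ≠ 0 :=
  div_ne_zero (BB_ne D.sym.order D.hψ hs hc) (pow_ne_zero _ (rt_ne D))

/-- the equality of the products -/
lemma formula_iff (D : Datum m σ) {W W' : Multiset (ZMod m × 𝓞 K)}
    (hW' : ∀ z ∈ W', z.1 ≠ 0)
    (hc : ∀ z ∈ W, D.φ z.2 ≠ 0) (hc' : ∀ z ∈ W', D.φ z.2 ≠ 0)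
    (hsum : (W'.map Prod.fst).sum = 0) (heven : Even (Multiset.card (W + W'.map ng))) :
    ((W + W'.map ng).map fun z => gaussSum (D.χ ^ z.1.val) D.ψ).prod =
        (Fintype.card D.F : ℂ) ^ (Multiset.card (W + W'.map ng) / 2) *
          ((W + W'.map ng).map fun z => (D.χ ^ z.1.val) (D.φ z.2)).prod ↔
      gm D W = gm D W' := by
  have hcU : ∀ z ∈ W + W'.map ng, D.φ z.2 ≠ 0 := by
    intro z hz
    rcases Multiset.mem_add.mp hz with h | h
    · exact hc z h
    · obtain ⟨y, hy, rfl⟩ := Multiset.mem_map.mp h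
      exact hc' y hy
  rw [prod_iff hcU, BB_add]
  have h1 := BB_ng D.sym.order D.hψ hW' hc'
  rw [hsum, ZMod.val_zero, pow_zero,
    MulChar.one_apply (isUnit_iff_ne_zero.mpr (neg_ne_zero.mpr one_ne_zero)), one_mul] at h1
  have hb' : BB D.χ D.ψ D.φ W' ≠ 0 := BB_ne D.sym.order D.hψ hW' hc'
  have hr := rt_ne D
  have hq := rt_sq D
  obtain ⟨n, hn⟩ := heven
  have hcard : Multiset.card (W + W'.map ng) = Multiset.card W + Multiset.card W' := by
    rw [Multiset.card_add, Multiset.card_map]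
  have hhalf : Multiset.card (W + W'.map ng) / 2 = n := by omega
  have hpow : (Fintype.card D.F : ℂ) ^ n = rt D ^ Multiset.card W * rt D ^ Multiset.card W' := by
    rw [← hq, ← pow_mul, ← pow_add]
    congr 1
    omega
  have hpow' : (Fintype.card D.F : ℂ) ^ Multiset.card W' =
      rt D ^ Multiset.card W' * rt D ^ Multiset.card W' := by
    rw [← hq, ← pow_mul, ← pow_add]
    congr 1
    omega
  rw [hhalf, hpow]
  rw [hpow'] at h1
  unfold gm
  rw [div_eq_div_iff (pow_ne_zero _ hr) (pow_ne_zero _ hr)]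
  have hrW' := pow_ne_zero (Multiset.card W') hr
  constructor
  · intro h
    apply mul_right_cancel₀ hrW'
    linear_combination (-BB D.χ D.ψ D.φ W) * h1 + BB D.χ D.ψ D.φ W' * h
  · intro h
    apply mul_right_cancel₀ hb'
    linear_combination BB D.χ D.ψ D.φ W * h1 + rt D ^ Multiset.card W' * h

variable {ι : Type} [Fintype ι] [Nonempty ι]

/-- the union of a pair of words -/
def uni (L : ι → Multiset (ZMod m × 𝓞 K)) {k : ℕ} (p : (Fin k → ι) × (Fin k → ι)) :
    Multiset (ZMod m × 𝓞 K) :=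
  ∑ i, L (p.1 i) + (∑ i, L (p.2 i)).map ng

lemma map_sum_fst (L : ι → Multiset (ZMod m × 𝓞 K)) {k : ℕ} (w : Fin k → ι) :
    (∑ i, L (w i)).map Prod.fst = ∑ i, (L (w i)).map Prod.fst := by
  have : ∀ S : Finset (Fin k), (∑ i ∈ S, L (w i)).map Prod.fst = ∑ i ∈ S, (L (w i)).map Prod.fst := by
    intro S
    classical
    induction S using Finset.induction_on with
    | empty => simp
    | insert a S ha ih => rw [sum_insert ha, sum_insert ha, Multiset.map_add, ih]
  exact this _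

lemma uni_fst (L : ι → Multiset (ZMod m × 𝓞 K)) {k : ℕ} (p : (Fin k → ι) × (Fin k → ι)) :
    (uni L p).map Prod.fst = un (fun i => (L i).map Prod.fst) p := by
  unfold uni un
  beta_reduce
  rw [Multiset.map_add, ← map_sum_fst L p.1, ← map_sum_fst L p.2, Multiset.map_map,
    Multiset.map_map]
  rfl

/-- the relations of fixed lines -/
def Rg (σ : K →+* ℂ) (L : ι → Multiset (ZMod m × 𝓞 K)) : AddSubgroup (ι → ℤ) where
  carrier := {x | ∃ N : ℕ, ∀ D : Datum m σ, N < Fintype.card D.F →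
    lc (fun i => toU (gm D (L i))) x = 0}
  zero_mem' := ⟨0, fun D _ => map_zero _⟩
  add_mem' := by
    rintro x y ⟨N, hN⟩ ⟨M, hM⟩
    refine ⟨max N M, fun D hD => ?_⟩
    rw [map_add, hN D (lt_of_le_of_lt (le_max_left _ _) hD),
      hM D (lt_of_le_of_lt (le_max_right _ _) hD), add_zero]
  neg_mem' := by
    rintro x ⟨N, hN⟩
    exact ⟨N, fun D hD => by rw [map_neg, hN D hD, neg_zero]⟩

/-- a common bound -/
lemma exists_common (L : ι → Multiset (ZMod m × 𝓞 K)) (hL : ∀ i, ∀ z ∈ L i, z.1 ≠ 0 ∧ z.2 ≠ 0) :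
    ∃ N : ℕ, ∀ D : Datum m σ, N < Fintype.card D.F → ∀ i, ∀ z ∈ L i, D.φ z.2 ≠ 0 := by
  classical
  have h1 : ∀ z : ZMod m × 𝓞 K, ∃ N : ℕ, z.2 ≠ 0 → ∀ D : Datum m σ, N < Fintype.card D.F →
      D.φ z.2 ≠ 0 := by
    intro z
    by_cases hz : z.2 = 0
    · exact ⟨0, fun h => absurd hz h⟩
    · obtain ⟨N, hN⟩ := exists_bound hz
      exact ⟨N, fun _ D hD => hN D.F D.φ D.surj hD⟩
  choose f hf using h1
  refine ⟨∑ i, ((L i).map f).sum, fun D hD i z hz => hf z (hL i z hz).2 D ?_⟩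
  refine lt_of_le_of_lt ?_ hD
  have h2 : f z ≤ ((L i).map f).sum := Multiset.single_le_sum (fun _ _ => Nat.zero_le _) _
    (Multiset.mem_map_of_mem f hz)
  exact h2.trans (single_le_sum (f := fun i => ((L i).map f).sum) (fun _ _ => Nat.zero_le _)
    (mem_univ i))

open scoped Classical in
/-- fixed lines and relations -/
lemma fixed_uni (L : ι → Multiset (ZMod m × 𝓞 K)) (hL : ∀ i, ∀ z ∈ L i, z.1 ≠ 0 ∧ z.2 ≠ 0)
    (hsum : ∀ i, ((L i).map Prod.fst).sum = 0) {k : ℕ} (p : (Fin k → ι) × (Fin k → ι))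
    (heven : Even (Multiset.card (uni L p))) :
    Fixed m σ (uni L p) ↔ df (fun i => (Pi.single i 1 : ι → ℤ)) p ∈ Rg σ L := by
  obtain ⟨N0, hN0⟩ := exists_common (σ := σ) L hL
  have hmem : ∀ (w : Fin k → ι) (z), z ∈ ∑ i, L (w i) → ∃ i, z ∈ L i := by
    intro w z hz
    obtain ⟨i, _, hi⟩ := Multiset.mem_sum.mp hz
    exact ⟨w i, hi⟩
  have key : ∀ D : Datum m σ, N0 < Fintype.card D.F →
      (((uni L p).map fun z => gaussSum (D.χ ^ z.1.val) D.ψ).prod =
        (Fintype.card D.F : ℂ) ^ (Multiset.card (uni L p) / 2) *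
          ((uni L p).map fun z => (D.χ ^ z.1.val) (D.φ z.2)).prod ↔
      lc (fun i => toU (gm D (L i))) (df (fun i => (Pi.single i 1 : ι → ℤ)) p) = 0) := by
    intro D hD
    have hc := hN0 D hD
    have a1 : ∀ z ∈ ∑ i, L (p.2 i), z.1 ≠ 0 := by
      intro z hz
      obtain ⟨i, hi⟩ := hmem _ _ hz
      exact (hL i z hi).1
    have a2 : ∀ (w : Fin k → ι), ∀ z ∈ ∑ i, L (w i), D.φ z.2 ≠ 0 := by
      intro w z hz
      obtain ⟨i, hi⟩ := hmem _ _ hz
      exact hc i z hi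
    have a3 : ((∑ i, L (p.2 i)).map Prod.fst).sum = 0 := by
      rw [map_sum_fst]
      have : ∀ S : Finset (Fin k), (∑ i ∈ S, (L (p.2 i)).map Prod.fst).sum = 0 := by
        intro S
        induction S using Finset.induction_on with
        | empty => simp
        | insert a S ha ih => rw [sum_insert ha, Multiset.sum_add, ih, hsum, add_zero]
      exact this _
    have a4 : ∀ i, gm D (L i) ≠ 0 := fun i => gm_ne (fun z hz => (hL _ z hz).1) (hc _)
    unfold uni at heven ⊢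
    rw [formula_iff D a1 (a2 p.1) (a2 p.2) a3 heven, lc_df]
    unfold df
    rw [sub_eq_zero, ← toU_prod _ _ fun i _ => a4 _, ← toU_prod _ _ fun i _ => a4 _, toU_inj,
      gm_sum, gm_sum]
    · exact prod_ne_zero_iff.mpr fun i _ => a4 _
    · exact prod_ne_zero_iff.mpr fun i _ => a4 _
  rw [fixed_iff]
  constructor
  · rintro ⟨N, hN⟩
    exact ⟨max N N0, fun D hD => (key D (lt_of_le_of_lt (le_max_right _ _) hD)).mp
      (hN D (lt_of_le_of_lt (le_max_left _ _) hD))⟩
  · rintro ⟨N, hN⟩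
    exact ⟨max N N0, fun D hD => (key D (lt_of_le_of_lt (le_max_right _ _) hD)).mpr
      (hN D (lt_of_le_of_lt (le_max_left _ _) hD))⟩

/-- **The dyadic law for fixed lines.** -/
theorem fixed_law {A : Multiset (ZMod m) → Prop} (hA : Adm m A) (hm : 2 ≤ m) (σ : K →+* ℂ)
    (L : ι → Multiset (ZMod m × 𝓞 K)) (hL : ∀ i, ∀ z ∈ L i, z.1 ≠ 0 ∧ z.2 ≠ 0)
    (hsum : ∀ i, ((L i).map Prod.fst).sum = 0) :
    ∃ s ≤ 2 ^ ((levels m).card - 1) - 1,
      (∀ k : ℕ, Nat.card {p : (Fin k → ι) × (Fin k → ι) //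
          IsHodge m ((uni L p).map Prod.fst) ∧ Fixed m σ (uni L p)} ≤
        2 ^ s * Nat.card {p : (Fin k → ι) × (Fin k → ι) //
          A ((uni L p).map Prod.fst) ∧ Fixed m σ (uni L p)}) ∧
      Tendsto (fun k : ℕ => (Nat.card {p : (Fin k → ι) × (Fin k → ι) //
          A ((uni L p).map Prod.fst) ∧ Fixed m σ (uni L p)} : ℝ) /
        Nat.card {p : (Fin k → ι) × (Fin k → ι) //
          IsHodge m ((uni L p).map Prod.fst) ∧ Fixed m σ (uni L p)}) atTop (𝓝 (1 / 2 ^ s)) ∧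
      (s = 0 ↔ ∀ (k : ℕ) (p : (Fin k → ι) × (Fin k → ι)),
        IsHodge m ((uni L p).map Prod.fst) → Fixed m σ (uni L p) → A ((uni L p).map Prod.fst)) := by
  classical
  obtain ⟨s0, hs0, hcard⟩ := card_TT' (m := m) (A := A)
  set c : ι → (ι → ℤ) := fun i => Pi.single i 1 with hc
  set L' : ι → Multiset (ZMod m) := fun i => (L i).map Prod.fst with hL'
  have h0 : ∀ i, (0 : ZMod m) ∉ L' i := by
    intro i h
    obtain ⟨z, hz, hz0⟩ := Multiset.mem_map.mp h
    exact (hL i z hz).1 hz0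
  set π : (ι → ℤ) →+ ((ZMod m → ℤ) ⧸ LL m A) × ZMod 2 := lc (fun i => cl A (L' i)) with hπ
  have hπdf : ∀ {k : ℕ} (p : (Fin k → ι) × (Fin k → ι)), π (df c p) = cl A (un L' p) := by
    intro k p
    rw [hπ, lc_df, cl_un]
  obtain ⟨s, hs, h1, h2, h3⟩ := rel_law c (Rg σ L) π (TT' A) hcard
  have evenH : ∀ {k : ℕ} (p : (Fin k → ι) × (Fin k → ι)), IsHodge m ((uni L p).map Prod.fst) →
      Even (Multiset.card (uni L p)) := by
    intro k p h
    have := h.2.1
    rwa [Multiset.card_map] at this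
  have f1 : ∀ {k : ℕ} (p : (Fin k → ι) × (Fin k → ι)),
      (df c p ∈ Rg σ L ∧ π (df c p) ∈ TT' A) ↔
        (IsHodge m ((uni L p).map Prod.fst) ∧ Fixed m σ (uni L p)) := by
    intro k p
    rw [hπdf, cl_mem_iff hA (un_zero h0 p), ← uni_fst]
    constructor
    · rintro ⟨a, b⟩
      exact ⟨b, (fixed_uni L hL hsum p (evenH p b)).mpr a⟩
    · rintro ⟨a, b⟩
      exact ⟨(fixed_uni L hL hsum p (evenH p a)).mp b, a⟩
  have f2 : ∀ {k : ℕ} (p : (Fin k → ι) × (Fin k → ι)),
      (df c p ∈ Rg σ L ∧ π (df c p) = 0) ↔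
        (A ((uni L p).map Prod.fst) ∧ Fixed m σ (uni L p)) := by
    intro k p
    rw [hπdf, cl_eq_zero_iff hA hm (un_zero h0 p), ← uni_fst]
    constructor
    · rintro ⟨a, b⟩
      exact ⟨b, (fixed_uni L hL hsum p (evenH p (hA.hodge _ b))).mpr a⟩
    · rintro ⟨a, b⟩
      exact ⟨(fixed_uni L hL hsum p (evenH p (hA.hodge _ a))).mp b, a⟩
  have e1 : ∀ k, Nat.card {p : (Fin k → ι) × (Fin k → ι) //
      df c p ∈ Rg σ L ∧ π (df c p) ∈ TT' A} = Nat.card {p : (Fin k → ι) × (Fin k → ι) //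
        IsHodge m ((uni L p).map Prod.fst) ∧ Fixed m σ (uni L p)} := fun k =>
    Nat.card_congr (Equiv.subtypeEquivRight fun p => f1 p)
  have e2 : ∀ k, Nat.card {p : (Fin k → ι) × (Fin k → ι) //
      df c p ∈ Rg σ L ∧ π (df c p) = 0} = Nat.card {p : (Fin k → ι) × (Fin k → ι) //
        A ((uni L p).map Prod.fst) ∧ Fixed m σ (uni L p)} := fun k =>
    Nat.card_congr (Equiv.subtypeEquivRight fun p => f2 p)
  simp only [e1, e2] at h1 h2
  refine ⟨s, hs.trans hs0, h1, h2, ?_⟩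
  rw [h3]
  refine forall_congr' fun k => forall_congr' fun p => ?_
  constructor
  · intro h a b
    have h4 := (f1 p).mpr ⟨a, b⟩
    exact ((f2 p).mp ⟨h4.1, h h4.1 h4.2⟩).1
  · intro h a b
    have h4 := (f1 p).mp ⟨a, b⟩
    exact ((f2 p).mpr ⟨h h4.1 h4.2, h4.2⟩).2

end Law

end Pool.Agent.Q59.RL
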