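import Pool.Agent.Q59.RL.Small

/-!
# Uniform finite determination
-/

namespace Pool.Agent.Q59.RL

open Finset Pool.Agent.H916R2 Pool.Agent.Q59.FS

section Grp

variable {T : Type*} [AddCommGroup T]

lemma exists_gen_aux [Finite T] : ∀ (n : ℕ) (H : AddSubgroup T), (∃ j ≤ n, H.index = 2 ^ j) →
    ∃ S : Finset T, S.card ≤ n ∧ H ⊔ AddSubgroup.closure (S : Set T) = ⊤ := by
  classical
  intro n
  induction n with
  | zero =>
    rintro H ⟨j, hj, hH⟩
    refine ⟨∅, le_rfl, ?_⟩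
    have : H.index = 1 := by rw [hH, Nat.le_zero.mp hj, pow_zero]
    rw [AddSubgroup.index_eq_one.mp this, top_sup_eq]
  | succ n ih =>
    rintro H ⟨j, hj, hH⟩
    by_cases htop : H = ⊤
    · exact ⟨∅, Nat.zero_le _, by rw [htop, top_sup_eq]⟩
    · obtain ⟨x, -, hx⟩ := SetLike.exists_of_lt (lt_top_iff_ne_top.mpr htop)
      set H' := H ⊔ AddSubgroup.zmultiples x with hH'
      have hlt : H < H' := by
        refine lt_of_le_of_ne le_sup_left fun h => hx ?_
        rw [h]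
        exact AddSubgroup.mem_sup_right (AddSubgroup.mem_zmultiples x)
      have hdvd : H'.index ∣ 2 ^ j := hH ▸ AddSubgroup.index_dvd_of_le hlt.le
      obtain ⟨i, hi, hi'⟩ := (Nat.dvd_prime_pow Nat.prime_two).mp hdvd
      have hij : i < j := by
        have h1 : H'.index < H.index := AddSubgroup.index_strictAnti hlt
        rw [hH, hi'] at h1
        exact (Nat.pow_lt_pow_iff_right (by norm_num)).mp h1
      obtain ⟨S, hS, hS'⟩ := ih H' ⟨i, by omega, hi'⟩
      refine ⟨insert x S, (card_insert_le _ _).trans (by omega), ?_⟩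
      rw [coe_insert, Set.insert_eq, AddSubgroup.closure_union, ← sup_assoc,
        ← AddSubgroup.zmultiples_eq_closure]
      exact hS'

lemma exists_gen [Finite T] {n : ℕ} (h : Nat.card T = 2 ^ n) :
    ∃ S : Finset T, S.card ≤ n ∧ AddSubgroup.closure (S : Set T) = ⊤ := by
  obtain ⟨S, h1, h2⟩ := exists_gen_aux n (⊥ : AddSubgroup T) ⟨n, le_rfl, by
    rw [AddSubgroup.index_bot, h]⟩
  exact ⟨S, h1, by rwa [bot_sup_eq] at h2⟩

end Grp

/-- the systems of families of characters of all degrees -/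
structure AdmSys (A : ∀ m : ℕ, Multiset (ZMod m) → Prop) : Prop where
  adm : ∀ m, 0 < m → Adm m (A m)
  level : ∀ N m M : ℕ, 0 < M → N * m = M → ∀ s : Multiset (ZMod m),
    A m s ↔ A M (s.map (iota N : ZMod m → ZMod M))

lemma AdmSys.empty {A : ∀ m : ℕ, Multiset (ZMod m) → Prop} (hA : AdmSys A) {m : ℕ} (hm : 0 < m) :
    A m 0 := by
  have h2 : 0 < 2 * m := by omega
  have h := hA.level 2 m (2 * m) h2 rfl 0
  rw [Multiset.map_zero] at h
  rw [h]
  have : Fact (1 < 2 * m) := ⟨by omega⟩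
  exact (hA.adm (2 * m) h2).cancel 1 0 ((hA.adm (2 * m) h2).pair 1 one_ne_zero)

lemma two_le_of_hodge {m : ℕ} (hm : 0 < m) {s : Multiset (ZMod m)} (h0 : (0 : ZMod m) ∉ s)
    (hs : s ≠ 0) : 2 ≤ m := by
  by_contra hcon
  have h1 : m = 1 := by omega
  subst h1
  obtain ⟨a, ha⟩ := Multiset.exists_mem_of_ne_zero hs
  rw [Subsingleton.elim a 0] at ha
  exact h0 ha

section Main

variable {m0 : ℕ} [NeZero m0]

/-- the finite set of characters -/
theorem exists_F (m0 : ℕ) [NeZero m0] : ∃ F : Finset (Multiset (ZMod m0)),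
    F.card ≤ 2 ^ ((levels m0).card - 1) - 1 ∧
    (∀ f ∈ F, IsHodge m0 f ∧ 4 * Multiset.card f ≤ 3 * (m0.primeFactors.card * m0) + 4) ∧
    ∀ A : Multiset (ZMod m0) → Prop, Adm m0 A → (∀ f ∈ F, A f) →
      ∀ s : Multiset (ZMod m0), s ≠ 0 → IsHodge m0 s → A s := by
  classical
  set B : Multiset (ZMod m0) → Prop := B0 m0 with hB
  obtain ⟨k, hk, hk'⟩ := card_T (cQ_oddDist (m := m0) (base := B))
  have hfin : Finite (TD (cQ m0 B) m0) := Nat.finite_of_card_ne_zero (by rw [hk']; positivity)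
  obtain ⟨S, hS, hS'⟩ := exists_gen hk'
  have hrep : ∀ q : TD (cQ m0 B) m0, ∃ f : Multiset (ZMod m0),
      (IsHodge m0 f ∧ 4 * Multiset.card f ≤ 3 * (m0.primeFactors.card * m0) + 4) ∧
      (f.map (cQ m0 B)).sum = q := by
    intro q
    obtain ⟨x, hx, _, hxq⟩ := q.2
    obtain ⟨f0, hf0, hf0'⟩ := exists_hodge x hx
    have h1 : (f0.map (cQ m0 B)).sum = q := by rw [← hf0' _ _ cQ_oddDist, hxq]
    have h2 : (2 ^ k : ℕ) • q = 0 := by
      rw [← hk']
      exact card_nsmul_eq_zero'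
    have h3 : ((2 ^ k : ℕ) : ℤ) • EE f0 ∈ LL m0 (B0 m0) := by
      have h4 : (2 ^ k : ℕ) • (q : (ZMod m0 → ℤ) ⧸ LL m0 B) = 0 := by
        rw [← AddSubgroup.coe_nsmul, h2, AddSubgroup.coe_zero]
      rw [← h1, cQ_sum, ← QuotientAddGroup.mk_nsmul, QuotientAddGroup.eq_zero_iff] at h4
      rw [natCast_zsmul]
      exact h4
    obtain ⟨f, hf1, hf2, hf3⟩ := small_rep hf0 (by positivity) h3
    refine ⟨f, ⟨hf1, hf2⟩, ?_⟩
    rw [← h1, cQ_sum, cQ_sum, eq_comm, ← sub_eq_zero, ← QuotientAddGroup.mk_sub,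
      QuotientAddGroup.eq_zero_iff]
    exact hf3
  choose f hf hf' using hrep
  refine ⟨S.image f, card_image_le.trans (hS.trans hk), ?_, ?_⟩
  · intro g hg
    obtain ⟨q, _, rfl⟩ := mem_image.mp hg
    exact hf q
  · intro A hA hFA s hs0 hs
    have hle : LL m0 B ≤ LL m0 A := by
      refine AddSubgroup.closure_mono ?_
      rintro _ ⟨t, ht, rfl⟩
      refine ⟨t, Generated.ofBase t ?_, rfl⟩
      have h1 : ∀ t, Generated m0 B t → A t := by
        intro t ht
        induction ht with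
        | ofBase s hs => exact hs.elim
        | pair a ha => exact hA.pair a ha
        | standard p hp hp2 hpm a ha => exact hA.standard p hp hp2 hpm a ha
        | standardTwo hm a ha => exact hA.standardTwo hm a ha
        | join s t _ _ ihs iht => exact hA.join s t ihs iht
        | cancel a s _ ih => exact hA.cancel a s ih
      exact h1 t ht
    set π : ((ZMod m0 → ℤ) ⧸ LL m0 B) →+ ((ZMod m0 → ℤ) ⧸ LL m0 A) :=
      QuotientAddGroup.map _ _ (AddMonoidHom.id _) hle with hπ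
    have hπc : ∀ t : Multiset (ZMod m0), π ((t.map (cQ m0 B)).sum) = (t.map (cQ m0 A)).sum := by
      intro t
      rw [cQ_sum, cQ_sum]
      rfl
    have hker : ∀ q : TD (cQ m0 B) m0, π (q : (ZMod m0 → ℤ) ⧸ LL m0 B) = 0 := by
      intro q
      have hq : q ∈ AddSubgroup.closure (S : Set (TD (cQ m0 B) m0)) := by
        rw [hS']
        exact AddSubgroup.mem_top q
      induction hq using AddSubgroup.closure_induction with
      | mem q hq =>
        rw [← hf' q, hπc]
        exact cQ_sum_eq_zero (Generated.ofBase _ (hFA _ (mem_image_of_mem f hq)))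
      | zero => exact map_zero π
      | add x y _ _ hx hy =>
        rw [AddSubgroup.coe_add, map_add, hx, hy, add_zero]
      | neg x _ hx =>
        rw [AddSubgroup.coe_neg, map_neg, hx, neg_zero]
    have hmem : (s.map (cQ m0 B)).sum ∈ TD (cQ m0 B) m0 := by
      refine ⟨fun a => ((s.count a : ℕ) : ℤ), hs.rel, fun a _ => ?_, sum_count s _⟩
      have := addOrderOf_dvd_card (x := a)
      rw [ZMod.card] at this
      exact Nat.le_of_dvd (NeZero.pos m0) this
    have h1 := hker ⟨_, hmem⟩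
    rw [hπc] at h1
    refine (cl_eq_zero_iff hA (two_le_of_hodge (NeZero.pos m0) hs.1 hs0) hs.1).mp ?_
    unfold cl
    rw [h1, Prod.mk_eq_zero]
    refine ⟨rfl, ?_⟩
    rw [ZMod.natCast_eq_zero_iff, ← even_iff_two_dvd]
    exact hs.2.1

/-- **Uniform finite determination.** -/
theorem finite_determination (m0 : ℕ) (hm0 : 0 < m0) : ∃ F : Finset (Multiset (ZMod m0)),
    F.card ≤ 2 ^ ((levels m0).card - 1) - 1 ∧
    (∀ f ∈ F, IsHodge m0 f ∧ Multiset.card f ≤ m0.primeFactors.card * m0) ∧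
    ∀ A : ∀ m : ℕ, Multiset (ZMod m) → Prop, AdmSys A → (∀ f ∈ F, A m0 f) →
      ∀ m : ℕ, 0 < m → (∀ p, p.Prime → p ∣ m → p ∣ m0) → (4 ∣ m → 4 ∣ m0) →
        ∀ s : Multiset (ZMod m), IsHodge m s → A m s := by
  have : NeZero m0 := ⟨hm0.ne'⟩
  obtain ⟨F, hF1, hF2, hF3⟩ := exists_F m0
  refine ⟨F, hF1, fun f hf => ⟨(hF2 f hf).1, ?_⟩, fun A hA hFA m hm hp h4 s hs => ?_⟩
  · -- the size
    have h1 : 0 < F.card := card_pos.mpr ⟨f, hf⟩
    have h2 : 2 ≤ (levels m0).card := by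
      by_contra hcon
      have h3 : (levels m0).card - 1 = 0 := by omega
      rw [h3, pow_zero] at hF1
      omega
    have h3 : (levels m0).card ≤ m0.primeFactors.card := card_filter_le _ _
    have h4 : 2 ≤ m0 := by
      by_contra hcon
      have h5 : m0 = 1 := by omega
      have h6 : m0.primeFactors.card = 0 := by rw [h5]; simp
      omega
    have h5 := (hF2 f hf).2
    have h6 : 2 * 2 ≤ m0.primeFactors.card * m0 := Nat.mul_le_mul (h2.trans h3) h4
    omega
  have : NeZero m := ⟨hm.ne'⟩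
  by_cases hs0 : s = 0
  · rw [hs0]
    exact hA.empty hm
  have hlevel : ∀ t : Multiset (ZMod m0), IsHodge m0 t → A m0 t := by
    intro t ht
    by_cases ht0 : t = 0
    · rw [ht0]
      exact hA.empty hm0
    · exact hF3 _ (hA.adm m0 hm0) hFA t ht0 ht
  -- the common level
  obtain ⟨k0, hk0⟩ : ∃ k0, k0 * m0 = Nat.lcm m0 m :=
    ⟨Nat.lcm m0 m / m0, Nat.div_mul_cancel (Nat.dvd_lcm_left m0 m)⟩
  obtain ⟨k, hk⟩ : ∃ k, k * m = Nat.lcm m0 m :=
    ⟨Nat.lcm m0 m / m, Nat.div_mul_cancel (Nat.dvd_lcm_right m0 m)⟩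
  have hMpos : 0 < Nat.lcm m0 m := Nat.lcm_pos hm0 hm
  set M := Nat.lcm m0 m with hM
  have : NeZero M := ⟨hMpos.ne'⟩
  have hM2 : 2 ≤ M := (two_le_of_hodge hm hs.1 hs0).trans
    (Nat.le_of_dvd hMpos (Nat.dvd_lcm_right m0 m))
  have hred : Red M m0 k0 := by
    refine red_exists k0 M m0 k0 rfl hk0 ?_ ?_
    · intro p hpp hpM
      rcases (Nat.Prime.dvd_lcm hpp).mp hpM with h | h
      · exact h
      · exact hp p hpp h
    · intro h
      have h1 : 2 ^ 2 ∣ m0 ∨ 2 ^ 2 ∣ m := by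
        have h2 : 2 ^ 2 ∣ M := h
        rw [Nat.prime_two.pow_dvd_iff_le_factorization hMpos.ne', hM,
          Nat.factorization_lcm hm0.ne' hm.ne', Finsupp.sup_apply, le_sup_iff] at h2
        rwa [Nat.prime_two.pow_dvd_iff_le_factorization hm0.ne',
          Nat.prime_two.pow_dvd_iff_le_factorization hm.ne']
      rcases h1 with h1 | h1
      · exact h1
      · exact h4 h1
  rw [hA.level k m M hMpos hk s]
  have hs' := hs.iota hk
  refine (cl_eq_zero_iff (hA.adm M hMpos) hM2 hs'.1).mp ?_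
  obtain ⟨x0, hx0, he⟩ := hred _ (cQ M (A M)) cQ_oddDist _ hs'.rel
  obtain ⟨t, ht, ht'⟩ := exists_hodge x0 hx0
  rw [sum_count, ht' _ _ (cQ_oddDist.comp_iota hk0)] at he
  have h1 := (hA.level k0 m0 M hMpos hk0 t).mp (hlevel t ht)
  have h2 := cQ_sum_eq_zero (Generated.ofBase (m := M) (base := A M) _ h1)
  rw [Multiset.map_map] at h2
  have h3 : (t.map fun b => cQ M (A M) (iota k0 b)).sum = 0 := h2
  rw [h3] at he
  unfold cl
  rw [he, Prod.mk_eq_zero]
  refine ⟨rfl, ?_⟩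
  rw [ZMod.natCast_eq_zero_iff, ← even_iff_two_dvd]
  exact hs'.2.1

end Main

end Pool.Agent.Q59.RL
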