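import Pool.Agent.Q59.RL.Hodge

/-!
# Small representatives of the classes
-/

namespace Pool.Agent.Q59.RL

open Finset Pool.Agent.H916R2 Pool.Agent.Q59.FS

/-- the empty base -/
def B0 (m : ℕ) : Multiset (ZMod m) → Prop := fun _ => False

section Norm

variable {m : ℕ} [NeZero m]

/-- the sum of the absolute values -/
def nm (y : ZMod m → ℤ) : ℤ := ∑ a, |y a|

lemma nm_add (x y : ZMod m → ℤ) : nm (x + y) ≤ nm x + nm y := by
  unfold nm
  rw [← sum_add_distrib]
  exact sum_le_sum fun a _ => abs_add_le _ _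

lemma nm_neg (x : ZMod m → ℤ) : nm (-x) = nm x := by
  unfold nm
  exact sum_congr rfl fun _ _ => abs_neg _

lemma nm_smul (n : ℤ) (x : ZMod m → ℤ) : nm (n • x) = |n| * nm x := by
  unfold nm
  rw [mul_sum]
  exact sum_congr rfl fun a _ => by rw [Pi.smul_apply, smul_eq_mul, abs_mul]

lemma nm_zero : nm (0 : ZMod m → ℤ) = 0 := by simp [nm]

lemma nm_nonneg (x : ZMod m → ℤ) : 0 ≤ nm x := sum_nonneg fun a _ => abs_nonneg _

lemma nm_sum {ι : Type*} (S : Finset ι) (f : ι → ZMod m → ℤ) : nm (∑ i ∈ S, f i) ≤ ∑ i ∈ S, nm (f i) := by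
  classical
  induction S using Finset.induction_on with
  | empty => simp [nm_zero]
  | insert a S ha ih =>
    rw [sum_insert ha, sum_insert ha]
    exact (nm_add _ _).trans (by linarith)

lemma nm_eps (a : ZMod m) : nm (eps a) ≤ 2 := by
  unfold eps
  have h1 : ∀ b : ZMod m, nm (Pi.single b 1 : ZMod m → ℤ) = 1 := by
    intro b
    unfold nm
    rw [sum_eq_single b]
    · simp
    · intro c _ hc
      rw [Pi.single_eq_of_ne hc, abs_zero]
    · intro h
      exact absurd (mem_univ b) h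
  rw [sub_eq_add_neg]
  refine (nm_add _ _).trans ?_
  rw [nm_neg, h1, h1]
  norm_num

end Norm

section Gam

variable {m : ℕ} [NeZero m]

/-- the odd function of a standard character -/
def gam (p : ℕ) (a : ZMod m) : ZMod m → ℤ :=
  ∑ i ∈ range p, eps (a + (i : ZMod m) * ((m / p : ℕ) : ZMod m)) - eps ((p : ZMod m) * a)

lemma nm_gam (p : ℕ) (a : ZMod m) : nm (gam p a) ≤ 2 * (p + 1) := by
  unfold gam
  rw [sub_eq_add_neg]
  refine (nm_add _ _).trans ?_
  rw [nm_neg]
  have h1 := nm_sum (range p) fun i : ℕ => eps (a + (i : ZMod m) * ((m / p : ℕ) : ZMod m))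
  have h2 : ∑ i ∈ range p, nm (eps (a + (i : ZMod m) * ((m / p : ℕ) : ZMod m))) ≤ p * 2 := by
    refine (sum_le_card_nsmul _ _ 2 fun i _ => nm_eps _).trans ?_
    rw [card_range, nsmul_eq_mul]
  have h3 := nm_eps ((p : ZMod m) * a)
  linarith

lemma EE_standard {p : ℕ} (a : ZMod m) :
    EE (-((p : ZMod m) * a) ::ₘ
      (Multiset.range p).map fun i : ℕ => a + (i : ZMod m) * ((m / p : ℕ) : ZMod m)) = gam p a := by
  rw [EE_cons, eps_neg]
  unfold EE gam
  rw [Multiset.map_map]
  have : ((Multiset.range p).map (eps ∘ fun i : ℕ => a + (i : ZMod m) * ((m / p : ℕ) : ZMod m))).sum =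
      ∑ i ∈ range p, eps (a + (i : ZMod m) * ((m / p : ℕ) : ZMod m)) := rfl
  rw [this]
  abel

lemma half_add_half (hm : 2 ∣ m) : ((m / 2 : ℕ) : ZMod m) + ((m / 2 : ℕ) : ZMod m) = 0 := by
  have : ((2 * (m / 2) : ℕ) : ZMod m) = 0 := by rw [Nat.mul_div_cancel' hm]; simp
  push_cast at this
  rw [two_mul] at this
  exact this

lemma EE_standardTwo (hm : 2 ∣ m) (a : ZMod m) :
    EE {a, a + ((m / 2 : ℕ) : ZMod m), -(2 * a), ((m / 2 : ℕ) : ZMod m)} = gam 2 a := by
  simp only [Multiset.insert_eq_cons]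
  rw [EE_cons, EE_cons, EE_cons, eps_neg]
  have h1 : EE {((m / 2 : ℕ) : ZMod m)} = eps ((m / 2 : ℕ) : ZMod m) := by
    unfold EE
    rw [Multiset.map_singleton, Multiset.sum_singleton]
  rw [h1, eps_half (half_add_half hm)]
  unfold gam
  rw [sum_range_succ, sum_range_one]
  simp only [Nat.cast_zero, zero_mul, add_zero, Nat.cast_one, one_mul, Nat.cast_ofNat]
  abel

lemma gam_mod {p : ℕ} (hp : p ∣ m) (a : ZMod m) :
    gam p ((a.val % (m / p) : ℕ) : ZMod m) = gam p a := by
  have hpd : p * (m / p) = m := Nat.mul_div_cancel' hp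
  set d := m / p with hd
  have ha : a = ((a.val % d : ℕ) : ZMod m) + ((a.val / d : ℕ) : ZMod m) * (d : ZMod m) := by
    conv_lhs => rw [← ZMod.natCast_zmod_val a, ← Nat.mod_add_div a.val d]
    push_cast
    ring
  have h1 := coset_sum_shift_mul (fun b : ZMod m => eps b) hpd ((a.val % d : ℕ) : ZMod m) (a.val / d)
  rw [← ha] at h1
  have hpd0 : (p : ZMod m) * (d : ZMod m) = 0 := by
    have : ((p * d : ℕ) : ZMod m) = 0 := by rw [hpd]; simp
    simpa using this
  have h2 : (p : ZMod m) * ((a.val % d : ℕ) : ZMod m) = (p : ZMod m) * a := by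
    conv_rhs => rw [ha]
    linear_combination (-((a.val / d : ℕ) : ZMod m)) * hpd0
  unfold gam
  rw [h2]
  congr 1
  exact h1.symm

/-- the index set -/
def Ix (m : ℕ) [NeZero m] : Finset (Σ _ : ℕ, ℕ) :=
  m.primeFactors.sigma fun p => (range (m / p)).filter fun j : ℕ => (p : ZMod m) * (j : ZMod m) ≠ 0

/-- the standard relations -/
def ga (m : ℕ) [NeZero m] (q : Σ _ : ℕ, ℕ) : ZMod m → ℤ := gam q.1 (q.2 : ZMod m)

lemma sum_nm_ga : ∑ q ∈ Ix m, nm (ga m q) ≤ 3 * (m.primeFactors.card * m) := by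
  unfold Ix
  rw [sum_sigma]
  have h1 : ∀ p ∈ m.primeFactors, ∑ j ∈ (range (m / p)).filter
      (fun j : ℕ => (p : ZMod m) * (j : ZMod m) ≠ 0), nm (ga m ⟨p, j⟩) ≤ 3 * m := by
    intro p hp
    have hpp := Nat.prime_of_mem_primeFactors hp
    have hpm := Nat.dvd_of_mem_primeFactors hp
    refine (sum_le_card_nsmul _ _ (2 * ((p : ℤ) + 1)) fun j _ => nm_gam p _).trans ?_
    have h2 : ((range (m / p)).filter (fun j : ℕ => (p : ZMod m) * (j : ZMod m) ≠ 0)).card ≤ m / p := by
      refine (card_filter_le _ _).trans ?_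
      rw [card_range]
    rw [nsmul_eq_mul]
    have h3 : p * (m / p) = m := Nat.mul_div_cancel' hpm
    have h4 : 2 * (m / p) ≤ m := by
      calc 2 * (m / p) ≤ p * (m / p) := Nat.mul_le_mul_right _ hpp.two_le
        _ = m := h3
    have h5 : (((range (m / p)).filter (fun j : ℕ => (p : ZMod m) * (j : ZMod m) ≠ 0)).card : ℤ) *
        (2 * ((p : ℤ) + 1)) ≤ ((m / p : ℕ) : ℤ) * (2 * ((p : ℤ) + 1)) := by
      apply mul_le_mul_of_nonneg_right _ (by positivity)
      exact_mod_cast h2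
    refine h5.trans ?_
    have h3' : (p : ℤ) * ((m / p : ℕ) : ℤ) = m := by exact_mod_cast h3
    have h4' : 2 * ((m / p : ℕ) : ℤ) ≤ m := by exact_mod_cast h4
    nlinarith
  refine (sum_le_sum h1).trans ?_
  rw [sum_const, nsmul_eq_mul]
  apply le_of_eq
  ring

/-- integral combinations of the standard relations -/
def Cb (m : ℕ) [NeZero m] : AddSubgroup (ZMod m → ℤ) where
  carrier := {y | ∃ n : (Σ _ : ℕ, ℕ) → ℤ, ∑ q ∈ Ix m, n q • ga m q = y}
  zero_mem' := ⟨fun _ => 0, by simp⟩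
  add_mem' := by
    rintro _ _ ⟨n, rfl⟩ ⟨k, rfl⟩
    refine ⟨fun q => n q + k q, ?_⟩
    simp only [add_smul]
    rw [sum_add_distrib]
  neg_mem' := by
    rintro _ ⟨n, rfl⟩
    refine ⟨fun q => - n q, ?_⟩
    simp only [neg_smul]
    rw [sum_neg_distrib]

lemma mem_Cb {y : ZMod m → ℤ} : y ∈ Cb m ↔
    ∃ n : (Σ _ : ℕ, ℕ) → ℤ, ∑ q ∈ Ix m, n q • ga m q = y := Iff.rfl

lemma gam_mem_Cb {p : ℕ} (hp : p.Prime) (hpm : p ∣ m) {a : ZMod m} (ha : (p : ZMod m) * a ≠ 0) :
    gam p a ∈ Cb m := by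
  classical
  have hd : 0 < m / p := Nat.div_pos (Nat.le_of_dvd (NeZero.pos m) hpm) hp.pos
  have hq : (⟨p, a.val % (m / p)⟩ : Σ _ : ℕ, ℕ) ∈ Ix m := by
    unfold Ix
    rw [mem_sigma, mem_filter, mem_range]
    refine ⟨Nat.mem_primeFactors.mpr ⟨hp, hpm, NeZero.ne m⟩, Nat.mod_lt _ hd, ?_⟩
    intro h
    apply ha
    have hpd : p * (m / p) = m := Nat.mul_div_cancel' hpm
    have hpd0 : (p : ZMod m) * ((m / p : ℕ) : ZMod m) = 0 := by
      have : ((p * (m / p) : ℕ) : ZMod m) = 0 := by rw [hpd]; simp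
      rwa [Nat.cast_mul] at this
    have h2 : a = ((a.val % (m / p) : ℕ) : ZMod m) +
        ((a.val / (m / p) : ℕ) : ZMod m) * ((m / p : ℕ) : ZMod m) := by
      conv_lhs => rw [← ZMod.natCast_zmod_val a, ← Nat.mod_add_div a.val (m / p)]
      rw [Nat.cast_add, Nat.cast_mul]
      ring
    rw [h2]
    linear_combination h + ((a.val / (m / p) : ℕ) : ZMod m) * hpd0
  rw [mem_Cb, ← gam_mod hpm a]
  refine ⟨fun q => if q = ⟨p, a.val % (m / p)⟩ then 1 else 0, ?_⟩
  rw [sum_eq_single_of_mem _ hq]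
  · beta_reduce
    rw [if_pos rfl, one_smul]
    rfl
  · intro q _ hne
    beta_reduce
    rw [if_neg hne, zero_smul]

lemma LL_le_Cb : LL m (B0 m) ≤ Cb m := by
  refine (AddSubgroup.closure_le _).mpr ?_
  rintro _ ⟨s, hs, rfl⟩
  change EE s ∈ Cb m
  induction hs with
  | ofBase s hs => exact hs.elim
  | pair a ha =>
    have : EE ({a, -a} : Multiset (ZMod m)) = 0 := by
      rw [Multiset.insert_eq_cons, EE_cons]
      unfold EE
      simp [eps_neg]
    rw [this]
    exact (Cb m).zero_mem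
  | standard p hp hp2 hpm a ha =>
    rw [EE_standard]
    exact gam_mem_Cb hp hpm ha
  | standardTwo hm a ha =>
    rw [EE_standardTwo hm]
    exact gam_mem_Cb Nat.prime_two hm (by exact_mod_cast ha)
  | join s t _ _ ihs iht =>
    rw [EE_add]
    exact (Cb m).add_mem ihs iht
  | cancel a s _ ih =>
    rw [EE_cons, EE_cons, eps_neg] at ih
    simpa using ih

lemma ga_mem_LL {q : Σ _ : ℕ, ℕ} (hq : q ∈ Ix m) : ga m q ∈ LL m (B0 m) := by
  unfold Ix at hq
  rw [mem_sigma, mem_filter, mem_range] at hq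
  obtain ⟨hp, _, ha⟩ := hq
  have hpp := Nat.prime_of_mem_primeFactors hp
  have hpm := Nat.dvd_of_mem_primeFactors hp
  unfold ga
  by_cases h2 : q.1 = 2
  · rw [h2] at ha hpm ⊢
    rw [← EE_standardTwo hpm]
    exact AddSubgroup.subset_closure ⟨_, Generated.standardTwo hpm _ (by exact_mod_cast ha), rfl⟩
  · rw [← EE_standard]
    exact AddSubgroup.subset_closure ⟨_, Generated.standard _ hpp h2 hpm _ ha, rfl⟩

lemma sum_eps_saw (t : (ZMod m)ˣ) (a : ZMod m) :
    ∑ b, eps a b * saw ((t : ZMod m) * b) = 2 * saw ((t : ZMod m) * a) := by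
  classical
  have h1 : ∀ b, eps a b * saw ((t : ZMod m) * b) =
      (if b = a then saw ((t : ZMod m) * b) else 0) - if b = -a then saw ((t : ZMod m) * b) else 0 := by
    intro b
    rw [eps_apply]
    have h2 : (-b = a) = (b = -a) := by rw [neg_eq_iff_eq_neg]
    rw [sub_mul]
    simp only [h2]
    congr 1
    · split_ifs <;> simp
    · split_ifs <;> simp
  rw [sum_congr rfl fun b _ => h1 b, sum_sub_distrib, sum_ite_eq', sum_ite_eq', if_pos (mem_univ _),
    if_pos (mem_univ _), mul_neg, saw_neg]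
  ring

lemma rel_ga {q : Σ _ : ℕ, ℕ} (hq : q ∈ Ix m) : Rel (ga m q) := by
  unfold Ix at hq
  rw [mem_sigma] at hq
  have hpm := Nat.dvd_of_mem_primeFactors hq.1
  intro t
  unfold ga gam
  simp only [Pi.sub_apply, Finset.sum_apply, sub_mul, sum_mul]
  rw [sum_sub_distrib, sum_comm, sum_congr rfl fun i _ => sum_eps_saw t _, sum_eps_saw, ← mul_sum,
    saw_dist_unit (Nat.mul_div_cancel' hpm) t, sub_self]

lemma rel_LL {y : ZMod m → ℤ} (hy : y ∈ LL m (B0 m)) : Rel y := by
  obtain ⟨n, rfl⟩ := LL_le_Cb hy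
  intro t
  simp only [Finset.sum_apply, Pi.smul_apply, smul_eq_mul, sum_mul]
  rw [sum_comm]
  refine sum_eq_zero fun q hq => ?_
  have := rel_ga hq t
  simp only [mul_assoc]
  rw [← mul_sum, this, mul_zero]

lemma eps_odd (a b : ZMod m) : eps a (-b) = - eps a b := by
  rw [eps_apply, eps_apply, neg_neg]
  ring

lemma EE_odd (s : Multiset (ZMod m)) (b : ZMod m) : EE s (-b) = - EE s b := by
  rw [EE_apply, EE_apply, neg_neg]
  ring

lemma ga_odd (q : Σ _ : ℕ, ℕ) (b : ZMod m) : ga m q (-b) = - ga m q b := by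
  unfold ga gam
  simp only [Pi.sub_apply, Finset.sum_apply, eps_odd, sum_neg_distrib]
  ring

end Gam

section Rep

variable {m : ℕ} [NeZero m]

/-- a relation with nonnegative coefficients is a Hodge character of the same size -/
lemma exists_hodge_card (x : ZMod m → ℤ) (hx : Rel x) (hx0 : ∀ a, 0 ≤ x a) (hz : x 0 = 0) :
    ∃ s : Multiset (ZMod m), IsHodge m s ∧ (Multiset.card s : ℤ) ≤ ∑ a, x a + 1 ∧
      EE s = fun a => x a - x (-a) := by
  classical
  let s1 : Multiset (ZMod m) := ∑ b : ZMod m, Multiset.replicate (x b).toNat b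
  have hcount : ∀ a, ((s1.count a : ℕ) : ℤ) = x a := by
    intro a
    simp only [s1]
    rw [Multiset.count_sum']
    simp only [Multiset.count_replicate]
    rw [sum_ite_eq', if_pos (mem_univ _)]
    exact Int.toNat_of_nonneg (hx0 a)
  have hcard : ((Multiset.card s1 : ℕ) : ℤ) = ∑ a, x a := by
    simp only [s1]
    rw [Multiset.card_sum]
    simp only [Multiset.card_replicate]
    rw [Nat.cast_sum]
    exact sum_congr rfl fun a _ => Int.toNat_of_nonneg (hx0 a)
  have h01 : (0 : ZMod m) ∉ s1 := by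
    intro h
    have h1 := Multiset.count_pos.mpr h
    have h2 := hcount 0
    rw [hz] at h2
    omega
  have hsaw : ∀ t : (ZMod m)ˣ, (s1.map fun a => saw ((t : ZMod m) * a)).sum = 0 := by
    intro t
    rw [← sum_count]
    simp only [hcount, smul_eq_mul]
    exact hx t
  have hE : EE s1 = fun a => x a - x (-a) := by
    funext a
    rw [EE_apply, hcount, hcount]
  by_cases heven : Even (Multiset.card s1)
  · exact ⟨s1, isHodge_of_saw h01 heven hsaw, by rw [hcard]; omega, hE⟩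
  · rw [Nat.not_even_iff_odd] at heven
    have h1 := saw_sum_eq s1 h01 1
    rw [hsaw 1] at h1
    have hm2 : 2 ∣ m := by
      obtain ⟨k, hk⟩ := heven
      have h2 : (m : ℤ) * (2 * k + 1) =
          2 * (((s1.map fun a => (((1 : (ZMod m)ˣ) : ZMod m) * a).val).sum : ℕ) : ℤ) := by
        rw [hk] at h1
        push_cast at h1
        push_cast
        linarith
      have h3 : (2 : ℤ) ∣ (m : ℤ) * (2 * k + 1) := ⟨_, h2⟩
      have h4 : (2 : ℤ) ∣ (m : ℤ) := by
        rcases Int.Prime.dvd_mul' Nat.prime_two h3 with h | h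
        · exact_mod_cast h
        · exfalso; omega
      exact_mod_cast h4
    set h : ZMod m := ((m / 2 : ℕ) : ZMod m) with hh
    have hhh : h + h = 0 := half_add_half hm2
    have hh0 : h ≠ 0 := by
      intro h'
      rw [hh, ZMod.natCast_eq_zero_iff] at h'
      have hmp := NeZero.pos m
      have h5 : 0 < m / 2 := Nat.div_pos (Nat.le_of_dvd hmp hm2) (by norm_num)
      have := Nat.le_of_dvd h5 h'
      omega
    refine ⟨h ::ₘ s1, isHodge_of_saw ?_ ?_ ?_, ?_, ?_⟩
    · rw [Multiset.mem_cons, not_or]; exact ⟨Ne.symm hh0, h01⟩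
    · rw [Multiset.card_cons]; exact heven.add_one
    · intro t
      rw [Multiset.map_cons, Multiset.sum_cons, hsaw t, add_zero]
      apply saw_half
      rw [← mul_add, hhh, mul_zero]
    · rw [Multiset.card_cons]
      push_cast
      rw [hcard]
    · rw [EE_cons, eps_half hhh, zero_add, hE]

/-- **Small representatives.** -/
theorem small_rep {s : Multiset (ZMod m)} (hs : IsHodge m s) {N : ℕ} (hN : 0 < N)
    (h : (N : ℤ) • EE s ∈ LL m (B0 m)) :
    ∃ f, IsHodge m f ∧ 4 * Multiset.card f ≤ 3 * (m.primeFactors.card * m) + 4 ∧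
      EE s - EE f ∈ LL m (B0 m) := by
  classical
  obtain ⟨n, hn⟩ := LL_le_Cb h
  set c : (Σ _ : ℕ, ℕ) → ℤ := fun q => Int.bdiv (n q) N with hc
  set r : (Σ _ : ℕ, ℕ) → ℤ := fun q => Int.bmod (n q) N with hr
  have hrc : ∀ q, n q = r q + N * c q := fun q => (Int.bmod_add_bdiv (n q) N).symm
  have hr2 : ∀ q, 2 * |r q| ≤ N := by
    intro q
    have h1 : r q ≤ (N - 1) / 2 := Int.bmod_le hN
    have h2 : -((N : ℤ) / 2) ≤ r q := Int.le_bmod hN
    rcases abs_cases (r q) with ⟨h, _⟩ | ⟨h, _⟩ <;> rw [h] <;> omega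
  set z : ZMod m → ℤ := ∑ q ∈ Ix m, c q • ga m q with hz
  have hzL : z ∈ LL m (B0 m) :=
    AddSubgroup.sum_mem _ fun q hq => AddSubgroup.zsmul_mem _ (ga_mem_LL hq) _
  set y : ZMod m → ℤ := EE s - z with hy
  have hNy : (N : ℤ) • y = ∑ q ∈ Ix m, r q • ga m q := by
    rw [hy, smul_sub, ← hn, hz, smul_sum, ← sum_sub_distrib]
    refine sum_congr rfl fun q _ => ?_
    rw [hrc q, add_smul, smul_smul, add_sub_cancel_right]
  have hnm : 2 * nm y ≤ 3 * (m.primeFactors.card * m) := by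
    have h1 : nm ((N : ℤ) • y) ≤ ∑ q ∈ Ix m, nm (r q • ga m q) := by
      rw [hNy]
      exact nm_sum _ _
    rw [nm_smul] at h1
    have h2 : 2 * ∑ q ∈ Ix m, nm (r q • ga m q) ≤ N * ∑ q ∈ Ix m, nm (ga m q) := by
      rw [mul_sum, mul_sum]
      refine sum_le_sum fun q _ => ?_
      rw [nm_smul, ← mul_assoc]
      exact mul_le_mul_of_nonneg_right (hr2 q) (nm_nonneg _)
    have h3 := sum_nm_ga (m := m)
    have h4 : |(N : ℤ)| = N := abs_of_nonneg (by positivity)
    rw [h4] at h1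
    have h5 : (N : ℤ) * (2 * nm y) ≤ N * (3 * (m.primeFactors.card * m)) := by
      have h6 : (N : ℤ) * ∑ q ∈ Ix m, nm (ga m q) ≤ N * (3 * (m.primeFactors.card * m)) :=
        mul_le_mul_of_nonneg_left h3 (by positivity)
      linarith
    exact le_of_mul_le_mul_left h5 (by exact_mod_cast hN)
  have hodd : ∀ a, y (-a) = - y a := by
    intro a
    rw [hy, hz]
    simp only [Pi.sub_apply, Finset.sum_apply, Pi.smul_apply, ga_odd, EE_odd, smul_neg,
      sum_neg_distrib]
    ring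
  have hrely : Rel y := by
    have h1 : Rel (EE s) := by
      intro t
      have h1 := hs.rel t
      simp only [EE_apply, sub_mul]
      rw [sum_sub_distrib, h1, zero_sub, neg_eq_zero]
      have h2 : ∑ a : ZMod m, ((s.count (-a) : ℕ) : ℤ) * saw ((t : ZMod m) * a) =
          - ∑ a : ZMod m, ((s.count a : ℕ) : ℤ) * saw ((t : ZMod m) * a) := by
        rw [← sum_neg_distrib]
        refine Fintype.sum_equiv (Equiv.neg _) _ _ fun a => ?_
        simp only [Equiv.neg_apply]
        rw [mul_neg, saw_neg]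
        ring
      rw [h2, h1, neg_zero]
    have h2 := rel_LL hzL
    intro t
    rw [hy]
    simp only [Pi.sub_apply, sub_mul]
    rw [sum_sub_distrib, h1 t, h2 t, sub_zero]
  set x : ZMod m → ℤ := fun a => max (y a) 0 with hx
  have hxy : ∀ a, x a - x (-a) = y a := by
    intro a
    simp only [hx, hodd]
    omega
  have hrelx : Rel x := by
    intro t
    have h1 := hrely t
    have h2 : ∑ a, x (-a) * saw ((t : ZMod m) * a) = - ∑ a, x a * saw ((t : ZMod m) * a) := by
      rw [← sum_neg_distrib]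
      refine Fintype.sum_equiv (Equiv.neg _) _ _ fun a => ?_
      simp only [Equiv.neg_apply]
      rw [mul_neg, saw_neg]
      ring
    have h3 : ∑ a, (x a - x (-a)) * saw ((t : ZMod m) * a) = 0 := by
      rw [← h1]
      exact sum_congr rfl fun a _ => by rw [hxy a]
    simp only [sub_mul] at h3
    rw [sum_sub_distrib, h2] at h3
    omega
  have hy0 : y 0 = 0 := by
    have := hodd 0
    rw [neg_zero] at this
    omega
  obtain ⟨f, hf1, hf2, hf3⟩ := exists_hodge_card x hrelx (fun a => le_max_right _ _) (by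
    simp only [hx, hy0, max_self])
  refine ⟨f, hf1, ?_, ?_⟩
  · have h1 : 2 * ∑ a, x a = nm y := by
      have h2 : ∑ a, x (-a) = ∑ a, x a := Fintype.sum_equiv (Equiv.neg _) _ _ fun a => rfl
      have h3 : nm y = ∑ a, (x a + x (-a)) := by
        unfold nm
        refine sum_congr rfl fun a _ => ?_
        simp only [hx, hodd]
        rcases abs_cases (y a) with ⟨h, h'⟩ | ⟨h, h'⟩ <;> rw [h] <;> omega
      rw [h3, sum_add_distrib, h2]
      ring
    have h4 : 4 * (Multiset.card f : ℤ) ≤ 3 * (m.primeFactors.card * m) + 4 := by linarith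
    exact_mod_cast h4
  · have h1 : EE f = y := by
      rw [hf3]
      funext a
      exact hxy a
    rw [h1, hy, sub_sub_cancel]
    exact hzL

end Rep

end Pool.Agent.Q59.RL
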