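import Pool.Agent.Q59.RL.Ratio

/-!
# Pairs of words with difference in a finite subgroup
-/

namespace Pool.Agent.Q59.RL

open Finset Function Filter Topology

variable {Q : Type*} [AddCommGroup Q] {ι : Type*} [Fintype ι] {c : ι → Q}

open scoped Classical in
lemma sum_words (k : ℕ) : ∀ z : Q, P c k z =
    ∑ w : Fin k → ι, if ∑ i, c (w i) = z then (1 : ℝ) else 0 := by
  induction k with
  | zero =>
    intro z
    rw [P_zero]
    simp only [Fintype.sum_unique, univ_eq_empty, sum_empty]
    by_cases h : z = 0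
    · rw [if_pos h, if_pos h.symm]
    · rw [if_neg h, if_neg (fun h' => h h'.symm)]
  | succ k ih =>
    intro z
    rw [P_succ]
    have h1 := Fintype.sum_equiv (Fin.consEquiv fun _ : Fin (k + 1) => ι)
      (fun p : ι × (Fin k → ι) => if ∑ i, c (p.2 i) = z - c p.1 then (1 : ℝ) else 0)
      (fun w => if ∑ i, c (w i) = z then (1 : ℝ) else 0) (by
        rintro ⟨i, w⟩
        have h2 : ∑ j, c ((Fin.consEquiv (fun _ : Fin (k + 1) => ι)) (i, w) j) =
            c i + ∑ j, c (w j) := by
          rw [Fin.sum_univ_succ]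
          rfl
        rw [h2]
        refine if_congr ?_ rfl rfl
        constructor
        · intro h; rw [h]; abel
        · intro h; rw [← h]; abel)
    rw [← h1, Fintype.sum_prod_type]
    exact sum_congr rfl fun i _ => ih _

/-- the difference of the sums of a pair of words -/
def df (c : ι → Q) {k : ℕ} (p : (Fin k → ι) × (Fin k → ι)) : Q :=
  ∑ i, c (p.1 i) - ∑ i, c (p.2 i)

open scoped Classical in
lemma sum_pairs (k : ℕ) (z : Q) : PP c k z =
    ∑ p : (Fin k → ι) × (Fin k → ι), if df c p = z then (1 : ℝ) else 0 := by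
  have h1 : ∀ y, P c k y * P c k (y - z) =
      ∑ w : Fin k → ι, if y = ∑ i, c (w i) then P c k (y - z) else 0 := by
    intro y
    nth_rewrite 1 [sum_words]
    rw [sum_mul]
    refine sum_congr rfl fun w _ => ?_
    by_cases h : ∑ i, c (w i) = y
    · rw [if_pos h, if_pos h.symm, one_mul]
    · rw [if_neg h, if_neg (fun h' => h h'.symm), zero_mul]
  unfold PP
  rw [tsum_congr h1, Summable.tsum_finsetSum]
  · rw [Fintype.sum_prod_type]
    refine sum_congr rfl fun w _ => ?_
    rw [tsum_ite_eq, sum_words]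
    refine sum_congr rfl fun w' _ => ?_
    unfold df
    refine if_congr ?_ rfl rfl
    constructor
    · intro h; simp only [h]; abel
    · intro h; rw [← h]; abel
  · intro w _
    refine summable_of_hasFiniteSupport ((Set.finite_singleton (∑ i, c (w i))).subset ?_)
    intro y hy
    by_contra h
    exact hy (if_neg h)

lemma card_pairs (k : ℕ) (z : Q) :
    (Nat.card {p : (Fin k → ι) × (Fin k → ι) // df c p = z} : ℝ) = PP c k z := by
  classical
  rw [sum_pairs, Nat.card_eq_fintype_card, Fintype.card_subtype, sum_boole]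

lemma card_pairs_mem (T : AddSubgroup Q) [Fintype T] (k : ℕ) :
    (Nat.card {p : (Fin k → ι) × (Fin k → ι) // df c p ∈ T} : ℝ) = ∑ t : T, PP c k t := by
  classical
  simp only [sum_pairs]
  rw [sum_comm, Nat.card_eq_fintype_card, Fintype.card_subtype, ← sum_boole]
  refine sum_congr rfl fun w _ => ?_
  by_cases h : df c w ∈ T
  · rw [if_pos h, sum_eq_single ⟨_, h⟩]
    · rw [if_pos rfl]
    · intro t _ ht
      rw [if_neg]
      intro h'
      exact ht (Subtype.ext h'.symm)
    · intro h'; exact absurd (mem_univ _) h'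
  · rw [if_neg h]
    symm
    refine sum_eq_zero fun t _ => if_neg ?_
    intro h'
    exact h (h' ▸ t.2)

lemma df_mem {k : ℕ} (p : (Fin k → ι) × (Fin k → ι)) : df c p ∈ CC c := by
  unfold df
  rw [← sum_sub_distrib]
  exact AddSubgroup.sum_mem _ fun i _ => AddSubgroup.subset_closure ⟨_, _, rfl⟩

lemma PP_mem {k : ℕ} {z : Q} (h : PP c k z ≠ 0) : ∃ p : (Fin k → ι) × (Fin k → ι), df c p = z := by
  classical
  rw [sum_pairs] at h
  obtain ⟨p, _, hp⟩ := exists_ne_zero_of_sum_ne_zero h
  exact ⟨p, by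
    by_contra h0
    exact hp (if_neg h0)⟩

/-- **Equidistribution over a finite subgroup.** -/
theorem pairs_ratio [Nonempty ι] (T : AddSubgroup Q) [Finite T] :
    Tendsto (fun k : ℕ => (Nat.card {p : (Fin k → ι) × (Fin k → ι) // df c p = 0} : ℝ) /
      Nat.card {p : (Fin k → ι) × (Fin k → ι) // df c p ∈ T}) atTop
      (𝓝 (1 / Nat.card (T ⊓ CC c : AddSubgroup Q))) := by
  classical
  have := Fintype.ofFinite T
  have hpos := fun k => PP_pos (c := c) k
  have h1 : Tendsto (fun k : ℕ => ∑ t : T, PP c k t / PP c k 0) atTop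
      (𝓝 (∑ t : T, if (t : Q) ∈ CC c then 1 else 0)) := by
    refine tendsto_finsetSum _ fun t _ => ?_
    split_ifs with h
    · exact ratio h
    · have h2 : ∀ k : ℕ, PP c k t / PP c k 0 = 0 := by
        intro k
        have : PP c k t = 0 := by
          by_contra h3
          obtain ⟨p, hp⟩ := PP_mem h3
          exact h (hp ▸ df_mem p)
        rw [this, zero_div]
      simp only [h2]
      exact tendsto_const_nhds
  have h2 : (∑ t : T, if (t : Q) ∈ CC c then (1 : ℝ) else 0) =
      Nat.card (T ⊓ CC c : AddSubgroup Q) := by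
    rw [sum_boole, ← Fintype.card_subtype, ← Nat.card_eq_fintype_card]
    congr 1
    refine Nat.card_congr ⟨fun x => ⟨x.1.1, x.1.2, x.2⟩, fun x => ⟨⟨x.1, x.2.1⟩, x.2.2⟩,
      fun x => rfl, fun x => rfl⟩
  rw [h2] at h1
  have hfin : Finite (T ⊓ CC c : AddSubgroup Q) :=
    Finite.of_injective (fun x => (⟨x.1, x.2.1⟩ : T)) fun a b h => by
      have := congrArg (fun z : T => (z : Q)) h
      exact Subtype.ext this
  have h3 : (Nat.card (T ⊓ CC c : AddSubgroup Q) : ℝ) ≠ 0 := by
    have : 0 < Nat.card (T ⊓ CC c : AddSubgroup Q) := Nat.card_pos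
    exact_mod_cast this.ne'
  have h4 := h1.inv₀ h3
  rw [one_div]
  refine h4.congr fun k => ?_
  rw [card_pairs, card_pairs_mem, ← sum_div, inv_div]

/-- **The bound.** -/
theorem pairs_le [Nonempty ι] (T : AddSubgroup Q) [Finite T] (k : ℕ) :
    Nat.card {p : (Fin k → ι) × (Fin k → ι) // df c p ∈ T} ≤
      Nat.card (T ⊓ CC c : AddSubgroup Q) *
        Nat.card {p : (Fin k → ι) × (Fin k → ι) // df c p = 0} := by
  classical
  have hfin : Finite (T ⊓ CC c : AddSubgroup Q) :=
    Finite.of_injective (fun x => (⟨x.1, x.2.1⟩ : T)) fun a b h => by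
      have := congrArg (fun z : T => (z : Q)) h
      exact Subtype.ext this
  have := Fintype.ofFinite (T ⊓ CC c : AddSubgroup Q)
  have h1 : (Nat.card {p : (Fin k → ι) × (Fin k → ι) // df c p ∈ T} : ℝ) ≤
      Nat.card (T ⊓ CC c : AddSubgroup Q) *
        Nat.card {p : (Fin k → ι) × (Fin k → ι) // df c p = 0} := by
    have h2 : Nat.card {p : (Fin k → ι) × (Fin k → ι) // df c p ∈ T} =
        Nat.card {p : (Fin k → ι) × (Fin k → ι) // df c p ∈ T ⊓ CC c} :=
      Nat.card_congr (Equiv.subtypeEquivRight fun p => ⟨fun h => ⟨h, df_mem p⟩, fun h => h.1⟩)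
    rw [h2, card_pairs_mem, card_pairs, Nat.card_eq_fintype_card, ← nsmul_eq_mul]
    have h3 := sum_le_card_nsmul (univ : Finset (T ⊓ CC c : AddSubgroup Q))
      (fun t => PP c k (t : Q)) (PP c k 0) (fun t _ => PP_le_zero k _)
    rwa [card_univ] at h3
  exact_mod_cast h1

/-- all pairs with difference in `T` have difference zero, if and only if the index is one -/
theorem pairs_all [Nonempty ι] (T : AddSubgroup Q) :
    T ⊓ CC c = ⊥ ↔ ∀ (k : ℕ) (p : (Fin k → ι) × (Fin k → ι)), df c p ∈ T → df c p = 0 := by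
  classical
  constructor
  · intro h k p hp
    have h2 : df c p ∈ T ⊓ CC c := ⟨hp, df_mem p⟩
    rwa [h, AddSubgroup.mem_bot] at h2
  · intro h
    rw [eq_bot_iff]
    rintro z ⟨hz1, hz2⟩
    rw [AddSubgroup.mem_bot]
    have h1 := ratio hz2
    obtain ⟨k, hk⟩ := (h1.eventually (lt_mem_nhds (zero_lt_one : (0 : ℝ) < 1))).exists
    have h2 : PP c k z ≠ 0 := by
      intro h0
      rw [h0, zero_div] at hk
      exact lt_irrefl _ hk
    obtain ⟨p, hp⟩ := PP_mem h2
    rw [← hp]
    exact h k p (hp ▸ hz1)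

end Pool.Agent.Q59.RL
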