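import Pool.Agent.Q59.RL.Tors
import Pool.Agent.Q59.RL.Words
import Pool.Agent.H916R2.Full

/-!
# The dyadic law for families of Hodge characters
-/

namespace Pool.Agent.Q59.RL

open Finset Filter Topology Pool.Agent.H916R2 Pool.Agent.Q59.FS

/-- the closure properties of the family of the characters of algebraic classes -/
structure Adm (m : ℕ) (A : Multiset (ZMod m) → Prop) : Prop where
  hodge : ∀ s, A s → IsHodge m s
  neg : ∀ s, A s → A (s.map Neg.neg)
  pair : ∀ a : ZMod m, a ≠ 0 → A {a, -a}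
  standard : ∀ p : ℕ, p.Prime → p ≠ 2 → p ∣ m → ∀ a : ZMod m, (p : ZMod m) * a ≠ 0 →
    A (-((p : ZMod m) * a) ::ₘ
      (Multiset.range p).map fun i : ℕ => a + (i : ZMod m) * ((m / p : ℕ) : ZMod m))
  standardTwo : 2 ∣ m → ∀ a : ZMod m, 2 * a ≠ 0 →
    A {a, a + ((m / 2 : ℕ) : ZMod m), -(2 * a), ((m / 2 : ℕ) : ZMod m)}
  join : ∀ s t, A s → A t → A (s + t)
  cancel : ∀ a s, A (a ::ₘ -a ::ₘ s) → A s

section Main

variable {m : ℕ} {A : Multiset (ZMod m) → Prop}

lemma Adm.gen (hA : Adm m A) {s : Multiset (ZMod m)} (h : Generated m A s) : A s := by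
  induction h with
  | ofBase s hs => exact hs
  | pair a ha => exact hA.pair a ha
  | standard p hp hp2 hpm a ha => exact hA.standard p hp hp2 hpm a ha
  | standardTwo hm a ha => exact hA.standardTwo hm a ha
  | join s t _ _ ihs iht => exact hA.join s t ihs iht
  | cancel a s _ ih => exact hA.cancel a s ih

/-- the class of a multiset -/
def cl (A : Multiset (ZMod m) → Prop) (s : Multiset (ZMod m)) :
    ((ZMod m → ℤ) ⧸ LL m A) × ZMod 2 :=
  ((s.map (cQ m A)).sum, ((Multiset.card s : ℕ) : ZMod 2))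

lemma cl_add (s t : Multiset (ZMod m)) : cl A (s + t) = cl A s + cl A t := by
  unfold cl
  rw [Multiset.map_add, Multiset.sum_add, Multiset.card_add, Nat.cast_add]
  rfl

lemma cl_zero : cl A 0 = 0 := by
  unfold cl
  simp

variable [NeZero m]

lemma cl_neg (s : Multiset (ZMod m)) : cl A (s.map Neg.neg) = - cl A s := by
  unfold cl
  rw [Multiset.map_map, Multiset.card_map]
  refine Prod.ext ?_ ?_
  · have h : (s.map (cQ m A ∘ Neg.neg)) = s.map fun a => - cQ m A a :=
      Multiset.map_congr rfl fun a _ => (cQ_oddDist (m := m) (base := A)).neg a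
    simp only [Prod.fst_neg, h]
    exact Multiset.sum_map_neg
  · simp only [Prod.snd_neg]
    exact (ZMod.neg_eq_self_mod_two _).symm

lemma cl_sum {ι : Type*} (S : Finset ι) (L : ι → Multiset (ZMod m)) :
    cl A (∑ i ∈ S, L i) = ∑ i ∈ S, cl A (L i) := by
  classical
  induction S using Finset.induction_on with
  | empty => simp [cl_zero]
  | insert a S ha ih => rw [sum_insert ha, sum_insert ha, cl_add, ih]

/-- the functional of a unit -/
def psi (A : Multiset (ZMod m) → Prop) (hA : Adm m A) (t : (ZMod m)ˣ) :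
    ((ZMod m → ℤ) ⧸ LL m A) →+ ℤ :=
  QuotientAddGroup.lift (LL m A)
    { toFun := fun y => ∑ a, y a * saw ((t : ZMod m) * a)
      map_zero' := by simp
      map_add' := fun x y => by
        simp only [Pi.add_apply, add_mul]
        rw [sum_add_distrib] }
    (by
      intro y hy
      unfold LL at hy
      induction hy using AddSubgroup.closure_induction with
      | mem y hy =>
        obtain ⟨s, hs, rfl⟩ := hy
        have h1 := (hA.hodge s (hA.gen hs)).rel t
        change ∑ a, EE s a * saw ((t : ZMod m) * a) = 0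
        simp only [EE_apply, sub_mul]
        rw [sum_sub_distrib, h1, zero_sub, neg_eq_zero]
        have h2 : ∑ a : ZMod m, ((s.count (-a) : ℕ) : ℤ) * saw ((t : ZMod m) * a) =
            - ∑ a : ZMod m, ((s.count a : ℕ) : ℤ) * saw ((t : ZMod m) * a) := by
          rw [← sum_neg_distrib]
          refine Fintype.sum_equiv (Equiv.neg _) _ _ fun a => ?_
          simp only [Equiv.neg_apply]
          rw [mul_neg, saw_neg]
          ring
        rw [h2, h1, neg_zero]
      | zero => exact AddSubgroup.zero_mem _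
      | add x y _ _ hx hy => exact AddSubgroup.add_mem _ hx hy
      | neg x _ hx => exact AddSubgroup.neg_mem _ hx)

lemma psi_cQ (hA : Adm m A) (t : (ZMod m)ˣ) (a : ZMod m) :
    psi A hA t (cQ m A a) = 2 * saw ((t : ZMod m) * a) := by
  classical
  change ∑ b, eps a b * saw ((t : ZMod m) * b) = 2 * saw ((t : ZMod m) * a)
  have h1 : ∀ b, eps a b * saw ((t : ZMod m) * b) =
      (if b = a then saw ((t : ZMod m) * b) else 0) - if b = -a then saw ((t : ZMod m) * b) else 0 := by
    intro b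
    rw [eps_apply]
    have h2 : (-b = a) = (b = -a) := by rw [neg_eq_iff_eq_neg]
    rw [sub_mul]
    simp only [h2]
    congr 1
    · split_ifs <;> simp
    · split_ifs <;> simp
  rw [sum_congr rfl fun b _ => h1 b, sum_sub_distrib, sum_ite_eq', sum_ite_eq', if_pos (mem_univ _),
    if_pos (mem_univ _), mul_neg, saw_neg]
  ring

/-- the subgroup of the Hodge classes -/
def TT' (A : Multiset (ZMod m) → Prop) : AddSubgroup (((ZMod m → ℤ) ⧸ LL m A) × ZMod 2) :=
  (TD (cQ m A) m).prod ⊥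

lemma cl_mem_iff (hA : Adm m A) {s : Multiset (ZMod m)} (h0 : (0 : ZMod m) ∉ s) :
    cl A s ∈ TT' A ↔ IsHodge m s := by
  unfold TT' cl
  rw [AddSubgroup.mem_prod, AddSubgroup.mem_bot, mem_TD, ZMod.natCast_eq_zero_iff,
    ← even_iff_two_dvd]
  constructor
  · rintro ⟨⟨x, hx, _, hx'⟩, heven⟩
    refine isHodge_of_saw h0 heven fun t => ?_
    have h1 := congrArg (psi A hA t) hx'
    rw [map_sum, map_multiset_sum, Multiset.map_map] at h1
    have h2 : ∑ a, psi A hA t (x a • cQ m A a) = 2 * ∑ a, x a * saw ((t : ZMod m) * a) := by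
      rw [mul_sum]
      refine sum_congr rfl fun a _ => ?_
      rw [map_zsmul, psi_cQ, smul_eq_mul]
      ring
    rw [h2, hx t, mul_zero] at h1
    have h3 : (s.map ((psi A hA t) ∘ (cQ m A))).sum =
        2 * (s.map fun a => saw ((t : ZMod m) * a)).sum := by
      rw [← Multiset.sum_map_mul_left]
      congr 1
      exact Multiset.map_congr rfl fun a _ => psi_cQ hA t a
    rw [h3] at h1
    omega
  · intro h
    refine ⟨⟨fun a => ((s.count a : ℕ) : ℤ), h.rel, fun a _ => ?_, sum_count s _⟩, h.2.1⟩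
    have := addOrderOf_dvd_card (x := a)
    rw [ZMod.card] at this
    exact Nat.le_of_dvd (NeZero.pos m) this

lemma cl_eq_zero_iff (hA : Adm m A) (hm : 2 ≤ m) {s : Multiset (ZMod m)}
    (h0 : (0 : ZMod m) ∉ s) : cl A s = 0 ↔ A s := by
  unfold cl
  rw [Prod.mk_eq_zero, ZMod.natCast_eq_zero_iff, ← even_iff_two_dvd]
  constructor
  · rintro ⟨h1, heven⟩
    by_cases hs : s = 0
    · subst hs
      have : Fact (1 < m) := ⟨hm⟩
      have h2 := hA.pair 1 one_ne_zero
      exact hA.cancel 1 0 h2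
    · rw [cQ_sum, QuotientAddGroup.eq_zero_iff] at h1
      exact hA.gen (generated_of_mem_LL (fun s h => ⟨(hA.hodge s h).1, (hA.hodge s h).2.1⟩)
        hA.neg h0 heven hs h1)
  · intro h
    exact ⟨cQ_sum_eq_zero (Generated.ofBase s h), (hA.hodge s h).2.1⟩

lemma card_TT' : ∃ s ≤ 2 ^ ((levels m).card - 1) - 1, Nat.card (TT' A) = 2 ^ s := by
  obtain ⟨s, hs, hs'⟩ := card_T (cQ_oddDist (m := m) (base := A))
  refine ⟨s, hs, ?_⟩
  rw [← hs']
  unfold TT'
  have h1 : Nat.card ((TD (cQ m A) m).prod (⊥ : AddSubgroup (ZMod 2))) =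
      Nat.card (TD (cQ m A) m) * Nat.card (⊥ : AddSubgroup (ZMod 2)) := by
    rw [← Nat.card_prod]
    exact Nat.card_congr (AddSubgroup.prodEquiv _ _).toEquiv
  rw [h1]
  simp

variable {ι : Type} [Fintype ι] [Nonempty ι]

/-- the union of a pair of words -/
def un (L : ι → Multiset (ZMod m)) {k : ℕ} (p : (Fin k → ι) × (Fin k → ι)) : Multiset (ZMod m) :=
  ∑ i, L (p.1 i) + (∑ i, L (p.2 i)).map Neg.neg

omit [NeZero m] [Fintype ι] [Nonempty ι] in
lemma un_zero {L : ι → Multiset (ZMod m)} (hL : ∀ i, (0 : ZMod m) ∉ L i) {k : ℕ}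
    (p : (Fin k → ι) × (Fin k → ι)) : (0 : ZMod m) ∉ un L p := by
  have h1 : ∀ w : Fin k → ι, (0 : ZMod m) ∉ ∑ i, L (w i) := by
    intro w h
    obtain ⟨i, _, hi⟩ := Multiset.mem_sum.mp h
    exact hL _ hi
  intro h
  rcases Multiset.mem_add.mp h with h | h
  · exact h1 _ h
  · obtain ⟨b, hb, hb0⟩ := Multiset.mem_map.mp h
    exact h1 _ (by rwa [neg_eq_zero.mp hb0] at hb)

omit [Fintype ι] [Nonempty ι] in
lemma cl_un (L : ι → Multiset (ZMod m)) {k : ℕ} (p : (Fin k → ι) × (Fin k → ι)) :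
    cl A (un L p) = df (fun i => cl A (L i)) p := by
  unfold un df
  rw [cl_add, cl_neg, cl_sum, cl_sum, sub_eq_add_neg]

/-- **The dyadic law.** -/
theorem dyadic (hA : Adm m A) (hm : 2 ≤ m) (L : ι → Multiset (ZMod m))
    (hL : ∀ i, (0 : ZMod m) ∉ L i) :
    ∃ s ≤ 2 ^ ((levels m).card - 1) - 1,
      (∀ k : ℕ, Nat.card {p : (Fin k → ι) × (Fin k → ι) // IsHodge m (un L p)} ≤
        2 ^ s * Nat.card {p : (Fin k → ι) × (Fin k → ι) // A (un L p)}) ∧
      Tendsto (fun k : ℕ => (Nat.card {p : (Fin k → ι) × (Fin k → ι) // A (un L p)} : ℝ) /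
        Nat.card {p : (Fin k → ι) × (Fin k → ι) // IsHodge m (un L p)}) atTop (𝓝 (1 / 2 ^ s)) ∧
      (s = 0 ↔ ∀ (k : ℕ) (p : (Fin k → ι) × (Fin k → ι)), IsHodge m (un L p) → A (un L p)) := by
  set c : ι → ((ZMod m → ℤ) ⧸ LL m A) × ZMod 2 := fun i => cl A (L i) with hc
  obtain ⟨s0, hs0, hcard⟩ := card_TT' (m := m) (A := A)
  have hfin : Finite (TT' A) := Nat.finite_of_card_ne_zero (by rw [hcard]; positivity)
  have hdvd : Nat.card (TT' A ⊓ CC c : AddSubgroup _) ∣ Nat.card (TT' A) :=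
    AddSubgroup.card_dvd_of_le inf_le_left
  rw [hcard] at hdvd
  obtain ⟨s, hs, hs'⟩ := (Nat.dvd_prime_pow Nat.prime_two).mp hdvd
  have e1 : ∀ k, Nat.card {p : (Fin k → ι) × (Fin k → ι) // IsHodge m (un L p)} =
      Nat.card {p : (Fin k → ι) × (Fin k → ι) // df c p ∈ TT' A} := fun k =>
    Nat.card_congr (Equiv.subtypeEquivRight fun p => by
      rw [← cl_mem_iff hA (un_zero hL p), cl_un])
  have e2 : ∀ k, Nat.card {p : (Fin k → ι) × (Fin k → ι) // A (un L p)} =
      Nat.card {p : (Fin k → ι) × (Fin k → ι) // df c p = 0} := fun k =>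
    Nat.card_congr (Equiv.subtypeEquivRight fun p => by
      rw [← cl_eq_zero_iff hA hm (un_zero hL p), cl_un])
  refine ⟨s, hs.trans hs0, fun k => ?_, ?_, ?_⟩
  · rw [e1, e2, ← hs']
    exact pairs_le (TT' A) k
  · simp only [e1, e2]
    have h := pairs_ratio (c := c) (TT' A)
    rw [hs'] at h
    push_cast at h
    exact h
  · have h1 : s = 0 ↔ TT' A ⊓ CC c = ⊥ := by
      rw [← AddSubgroup.card_eq_one, hs']
      constructor
      · rintro rfl; exact pow_zero 2
      · intro h
        rcases Nat.eq_zero_or_pos s with h2 | h2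
        · exact h2
        · have := Nat.one_lt_two_pow h2.ne'
          omega
    rw [h1, pairs_all]
    refine forall_congr' fun k => forall_congr' fun p => ?_
    rw [← cl_mem_iff hA (un_zero hL p), ← cl_eq_zero_iff hA hm (un_zero hL p), cl_un]

end Main

end Pool.Agent.Q59.RL
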