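import Pool.Agent.Q59.FS.Grp2

/-!
# The sign cohomology of the functions modulo the invariant functions

`G` is a finite commutative group with an element `e` of order at most two, `P` a list of subgroups.
`II P f`: all alternating box sums of `f` for the subgroups in `P` vanish, i.e. (for independent
subgroups) `f` is a sum of functions invariant under members of `P`.
-/

namespace Pool.Agent.Q59.RL

open Finset Pool.Agent.Q59.FS

variable {G : Type*} [CommGroup G]

/-- vanishing box sums everywhere -/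
def II (P : List (Subgroup G)) (f : G → ℤ) : Prop := ∀ u, LB P (TT u f)

/-- invariance under a subgroup -/
def Inv (B : Subgroup G) (f : G → ℤ) : Prop := ∀ κ ∈ B, ∀ u, f (u * κ) = f u

lemma LB_zero (P : List (Subgroup G)) : LB P (fun _ => 0) := by
  induction P with
  | nil => exact rfl
  | cons K P ih =>
    intro κ _ κ' _
    simpa using ih

lemma II.sub {P : List (Subgroup G)} {f g : G → ℤ} (hf : II P f) (hg : II P g) :
    II P (fun u => f u - g u) := fun u => (hf u).sub (hg u)

lemma II.zero (P : List (Subgroup G)) : II P (fun _ => 0) := fun _ => LB_zero P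

lemma II.neg {P : List (Subgroup G)} {f : G → ℤ} (hf : II P f) : II P (fun u => - f u) := by
  have := (II.zero P).sub hf
  simpa using this

lemma II.add {P : List (Subgroup G)} {f g : G → ℤ} (hf : II P f) (hg : II P g) :
    II P (fun u => f u + g u) := by
  have := hf.sub hg.neg
  simpa using this

lemma II_nil {f : G → ℤ} : II [] f ↔ ∀ u, f u = 0 := by
  constructor
  · intro h u
    have := h u
    change f (u * 1) = 0 at this
    rwa [mul_one] at this
  · intro h u
    exact h _

lemma II_cons {K : Subgroup G} {P : List (Subgroup G)} {f : G → ℤ} :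
    II (K :: P) f ↔ ∀ κ ∈ K, II P (fun u => f u - f (u * κ)) := by
  constructor
  · intro h κ hκ u
    have := h u 1 K.one_mem κ hκ
    refine this.congr fun v _ => ?_
    simp only [TT, mul_one, mul_assoc]
  · intro h u κ hκ κ' hκ'
    have := (h κ' hκ' u).sub (h κ hκ u)
    refine this.congr fun v _ => ?_
    simp only [TT, mul_assoc]
    ring

lemma II_of_inv {K : Subgroup G} {P : List (Subgroup G)} {f : G → ℤ} (h : Inv K f) :
    II (K :: P) f := by
  rw [II_cons]
  intro κ hκ
  have : (fun u => f u - f (u * κ)) = fun _ => 0 := by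
    funext u
    rw [h κ hκ u, sub_self]
  rw [this]
  exact II.zero P

lemma II.trans {P : List (Subgroup G)} {f : G → ℤ} (h : II P f) (κ : G) :
    II P (fun u => f (u * κ)) := by
  intro u
  refine (h (u * κ)).congr fun v _ => ?_
  simp only [TT]
  rw [mul_assoc, mul_assoc, mul_comm κ]

lemma II.cons {K : Subgroup G} {P : List (Subgroup G)} {f : G → ℤ} (h : II P f) :
    II (K :: P) f := by
  rw [II_cons]
  intro κ _
  exact h.sub (h.trans κ)

lemma II_of_bot {P : List (Subgroup G)} (hP : ⊥ ∈ P) (f : G → ℤ) : II P f := by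
  induction P with
  | nil => simp at hP
  | cons K P ih =>
    rcases List.mem_cons.mp hP with h | h
    · refine II_of_inv ?_
      intro κ hκ u
      rw [← h, Subgroup.mem_bot] at hκ
      rw [hκ, mul_one]
    · exact (ih h).cons

lemma II.congr_coset {P : List (Subgroup G)} {f g : G → ℤ} (u : G)
    (h : ∀ v ∈ jn P, f (u * v) = g (u * v)) (hf : LB P (TT u f)) : LB P (TT u g) :=
  hf.congr fun v hv => h v hv

lemma Inv.sub {B : Subgroup G} {f g : G → ℤ} (hf : Inv B f) (hg : Inv B g) :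
    Inv B (fun u => f u - g u) := fun κ hκ u => by beta_reduce; rw [hf κ hκ, hg κ hκ]

lemma Inv.add {B : Subgroup G} {f g : G → ℤ} (hf : Inv B f) (hg : Inv B g) :
    Inv B (fun u => f u + g u) := fun κ hκ u => by beta_reduce; rw [hf κ hκ, hg κ hκ]

/-- the transversal -/
lemma exists_trans (K H : Subgroup G) (h : K ⊓ H = ⊥) : ∃ s : G → G,
    (∀ κ ∈ K, ∀ u, s (u * κ) = s u) ∧ (∀ v ∈ H, ∀ u, s (u * v) = s u * v) ∧
      ∀ u, ∃ κ ∈ K, s u = u * κ := by
  classical
  set M := K ⊔ H with hM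
  set r : G → G := fun u => (QuotientGroup.mk u : G ⧸ M).out with hr
  have hr1 : ∀ u, (r u)⁻¹ * u ∈ M := by
    intro u
    rw [← QuotientGroup.eq]
    exact Quotient.out_eq' _
  have hr2 : ∀ u, ∀ v ∈ M, r (u * v) = r u := by
    intro u v hv
    simp only [hr]
    congr 1
    rw [QuotientGroup.eq, mul_inv_rev, mul_assoc, inv_mul_cancel, mul_one]
    exact M.inv_mem hv
  have hdec : ∀ u, ∃ p : G × G, p.1 ∈ K ∧ p.2 ∈ H ∧ p.1 * p.2 = (r u)⁻¹ * u := by
    intro u
    obtain ⟨κ, hκ, w, hw, hh⟩ := Subgroup.mem_sup.mp (hr1 u)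
    exact ⟨(κ, w), hκ, hw, hh⟩
  choose p hp1 hp2 hp3 using hdec
  have huniq : ∀ a ∈ K, ∀ b ∈ K, ∀ c ∈ H, ∀ d ∈ H, a * c = b * d → a = b ∧ c = d := by
    intro a ha b hb c hc d hd hh
    have h1 : b⁻¹ * a = d * c⁻¹ := by
      rw [inv_mul_eq_iff_eq_mul, ← mul_assoc, ← hh, mul_inv_cancel_right]
    have h2 : b⁻¹ * a ∈ K ⊓ H := ⟨K.mul_mem (K.inv_mem hb) ha, h1 ▸ H.mul_mem hd (H.inv_mem hc)⟩
    rw [h, Subgroup.mem_bot, inv_mul_eq_one] at h2
    refine ⟨h2.symm, ?_⟩
    rw [h2] at hh
    exact mul_left_cancel hh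
  refine ⟨fun u => r u * (p u).2, ?_, ?_, ?_⟩
  · intro κ hκ u
    have e1 : r (u * κ) = r u := hr2 u κ (Subgroup.mem_sup_left hκ)
    have e2 : (p (u * κ)).1 * (p (u * κ)).2 = ((p u).1 * κ) * (p u).2 := by
      rw [hp3, e1, mul_right_comm, hp3, mul_assoc]
    have e3 := (huniq _ (hp1 _) _ (K.mul_mem (hp1 u) hκ) _ (hp2 _) _ (hp2 _) e2).2
    simp only [e1, e3]
  · intro v hv u
    have e1 : r (u * v) = r u := hr2 u v (Subgroup.mem_sup_right hv)
    have e2 : (p (u * v)).1 * (p (u * v)).2 = (p u).1 * ((p u).2 * v) := by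
      rw [hp3, e1, ← mul_assoc (p u).1, hp3, mul_assoc]
    have e3 := (huniq _ (hp1 _) _ (hp1 u) _ (hp2 _) _ (H.mul_mem (hp2 _) hv) e2).2
    simp only [e1, e3, mul_assoc]
  · intro u
    refine ⟨((p u).1)⁻¹, K.inv_mem (hp1 u), ?_⟩
    have h1 := hp3 u
    have h2 : (p u).2 = ((p u).1)⁻¹ * ((r u)⁻¹ * u) := by rw [← h1, inv_mul_cancel_left]
    simp only [h2]
    rw [mul_left_comm, mul_inv_cancel_left, mul_comm]

/-- the remainder after the averaging over a transversal -/
lemma II_sub_trans {K B : Subgroup G} {P : List (Subgroup G)} {s : G → G}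
    (h2 : ∀ v ∈ B ⊔ jn P, ∀ u, s (u * v) = s u * v) (h3 : ∀ u, ∃ κ ∈ K, s u = u * κ)
    {f : G → ℤ} (hf : II (K :: P) f) : II P (fun u => f u - f (s u)) := by
  intro u
  obtain ⟨κ, hκ, hs⟩ := h3 u
  refine (II_cons.mp hf κ hκ u).congr fun v hv => ?_
  simp only [TT]
  rw [h2 v (Subgroup.mem_sup_right hv) u, hs, mul_right_comm]

/-- a sum of invariant functions -/
def Dec : List (Subgroup G) → (G → ℤ) → Prop
  | [], f => ∀ u, f u = 0
  | K :: P, f => ∃ α : G → ℤ, Inv K α ∧ Dec P (fun u => f u - α u)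

lemma dec_of_II {P : List (Subgroup G)} (hP : Ind P) : ∀ {f : G → ℤ}, II P f → Dec P f := by
  induction P with
  | nil => intro f hf; exact II_nil.mp hf
  | cons K P ih =>
    intro f hf
    obtain ⟨s, hs1, hs2, hs3⟩ := exists_trans K (⊥ ⊔ jn P) (by rw [bot_sup_eq]; exact hP.1)
    refine ⟨fun u => f (s u), fun κ hκ u => by beta_reduce; rw [hs1 κ hκ], ih hP.2 ?_⟩
    exact II_sub_trans hs2 hs3 hf

/-- stable half systems -/
lemma exists_half' [Finite G] (H : Subgroup G) {e : G} (he : e ∉ H) (he2 : e * e = 1) :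
    ∃ Ω : G → Prop, (∀ h ∈ H, ∀ u, Ω (u * h) ↔ Ω u) ∧ ∀ u, Ω (e * u) ↔ ¬ Ω u := by
  classical
  have := Fintype.ofFinite (G ⧸ H)
  have hne : ∀ u : G, (QuotientGroup.mk u : G ⧸ H) ≠ QuotientGroup.mk (e * u) := by
    intro u hu
    rw [QuotientGroup.eq, mul_comm e u, inv_mul_cancel_left] at hu
    exact he hu
  let φ : (G ⧸ H) ≃ Fin (Fintype.card (G ⧸ H)) := Fintype.equivFin _
  refine ⟨fun u => φ (QuotientGroup.mk u) < φ (QuotientGroup.mk (e * u)), ?_, ?_⟩
  · intro h hh u
    have h1 : (QuotientGroup.mk (u * h) : G ⧸ H) = QuotientGroup.mk u := by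
      rw [QuotientGroup.eq, mul_inv_rev, mul_assoc, inv_mul_cancel, mul_one]
      exact H.inv_mem hh
    have h2 : (QuotientGroup.mk (e * (u * h)) : G ⧸ H) = QuotientGroup.mk (e * u) := by
      rw [← mul_assoc, QuotientGroup.eq, mul_inv_rev, mul_assoc, inv_mul_cancel, mul_one]
      exact H.inv_mem hh
    beta_reduce
    rw [h1, h2]
  · intro u
    beta_reduce
    rw [← mul_assoc, he2, one_mul, not_lt]
    have h1 : φ (QuotientGroup.mk u) ≠ φ (QuotientGroup.mk (e * u)) :=
      fun h2 => hne u (φ.injective h2)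
    exact ⟨fun h2 => h2.le, fun h2 => lt_of_le_of_ne h2 (Ne.symm h1)⟩

/-- cocycles -/
def Cy (e : G) (ε : ℤ) (B : Subgroup G) (P : List (Subgroup G)) (x : G → ℤ) : Prop :=
  Inv B x ∧ II P (fun u => x u - ε * x (e * u))

/-- coboundaries -/
def Tr (e : G) (ε : ℤ) (B : Subgroup G) (P : List (Subgroup G)) (x : G → ℤ) : Prop :=
  ∃ i z : G → ℤ, II P i ∧ Inv B i ∧ Inv B z ∧ ∀ u, x u = i u + (z u + ε * z (e * u))

lemma Inv.twist {B : Subgroup G} {f : G → ℤ} (hf : Inv B f) (e : G) : Inv B (fun u => f (e * u)) :=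
  fun κ hκ u => by beta_reduce; rw [← mul_assoc, hf κ hκ]

lemma Cy.sub {e : G} {ε : ℤ} {B : Subgroup G} {P : List (Subgroup G)} {x y : G → ℤ}
    (hx : Cy e ε B P x) (hy : Cy e ε B P y) : Cy e ε B P (fun u => x u - y u) := by
  refine ⟨hx.1.sub hy.1, ?_⟩
  have := hx.2.sub hy.2
  have h : (fun u => x u - y u - ε * (x (e * u) - y (e * u))) =
      fun u => x u - ε * x (e * u) - (y u - ε * y (e * u)) := by
    funext u; ring
  rw [h]
  exact this

/-- the induced case -/
lemma tr_of_not_mem [Finite G] {e : G} {ε : ℤ} {B : Subgroup G} {P : List (Subgroup G)}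
    (he : e ∉ B ⊔ jn P) (he2 : e * e = 1) {x : G → ℤ} (hx : Cy e ε B P x) : Tr e ε B P x := by
  classical
  obtain ⟨Ω, h1, h2⟩ := exists_half' (B ⊔ jn P) he he2
  refine ⟨fun u => if Ω u then x u - ε * x (e * u) else 0, fun u => if Ω u then 0 else x u,
    ?_, ?_, ?_, ?_⟩
  · intro u
    by_cases hu : Ω u
    · refine (hx.2 u).congr fun v hv => ?_
      simp only [TT]
      rw [if_pos ((h1 v (Subgroup.mem_sup_right hv) u).mpr hu)]
    · refine (LB_zero P).congr fun v hv => ?_
      simp only [TT]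
      rw [if_neg (fun h => hu ((h1 v (Subgroup.mem_sup_right hv) u).mp h))]
  · intro κ hκ u
    have h3 := h1 κ (Subgroup.mem_sup_left hκ) u
    by_cases hu : Ω u
    · simp only [if_pos hu, if_pos (h3.mpr hu)]
      rw [hx.1 κ hκ, ← mul_assoc, hx.1 κ hκ]
    · simp only [if_neg hu, if_neg (fun h => hu (h3.mp h))]
  · intro κ hκ u
    have h3 := h1 κ (Subgroup.mem_sup_left hκ) u
    by_cases hu : Ω u
    · simp only [if_pos hu, if_pos (h3.mpr hu)]
    · simp only [if_neg hu, if_neg (fun h => hu (h3.mp h))]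
      rw [hx.1 κ hκ]
  · intro u
    by_cases hu : Ω u
    · have h3 : ¬ Ω (e * u) := fun h => (h2 u).mp h hu
      simp only [if_pos hu, if_neg h3]
      ring
    · have h3 : Ω (e * u) := (h2 u).mpr hu
      simp only [if_neg hu, if_pos h3]
      ring

/-- the connecting map -/
def al (e : G) (ε : ℤ) (s : G → G) (x : G → ℤ) : G → ℤ := fun u => x (s u) - ε * x (e * s u)

lemma al_sub (e : G) (ε : ℤ) (s : G → G) (x y : G → ℤ) :
    al e ε s (fun u => x u - y u) = fun u => al e ε s x u - al e ε s y u := by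
  funext u
  unfold al
  ring

/-- **The connecting step.** -/
theorem step [Finite G] {e : G} {ε : ℤ} {B K : Subgroup G} {P : List (Subgroup G)}
    (hK : K ⊓ (B ⊔ jn P) = ⊥) (he : e ∉ B ⊔ jn P) (he2 : e * e = 1) (hε : ε * ε = 1) :
    ∃ s : G → G, ∀ x, Cy e ε B (K :: P) x → Cy e (-ε) (B ⊔ K) P (al e ε s x) ∧
      (Tr e (-ε) (B ⊔ K) P (al e ε s x) → Tr e ε B (K :: P) x) := by
  obtain ⟨s, hs1, hs2, hs3⟩ := exists_trans K (B ⊔ jn P) hK
  refine ⟨s, fun x hx => ?_⟩
  set f : G → ℤ := fun u => x u - ε * x (e * u) with hf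
  have hα : al e ε s x = fun u => f (s u) := rfl
  have hfB : Inv B f := by
    intro κ hκ u
    simp only [hf]
    rw [hx.1 κ hκ, ← mul_assoc, hx.1 κ hκ]
  have hαK : Inv K (al e ε s x) := by
    intro κ hκ u
    rw [hα]
    simp only
    rw [hs1 κ hκ]
  have hαB : Inv B (al e ε s x) := by
    intro κ hκ u
    rw [hα]
    simp only
    rw [hs2 κ (Subgroup.mem_sup_left hκ), hfB κ hκ]
  have hβ : II P (fun u => f u - al e ε s x u) := II_sub_trans hs2 hs3 hx.2
  have hα2 : Inv (B ⊔ K) (al e ε s x) := by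
    intro κ hκ u
    obtain ⟨b, hb, k, hk, rfl⟩ := Subgroup.mem_sup.mp hκ
    rw [← mul_assoc, hαK k hk, hαB b hb]
  refine ⟨⟨hα2, ?_⟩, ?_⟩
  · -- the image is a cocycle
    have h1 : II P (fun u => (f u - al e ε s x u) + ε * (f (e * u) - al e ε s x (e * u))) := by
      have h2 := hβ.trans e
      have h3 : II P (fun u => ε * (f (u * e) - al e ε s x (u * e))) := by
        rcases mul_self_eq_one_iff.mp hε with h4 | h4
        · have h5 : (fun u => ε * (f (u * e) - al e ε s x (u * e))) =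
              fun u => f (u * e) - al e ε s x (u * e) := by
            funext u
            nth_rewrite 1 [h4]
            ring
          rw [h5]; exact h2
        · have h5 : (fun u => ε * (f (u * e) - al e ε s x (u * e))) =
              fun u => - (f (u * e) - al e ε s x (u * e)) := by
            funext u
            nth_rewrite 1 [h4]
            ring
          rw [h5]; exact h2.neg
      have h5 := hβ.add h3
      refine fun u => (h5 u).congr fun v _ => ?_
      simp only [TT]
      rw [mul_comm e (u * v)]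
    have h6 := h1.neg
    refine fun u => (h6 u).congr fun v _ => ?_
    simp only [TT, hf]
    have h7 : e * (e * (u * v)) = u * v := by rw [← mul_assoc, he2, one_mul]
    rw [h7]
    linear_combination (x (u * v)) * hε
  · rintro ⟨δ, γ, hδ1, hδ2, hγ, hh⟩
    -- subtract `γ`
    have hγB : Inv B γ := fun κ hκ u => hγ κ (Subgroup.mem_sup_left hκ) u
    have hγK : Inv K γ := fun κ hκ u => hγ κ (Subgroup.mem_sup_right hκ) u
    have h1 : Cy e ε B P (fun u => x u - γ u) := by
      refine ⟨hx.1.sub hγB, ?_⟩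
      have h2 := hβ.add hδ1
      refine fun u => (h2 u).congr fun v _ => ?_
      simp only [TT]
      have h3 := hh (u * v)
      simp only [hf]
      rw [h3]
      ring
    obtain ⟨i, z, hi1, hi2, hz, hh2⟩ := tr_of_not_mem he he2 h1
    refine ⟨fun u => i u + γ u, z, ?_, hi2.add hγB, hz, ?_⟩
    · exact hi1.cons.add (II_of_inv hγK)
    · intro u
      have := hh2 u
      simp only at this
      linear_combination this

/-- at most two classes -/
def Two (e : G) (ε : ℤ) (B : Subgroup G) (P : List (Subgroup G)) : Prop :=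
  ∀ x y, Cy e ε B P x → Cy e ε B P y → Tr e ε B P x ∨ Tr e ε B P y ∨ Tr e ε B P (fun u => x u - y u)

/-- at most one class -/
def One (e : G) (ε : ℤ) (B : Subgroup G) (P : List (Subgroup G)) : Prop :=
  ∀ x, Cy e ε B P x → Tr e ε B P x

/-- the chain condition -/
def Ch (e : G) : Subgroup G → List (Subgroup G) → Prop
  | B, [] => B = ⊤
  | B, K :: P => K ⊓ (B ⊔ jn P) = ⊥ ∧ e ∉ B ⊔ jn P ∧ Ch e (B ⊔ K) P

theorem chain [Finite G] {e : G} (he2 : e * e = 1) (P : List (Subgroup G)) :
    ∀ (B : Subgroup G) (ε : ℤ), ε * ε = 1 → Ch e B P →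
      Two e ε B P ∧ ((-1) ^ P.length * ε = -1 → One e ε B P) := by
  induction P with
  | nil =>
    intro B ε hε hB
    have hB' : B = ⊤ := hB
    have hconst : ∀ x : G → ℤ, Inv B x → ∀ u, x u = x 1 := by
      intro x hx u
      have := hx u (by rw [hB']; exact Subgroup.mem_top u) 1
      rwa [one_mul] at this
    have htr : ∀ x : G → ℤ, Inv B x → Even (x 1) → ε = 1 → Tr e ε B [] x := by
      intro x hx hev h1
      obtain ⟨k, hk⟩ := hev
      refine ⟨fun _ => 0, fun _ => k, II.zero _, fun _ _ _ => rfl, fun _ _ _ => rfl, fun u => ?_⟩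
      rw [hconst x hx u, hk, h1]
      ring
    have htr' : ∀ x : G → ℤ, Cy e ε B [] x → ε = -1 → Tr e ε B [] x := by
      intro x hx h1
      have h2 := II_nil.mp hx.2 1
      beta_reduce at h2
      rw [h1, hconst x hx.1 (e * 1)] at h2
      have h3 : x 1 = 0 := by linarith
      refine ⟨fun _ => 0, fun _ => 0, II.zero _, fun _ _ _ => rfl, fun _ _ _ => rfl, fun u => ?_⟩
      rw [hconst x hx.1 u, h3]
      ring
    constructor
    · intro x y hx hy
      rcases mul_self_eq_one_iff.mp hε with h1 | h1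
      · by_cases hx1 : Even (x 1)
        · exact Or.inl (htr x hx.1 hx1 h1)
        · by_cases hy1 : Even (y 1)
          · exact Or.inr (Or.inl (htr y hy.1 hy1 h1))
          · refine Or.inr (Or.inr (htr _ (hx.1.sub hy.1) ?_ h1))
            rw [Int.not_even_iff_odd] at hx1 hy1
            exact hx1.sub_odd hy1
      · exact Or.inl (htr' x hx h1)
    · intro h x hx
      exact htr' x hx (by simpa using h)
  | cons K P ih =>
    intro B ε hε hC
    obtain ⟨hK, he, hC'⟩ := hC
    obtain ⟨h1, h2⟩ := ih (B ⊔ K) (-ε) (by rw [neg_mul_neg, hε]) hC'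
    obtain ⟨s, hs⟩ := step hK he he2 hε
    constructor
    · intro x y hx hy
      rcases h1 _ _ (hs x hx).1 (hs y hy).1 with h | h | h
      · exact Or.inl ((hs x hx).2 h)
      · exact Or.inr (Or.inl ((hs y hy).2 h))
      · refine Or.inr (Or.inr ((hs _ (hx.sub hy)).2 ?_))
        rw [al_sub]
        exact h
    · intro h x hx
      refine (hs x hx).2 (h2 ?_ _ (hs x hx).1)
      have h3 : (-1 : ℤ) ^ (K :: P).length = (-1) ^ P.length * (-1) := by
        rw [List.length_cons, pow_succ]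
      rw [h3] at h
      linear_combination h

end Pool.Agent.Q59.RL
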