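import Pool.Agent.Q59.RL.Words

/-!
# The relative law
-/

namespace Pool.Agent.Q59.RL

open Finset Filter Topology

variable {Γ : Type*} [AddCommGroup Γ] {Q : Type*} [AddCommGroup Q] {ι : Type*} [Fintype ι]
  [Nonempty ι]

omit [Fintype ι] [Nonempty ι] in
lemma df_map {Γ' : Type*} [AddCommGroup Γ'] (f : Γ →+ Γ') (c : ι → Γ) {k : ℕ}
    (p : (Fin k → ι) × (Fin k → ι)) : f (df c p) = df (fun i => f (c i)) p := by
  unfold df
  rw [map_sub, map_sum, map_sum]

/-- **The relative law.** -/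
theorem rel_law (c : ι → Γ) (R : AddSubgroup Γ) (π : Γ →+ Q) (T : AddSubgroup Q) {s₀ : ℕ}
    (hT : Nat.card T = 2 ^ s₀) : ∃ s ≤ s₀,
      (∀ k : ℕ, Nat.card {p : (Fin k → ι) × (Fin k → ι) // df c p ∈ R ∧ π (df c p) ∈ T} ≤
        2 ^ s * Nat.card {p : (Fin k → ι) × (Fin k → ι) // df c p ∈ R ∧ π (df c p) = 0}) ∧
      Tendsto (fun k : ℕ =>
        (Nat.card {p : (Fin k → ι) × (Fin k → ι) // df c p ∈ R ∧ π (df c p) = 0} : ℝ) /
        Nat.card {p : (Fin k → ι) × (Fin k → ι) // df c p ∈ R ∧ π (df c p) ∈ T}) atTop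
        (𝓝 (1 / 2 ^ s)) ∧
      (s = 0 ↔ ∀ (k : ℕ) (p : (Fin k → ι) × (Fin k → ι)), df c p ∈ R → π (df c p) ∈ T →
        π (df c p) = 0) := by
  have hTfin : Finite T := Nat.finite_of_card_ne_zero (by rw [hT]; positivity)
  set A' : AddSubgroup Γ := R ⊓ π.ker with hA'
  set T' : AddSubgroup Γ := R ⊓ T.comap π with hT'
  have hAT : A' ≤ T' := by
    rintro x ⟨h1, h2⟩
    refine ⟨h1, ?_⟩
    change π x ∈ T
    rw [AddMonoidHom.mem_ker.mp h2]
    exact T.zero_mem
  set π' : (Γ ⧸ A') →+ Q := QuotientAddGroup.lift A' π (fun x hx => hx.2) with hπ'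
  have hπmk : ∀ x : Γ, π' (QuotientAddGroup.mk x) = π x := fun x => rfl
  set mk : Γ →+ (Γ ⧸ A') := QuotientAddGroup.mk' A' with hmk
  set T'' : AddSubgroup (Γ ⧸ A') := T'.map mk with hT''
  have hmemT : ∀ x : Γ, mk x ∈ T'' ↔ x ∈ T' := by
    intro x
    constructor
    · rintro ⟨y, hy, hyx⟩
      have h1 : -y + x ∈ A' := QuotientAddGroup.eq.mp hyx
      have h2 := T'.add_mem hy (hAT h1)
      rwa [add_neg_cancel_left] at h2
    · intro hx
      exact ⟨x, hx, rfl⟩
  have hmem0 : ∀ x : Γ, mk x = 0 ↔ x ∈ A' := fun x => QuotientAddGroup.eq_zero_iff x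
  have hmaps : ∀ x : T'', π' x ∈ T := by
    rintro ⟨_, x, hx, rfl⟩
    exact hx.2
  set f : T'' →+ T := (π'.comp T''.subtype).codRestrict T hmaps with hf
  have hinj : Function.Injective f := by
    rw [injective_iff_map_eq_zero]
    rintro ⟨_, x, hx, rfl⟩ h
    have h1 : π x = 0 := congrArg (fun z : T => (z : Q)) h
    apply Subtype.ext
    exact (hmem0 x).mpr ⟨hx.1, h1⟩
  have hfin : Finite T'' := Finite.of_injective f hinj
  have hdvd : Nat.card T'' ∣ 2 ^ s₀ := hT ▸ AddSubgroup.card_dvd_of_injective f hinj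
  have hdvd2 : Nat.card (T'' ⊓ CC (fun i => mk (c i)) : AddSubgroup (Γ ⧸ A')) ∣ 2 ^ s₀ :=
    (AddSubgroup.card_dvd_of_le inf_le_left).trans hdvd
  obtain ⟨s, hs, hs'⟩ := (Nat.dvd_prime_pow Nat.prime_two).mp hdvd2
  have e1 : ∀ k, Nat.card {p : (Fin k → ι) × (Fin k → ι) // df c p ∈ R ∧ π (df c p) ∈ T} =
      Nat.card {p : (Fin k → ι) × (Fin k → ι) // df (fun i => mk (c i)) p ∈ T''} := fun k =>
    Nat.card_congr (Equiv.subtypeEquivRight fun p => by
      rw [← df_map, hmemT]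
      exact Iff.rfl)
  have e2 : ∀ k, Nat.card {p : (Fin k → ι) × (Fin k → ι) // df c p ∈ R ∧ π (df c p) = 0} =
      Nat.card {p : (Fin k → ι) × (Fin k → ι) // df (fun i => mk (c i)) p = 0} := fun k =>
    Nat.card_congr (Equiv.subtypeEquivRight fun p => by
      rw [← df_map, hmem0]
      exact Iff.rfl)
  refine ⟨s, hs, fun k => ?_, ?_, ?_⟩
  · rw [e1, e2, ← hs']
    exact pairs_le T'' k
  · simp only [e1, e2]
    have h := pairs_ratio (c := fun i => mk (c i)) T''
    rw [hs'] at h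
    push_cast at h
    exact h
  · have h1 : s = 0 ↔ T'' ⊓ CC (fun i => mk (c i)) = ⊥ := by
      rw [← AddSubgroup.card_eq_one, hs']
      constructor
      · rintro rfl; exact pow_zero 2
      · intro h
        rcases Nat.eq_zero_or_pos s with h2 | h2
        · exact h2
        · have := Nat.one_lt_two_pow h2.ne'
          omega
    rw [h1, pairs_all]
    refine forall_congr' fun k => forall_congr' fun p => ?_
    rw [← df_map, hmemT, hmem0]
    constructor
    · intro h h2 h3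
      exact (h ⟨h2, h3⟩).2
    · intro h h2
      exact ⟨h2.1, h h2.1 h2.2⟩

end Pool.Agent.Q59.RL
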