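import Pool.Agent.Q59.RL.Hodge
import Pool.Agent.Q59.RL.RelLaw

/-!
# The lines of the cohomology of products of diagonal hypersurfaces fixed by the Galois group
-/

set_option linter.unusedSectionVars false

namespace Pool.Agent.Q59.RL

open Finset Filter Topology NumberField Pool.Agent.H916R2 Pool.Agent.Q59.FS

variable {K : Type} [Field K] [NumberField K]

/-- the `m`-th power residue symbol of a residue field -/
structure IsSymbol (m : ℕ) (σ : K →+* ℂ) {F : Type} [Field F] [Fintype F] (φ : 𝓞 K →+* F)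
    (χ : MulChar F ℂ) : Prop where
  order : orderOf χ = m
  residue : ∀ x : 𝓞 K, φ x ≠ 0 → ∃ ζ : 𝓞 K, ζ ^ m = 1 ∧
    φ ζ = φ x ^ ((Fintype.card F - 1) / m) ∧ χ (φ x) = σ (ζ : K)

/-- lines fixed by the Galois group -/
def Fixed (m : ℕ) (σ : K →+* ℂ) (s : Multiset (ZMod m × 𝓞 K)) : Prop :=
  ∃ N : ℕ, ∀ (F : Type) [Field F] [Fintype F] (φ : 𝓞 K →+* F), Function.Surjective φ →
    N < Fintype.card F → ∀ (χ : MulChar F ℂ) (ψ : AddChar F ℂ), IsSymbol m σ φ χ → ψ ≠ 1 →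
      (s.map fun z => gaussSum (χ ^ z.1.val) ψ).prod =
        (Fintype.card F : ℂ) ^ (Multiset.card s / 2) *
          (s.map fun z => (χ ^ z.1.val) (φ z.2)).prod

/-- the data -/
structure Datum (m : ℕ) (σ : K →+* ℂ) where
  F : Type
  [fld : Field F]
  [fin : Fintype F]
  φ : 𝓞 K →+* F
  surj : Function.Surjective φ
  χ : MulChar F ℂ
  sym : IsSymbol m σ φ χ
  ψ : AddChar F ℂ
  hψ : ψ ≠ 1

attribute [instance] Datum.fld Datum.fin

lemma fixed_iff {m : ℕ} {σ : K →+* ℂ} {s : Multiset (ZMod m × 𝓞 K)} : Fixed m σ s ↔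
    ∃ N : ℕ, ∀ D : Datum m σ, N < Fintype.card D.F →
      (s.map fun z => gaussSum (D.χ ^ z.1.val) D.ψ).prod =
        (Fintype.card D.F : ℂ) ^ (Multiset.card s / 2) *
          (s.map fun z => (D.χ ^ z.1.val) (D.φ z.2)).prod := by
  constructor
  · rintro ⟨N, hN⟩
    exact ⟨N, fun D hD => hN D.F D.φ D.surj hD D.χ D.ψ D.sym D.hψ⟩
  · rintro ⟨N, hN⟩
    exact ⟨N, fun F _ _ φ h1 h2 χ ψ h3 h4 => hN ⟨F, φ, h1, χ, h3, ψ, h4⟩ h2⟩

/-- nonzero integers are nonzero in large residue fields -/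
lemma exists_bound {c : 𝓞 K} (hc : c ≠ 0) : ∃ N : ℕ, ∀ (F : Type) [Field F] [Fintype F]
    (φ : 𝓞 K →+* F), Function.Surjective φ → N < Fintype.card F → φ c ≠ 0 := by
  refine ⟨Ideal.absNorm (Ideal.span {c}), fun F _ _ φ hφ hN h => ?_⟩
  have h1 : Ideal.span {c} ≤ RingHom.ker φ := by
    rw [Ideal.span_singleton_le_iff_mem]
    exact h
  have h2 := Ideal.absNorm_dvd_absNorm_of_le h1
  have h3 : Ideal.absNorm (RingHom.ker φ) = Fintype.card F := by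
    rw [Ideal.absNorm_apply, Submodule.cardQuot_apply, ← Nat.card_eq_fintype_card]
    exact Nat.card_congr (RingHom.quotientKerEquivOfSurjective hφ).toEquiv
  rw [h3] at h2
  have h4 : 0 < Ideal.absNorm (Ideal.span {c}) := by
    apply Nat.pos_of_ne_zero
    rw [Ne, Ideal.absNorm_eq_zero_iff, Ideal.span_singleton_eq_bot]
    exact hc
  have := Nat.le_of_dvd h4 h2
  omega

section Gauss

variable {m : ℕ} [NeZero m] {F : Type} [Field F] [Fintype F] {χ : MulChar F ℂ} {ψ : AddChar F ℂ}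

lemma pw_add (h : orderOf χ = m) (a b : ZMod m) :
    χ ^ (a + b).val = χ ^ a.val * χ ^ b.val := by
  rw [ZMod.val_add, ← pow_add]
  conv_rhs => rw [← pow_mod_orderOf, h]

lemma pw_neg (h : orderOf χ = m) (a : ZMod m) : χ ^ (-a).val = (χ ^ a.val)⁻¹ := by
  have h1 := pw_add h (-a) a
  rw [neg_add_cancel, ZMod.val_zero, pow_zero] at h1
  exact eq_inv_of_mul_eq_one_left h1.symm

lemma pw_ne_one (h : orderOf χ = m) {a : ZMod m} (ha : a ≠ 0) : χ ^ a.val ≠ 1 := by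
  intro h1
  have h2 := orderOf_dvd_of_pow_eq_one h1
  rw [h] at h2
  have h3 := Nat.eq_zero_of_dvd_of_lt h2 (ZMod.val_lt a)
  exact ha ((ZMod.val_eq_zero a).mp h3)

lemma isPrim (hψ : ψ ≠ 1) : ψ.IsPrimitive := AddChar.IsPrimitive.of_ne_one hψ

lemma gauss_pair {η : MulChar F ℂ} (hη : η ≠ 1) (hψ : ψ ≠ 1) :
    gaussSum η⁻¹ ψ * gaussSum η ψ = η (-1) * Fintype.card F := by
  rw [← mul_gaussSum_inv_eq_gaussSum η⁻¹, mul_comm, mul_left_comm,
    gaussSum_mul_gaussSum_eq_card hη (isPrim hψ), MulChar.inv_apply', inv_neg_one]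

lemma gauss_ne {η : MulChar F ℂ} (hη : η ≠ 1) (hψ : ψ ≠ 1) : gaussSum η ψ ≠ 0 :=
  gaussSum_ne_zero_of_nontrivial (by exact_mod_cast Fintype.card_ne_zero) hη (isPrim hψ)

/-- the quotient of the Gauss sum by the value of the character -/
noncomputable def bet (χ : MulChar F ℂ) (ψ : AddChar F ℂ) (φ : 𝓞 K →+* F) (z : ZMod m × 𝓞 K) : ℂ :=
  gaussSum (χ ^ z.1.val) ψ / (χ ^ z.1.val) (φ z.2)

/-- negation of a character of a diagonal hypersurface -/
def ng (z : ZMod m × 𝓞 K) : ZMod m × 𝓞 K := (-z.1, z.2)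

lemma mulChar_ne_zero (η : MulChar F ℂ) {x : F} (hx : x ≠ 0) : η x ≠ 0 :=
  ((isUnit_iff_ne_zero.mpr hx).map η).ne_zero

lemma bet_ne (h : orderOf χ = m) (hψ : ψ ≠ 1) {φ : 𝓞 K →+* F} {z : ZMod m × 𝓞 K}
    (hz : z.1 ≠ 0) (hc : φ z.2 ≠ 0) : bet χ ψ φ z ≠ 0 :=
  div_ne_zero (gauss_ne (pw_ne_one h hz) hψ) (mulChar_ne_zero _ hc)

lemma bet_ng (h : orderOf χ = m) (hψ : ψ ≠ 1) {φ : 𝓞 K →+* F} {z : ZMod m × 𝓞 K}
    (hz : z.1 ≠ 0) (hc : φ z.2 ≠ 0) :
    bet χ ψ φ (ng z) * bet χ ψ φ z = (χ ^ z.1.val) (-1) * Fintype.card F := by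
  unfold bet ng
  simp only
  rw [pw_neg h, div_mul_div_comm, gauss_pair (pw_ne_one h hz) hψ]
  have h1 : (χ ^ z.1.val)⁻¹ (φ z.2) * (χ ^ z.1.val) (φ z.2) = 1 := by
    rw [← MulChar.mul_apply, inv_mul_cancel]
    exact MulChar.one_apply (isUnit_iff_ne_zero.mpr hc)
  rw [h1, div_one]

/-- the product over a multiset -/
noncomputable def BB (χ : MulChar F ℂ) (ψ : AddChar F ℂ) (φ : 𝓞 K →+* F)
    (s : Multiset (ZMod m × 𝓞 K)) : ℂ := (s.map (bet χ ψ φ)).prod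

omit [NeZero m] in
lemma BB_add {φ : 𝓞 K →+* F} (s t : Multiset (ZMod m × 𝓞 K)) :
    BB χ ψ φ (s + t) = BB χ ψ φ s * BB χ ψ φ t := by
  unfold BB
  rw [Multiset.map_add, Multiset.prod_add]

omit [NeZero m] in
lemma BB_zero {φ : 𝓞 K →+* F} : BB χ ψ φ (0 : Multiset (ZMod m × 𝓞 K)) = 1 := by
  simp [BB]

omit [NeZero m] in
lemma BB_sum {φ : 𝓞 K →+* F} {κ : Type*} (S : Finset κ) (L : κ → Multiset (ZMod m × 𝓞 K)) :
    BB χ ψ φ (∑ i ∈ S, L i) = ∏ i ∈ S, BB χ ψ φ (L i) := by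
  classical
  induction S using Finset.induction_on with
  | empty => simp [BB_zero]
  | insert a S ha ih => rw [sum_insert ha, prod_insert ha, BB_add, ih]

lemma BB_ne (h : orderOf χ = m) (hψ : ψ ≠ 1) {φ : 𝓞 K →+* F} {s : Multiset (ZMod m × 𝓞 K)}
    (hs : ∀ z ∈ s, z.1 ≠ 0) (hc : ∀ z ∈ s, φ z.2 ≠ 0) : BB χ ψ φ s ≠ 0 := by
  unfold BB
  rw [Ne, Multiset.prod_eq_zero_iff]
  intro h1
  obtain ⟨z, hz, h2⟩ := Multiset.mem_map.mp h1
  exact bet_ne h hψ (hs z hz) (hc z hz) h2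

lemma BB_ng (h : orderOf χ = m) (hψ : ψ ≠ 1) {φ : 𝓞 K →+* F} {s : Multiset (ZMod m × 𝓞 K)}
    (hs : ∀ z ∈ s, z.1 ≠ 0) (hc : ∀ z ∈ s, φ z.2 ≠ 0) :
    BB χ ψ φ (s.map ng) * BB χ ψ φ s =
      (χ ^ (s.map Prod.fst).sum.val) (-1) * (Fintype.card F : ℂ) ^ Multiset.card s := by
  induction s using Multiset.induction_on with
  | empty =>
    simp only [Multiset.map_zero, BB_zero, Multiset.sum_zero, Multiset.card_zero, pow_zero, mul_one,
      ZMod.val_zero]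
    rw [MulChar.one_apply (isUnit_iff_ne_zero.mpr (neg_ne_zero.mpr one_ne_zero))]
  | cons z s ih =>
    have ih' := ih (fun z hz => hs z (Multiset.mem_cons_of_mem hz))
      (fun z hz => hc z (Multiset.mem_cons_of_mem hz))
    have h1 := bet_ng h hψ (hs z (Multiset.mem_cons_self z s)) (hc z (Multiset.mem_cons_self z s))
    have e1 : BB χ ψ φ ((z ::ₘ s).map ng) = bet χ ψ φ (ng z) * BB χ ψ φ (s.map ng) := by
      unfold BB
      rw [Multiset.map_cons, Multiset.map_cons, Multiset.prod_cons]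
    have e2 : BB χ ψ φ (z ::ₘ s) = bet χ ψ φ z * BB χ ψ φ s := by
      unfold BB
      rw [Multiset.map_cons, Multiset.prod_cons]
    rw [e1, e2, Multiset.map_cons, Multiset.sum_cons, pw_add h, MulChar.mul_apply,
      Multiset.card_cons, pow_succ]
    linear_combination (BB χ ψ φ (s.map ng) * BB χ ψ φ s) * h1 +
      (χ ^ z.1.val) (-1) * (Fintype.card F : ℂ) * ih'

omit [NeZero m] in
/-- the fixed lines in terms of the quotients -/
lemma prod_iff {φ : 𝓞 K →+* F} {s : Multiset (ZMod m × 𝓞 K)} (hc : ∀ z ∈ s, φ z.2 ≠ 0) :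
    (s.map fun z => gaussSum (χ ^ z.1.val) ψ).prod =
        (Fintype.card F : ℂ) ^ (Multiset.card s / 2) *
          (s.map fun z => (χ ^ z.1.val) (φ z.2)).prod ↔
      BB χ ψ φ s = (Fintype.card F : ℂ) ^ (Multiset.card s / 2) := by
  have h1 : (s.map fun z => (χ ^ z.1.val) (φ z.2)).prod ≠ 0 := by
    rw [Ne, Multiset.prod_eq_zero_iff]
    intro h
    obtain ⟨z, hz, h2⟩ := Multiset.mem_map.mp h
    exact mulChar_ne_zero _ (hc z hz) h2
  have h2 : BB χ ψ φ s = (s.map fun z => gaussSum (χ ^ z.1.val) ψ).prod /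
      (s.map fun z => (χ ^ z.1.val) (φ z.2)).prod := by
    unfold BB
    rw [← Multiset.prod_map_div]
    rfl
  rw [h2, div_eq_iff h1]

end Gauss

end Pool.Agent.Q59.RL
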