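import Mathlib

/-!
# Ratio limits on commutative groups

`P c k z` is the number of words of length `k` in the letters with `c`-sum `z`, and `PP c k z` is the
number of pairs of words of length `k` for which the difference of the `c`-sums is `z`. The function
`PP c k` is maximal at zero, and `PP c k z / PP c k 0` tends to `1` for every `z` in the group generated
by the differences `c i - c j`.
-/

namespace Pool.Agent.Q59.RL

open Finset Function Filter Topology

set_option linter.unusedSectionVars false

variable {Q : Type*} [AddCommGroup Q] {ι : Type*} [Fintype ι]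

open scoped Classical in
/-- number of words -/
noncomputable def P (c : ι → Q) : ℕ → Q → ℝ
  | 0, z => if z = 0 then 1 else 0
  | k + 1, z => ∑ i, P c k (z - c i)

/-- number of pairs of words -/
noncomputable def PP (c : ι → Q) (k : ℕ) (z : Q) : ℝ := ∑' y, P c k y * P c k (y - z)

variable {c : ι → Q}

lemma P_zero (z : Q) [Decidable (z = 0)] : P c 0 z = if z = 0 then 1 else 0 := by
  unfold P; congr

lemma P_succ (k : ℕ) (z : Q) : P c (k + 1) z = ∑ i, P c k (z - c i) := rfl

lemma P_nonneg (k : ℕ) : ∀ z : Q, 0 ≤ P c k z := by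
  induction k with
  | zero => intro z; unfold P; split_ifs <;> norm_num
  | succ k ih => intro z; rw [P_succ]; exact sum_nonneg fun i _ => ih _

lemma PP_nonneg (k : ℕ) (z : Q) : 0 ≤ PP c k z :=
  tsum_nonneg fun y => mul_nonneg (P_nonneg _ _) (P_nonneg _ _)

/-- finite support -/
def FS (f : Q → ℝ) : Prop := (support f).Finite

lemma FS.summable {f : Q → ℝ} (h : FS f) : Summable f := summable_of_hasFiniteSupport h

lemma FS.mul {f : Q → ℝ} (h : FS f) (g : Q → ℝ) : FS (fun y => f y * g y) :=
  h.subset (support_mul_subset_left f g)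

lemma FS.mul' {f : Q → ℝ} (h : FS f) (g : Q → ℝ) : FS (fun y => g y * f y) :=
  h.subset (support_mul_subset_right g f)

lemma FS.add {f g : Q → ℝ} (hf : FS f) (hg : FS g) : FS (fun y => f y + g y) :=
  (hf.union hg).subset (support_add f g)

lemma FS.sub {f g : Q → ℝ} (hf : FS f) (hg : FS g) : FS (fun y => f y - g y) :=
  (hf.union hg).subset (support_sub f g)

lemma FS.sum {κ : Type*} {s : Finset κ} {f : κ → Q → ℝ} (hf : ∀ i ∈ s, FS (f i)) :
    FS (fun y => ∑ i ∈ s, f i y) := by
  classical
  induction s using Finset.induction_on with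
  | empty => unfold FS; simp
  | insert a s ha ih =>
    simp only [sum_insert ha]
    exact (hf a (mem_insert_self _ _)).add (ih fun i hi => hf i (mem_insert_of_mem hi))

lemma FS.comp_sub {f : Q → ℝ} (hf : FS f) (z : Q) : FS (fun y => f (y - z)) := by
  have : support (fun y => f (y - z)) = (fun y => y - z) ⁻¹' support f := rfl
  unfold FS
  rw [this]
  exact hf.preimage (sub_left_injective.injOn)

lemma FS.comp_add {f : Q → ℝ} (hf : FS f) (z : Q) : FS (fun y => f (y + z)) := by
  have := hf.comp_sub (-z)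
  simpa only [sub_neg_eq_add] using this

lemma P_FS (k : ℕ) : FS (P c k) := by
  classical
  induction k with
  | zero =>
    refine (Set.finite_singleton (0 : Q)).subset ?_
    intro z hz
    by_contra h
    apply hz
    rw [P_zero, if_neg fun h0 => h (Set.mem_singleton_iff.mpr h0)]
  | succ k ih =>
    have : P c (k + 1) = fun z => ∑ i ∈ univ, P c k (z - c i) := rfl
    rw [this]
    exact FS.sum fun i _ => ih.comp_sub _

lemma tsum_shift (f : Q → ℝ) (z : Q) : ∑' y, f (y - z) = ∑' y, f y :=
  (Equiv.subRight z).tsum_eq f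

lemma tsum_shift' (f : Q → ℝ) (z : Q) : ∑' y, f (y + z) = ∑' y, f y :=
  (Equiv.addRight z).tsum_eq f

/-- total mass -/
lemma P_mass (k : ℕ) : ∑' y, P c k y = (Fintype.card ι : ℝ) ^ k := by
  classical
  induction k with
  | zero =>
    rw [pow_zero]
    simp only [P_zero]
    rw [tsum_ite_eq]
  | succ k ih =>
    simp only [P_succ]
    rw [Summable.tsum_finsetSum fun i _ => ((P_FS k).comp_sub (c i)).summable]
    simp only [tsum_shift, ih]
    rw [sum_const, card_univ, nsmul_eq_mul, pow_succ]
    ring

lemma PP_zero (k : ℕ) : PP c k 0 = ∑' y, P c k y * P c k y := by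
  unfold PP
  exact tsum_congr fun y => by rw [sub_zero]

lemma PP_neg (k : ℕ) (z : Q) : PP c k (-z) = PP c k z := by
  unfold PP
  rw [← tsum_shift (fun y => P c k y * P c k (y - -z)) z]
  refine tsum_congr fun y => ?_
  rw [sub_neg_eq_add, sub_add_cancel, mul_comm]

/-- correlation of translates -/
lemma corr (k : ℕ) (a b : Q) : ∑' y, P c k (y + a) * P c k (y + b) = PP c k (a - b) := by
  unfold PP
  rw [← tsum_shift' (fun y => P c k y * P c k (y - (a - b))) a]
  refine tsum_congr fun y => ?_
  congr 2
  abel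

/-- the recursion -/
lemma PP_succ (k : ℕ) (z : Q) : PP c (k + 1) z = ∑ i, ∑ j, PP c k (z - c i + c j) := by
  have h1 : ∀ y, P c (k + 1) y * P c (k + 1) (y - z) =
      ∑ i, ∑ j, P c k (y - c i) * P c k (y - z - c j) := by
    intro y
    rw [P_succ, P_succ, sum_mul_sum]
  unfold PP
  rw [tsum_congr h1, Summable.tsum_finsetSum]
  · refine sum_congr rfl fun i _ => ?_
    rw [Summable.tsum_finsetSum]
    · refine sum_congr rfl fun j _ => ?_
      rw [← tsum_shift (fun y => P c k y * P c k (y - (z - c i + c j))) (c i)]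
      refine tsum_congr fun y => ?_
      congr 2
      abel
    · intro j _
      exact (((P_FS k).comp_sub (c i)).mul _).summable
  · intro i _
    exact (FS.sum fun j _ => ((P_FS k).comp_sub (c i)).mul _).summable

/-- the defect as a sum of squares -/
lemma defect (k : ℕ) (z : Q) :
    ∑' y, (P c k y - P c k (y - z)) ^ 2 = 2 * (PP c k 0 - PP c k z) := by
  have h1 : ∀ y, (P c k y - P c k (y - z)) ^ 2 =
      P c k y * P c k y + P c k (y - z) * P c k (y - z) - 2 * (P c k y * P c k (y - z)) := by
    intro y; ring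
  have s1 : Summable fun y => P c k y * P c k y := ((P_FS k).mul _).summable
  have s2 : Summable fun y => P c k (y - z) * P c k (y - z) :=
    (((P_FS k).comp_sub z).mul _).summable
  have s3 : Summable fun y => 2 * (P c k y * P c k (y - z)) :=
    (((P_FS k).mul fun y => P c k (y - z)).summable).mul_left 2
  have h2 : ∑' y, P c k (y - z) * P c k (y - z) = PP c k 0 := by
    rw [PP_zero]
    exact tsum_shift (fun y => P c k y * P c k y) z
  have h3 : ∑' y, P c k y * P c k (y - z) = PP c k z := rfl
  rw [tsum_congr h1, Summable.tsum_sub (s1.add s2) s3, Summable.tsum_add s1 s2, ← PP_zero, h2,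
    tsum_mul_left, h3]
  ring

/-- **The maximum is at zero.** -/
lemma PP_le_zero (k : ℕ) (z : Q) : PP c k z ≤ PP c k 0 := by
  have h := defect (c := c) k z
  have h1 : 0 ≤ ∑' y, (P c k y - P c k (y - z)) ^ 2 := tsum_nonneg fun y => sq_nonneg _
  linarith

/-- subadditivity of the square root of the defect -/
lemma defect_add (k : ℕ) (z w : Q) :
    PP c k 0 - PP c k (z + w) ≤ 2 * (PP c k 0 - PP c k z) + 2 * (PP c k 0 - PP c k w) := by
  have h1 := defect (c := c) k z
  have h2 := defect (c := c) k w
  have h3 := defect (c := c) k (z + w)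
  have e2 : ∑' y, (P c k (y - z) - P c k (y - z - w)) ^ 2 =
      ∑' y, (P c k y - P c k (y - w)) ^ 2 := tsum_shift (fun y => (P c k y - P c k (y - w)) ^ 2) z
  have fs1 : FS fun y => (P c k y - P c k (y - z)) ^ 2 := by
    have := ((P_FS (c := c) k).sub ((P_FS (c := c) k).comp_sub z)).mul (fun y => P c k y - P c k (y - z))
    simpa only [sq] using this
  have fs2 : FS fun y => (P c k (y - z) - P c k (y - z - w)) ^ 2 := by
    have h4 : FS fun y => P c k (y - z - w) := by
      have := (P_FS (c := c) k).comp_sub (z + w)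
      simpa only [sub_add_eq_sub_sub] using this
    have := (((P_FS (c := c) k).comp_sub z).sub h4).mul (fun y => P c k (y - z) - P c k (y - z - w))
    simpa only [sq] using this
  have fs3 : FS fun y => (P c k y - P c k (y - (z + w))) ^ 2 := by
    have := ((P_FS (c := c) k).sub ((P_FS (c := c) k).comp_sub (z + w))).mul
      (fun y => P c k y - P c k (y - (z + w)))
    simpa only [sq] using this
  have h4 : ∑' y, (P c k y - P c k (y - (z + w))) ^ 2 ≤
      ∑' y, (2 * (P c k y - P c k (y - z)) ^ 2 + 2 * (P c k (y - z) - P c k (y - z - w)) ^ 2) := by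
    refine Summable.tsum_le_tsum (fun y => ?_) fs3.summable
      ((fs1.summable.mul_left 2).add (fs2.summable.mul_left 2))
    rw [sub_add_eq_sub_sub]
    nlinarith [sq_nonneg ((P c k y - P c k (y - z)) - (P c k (y - z) - P c k (y - z - w)))]
  rw [Summable.tsum_add (fs1.summable.mul_left 2) (fs2.summable.mul_left 2), tsum_mul_left,
    tsum_mul_left, e2, h1, h2, h3] at h4
  linarith

/-- the sum of the defects of the differences of letters -/
lemma sum_defect (k : ℕ) : ∑ i, ∑ j, (PP c k 0 - PP c k (c i - c j)) =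
    (Fintype.card ι : ℝ) ^ 2 * PP c k 0 - PP c (k + 1) 0 := by
  have h1 : PP c (k + 1) 0 = ∑ i, ∑ j, PP c k (c i - c j) := by
    rw [PP_succ]
    refine sum_congr rfl fun i _ => sum_congr rfl fun j _ => ?_
    rw [← PP_neg]
    congr 1
    abel
  rw [h1]
  simp only [sum_sub_distrib, sum_const, card_univ, nsmul_eq_mul]
  ring

/-- the defect at a difference of letters is small -/
lemma defect_two (k : ℕ) (i j : ι) : PP c k 0 - PP c k (c i - c j) ≤
      (Fintype.card ι : ℝ) ^ 2 * PP c k 0 - PP c (k + 1) 0 := by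
  rw [← sum_defect]
  have hnn : ∀ i j, 0 ≤ PP c k 0 - PP c k (c i - c j) := fun i j =>
    sub_nonneg.mpr (PP_le_zero k _)
  refine le_trans ?_ (single_le_sum (f := fun i => ∑ j, (PP c k 0 - PP c k (c i - c j)))
    (fun i _ => sum_nonneg fun j _ => hnn i j) (mem_univ i))
  exact single_le_sum (f := fun j => PP c k 0 - PP c k (c i - c j)) (fun j _ => hnn i j) (mem_univ j)

lemma PP_pos [Nonempty ι] (k : ℕ) : 0 < PP c k 0 := by
  rcases (PP_nonneg (c := c) k 0).lt_or_eq with h | h
  · exact h
  · exfalso
    have h1 : ∀ y, P c k y = 0 := by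
      intro y
      have h2 : Summable fun y => P c k y * P c k y := ((P_FS k).mul _).summable
      have h3 := h2.le_tsum y (fun y _ => mul_self_nonneg _)
      rw [← PP_zero, ← h] at h3
      nlinarith [P_nonneg (c := c) k y]
    have h2 := P_mass (c := c) k
    rw [tsum_congr h1, tsum_zero] at h2
    have h3 : (0 : ℝ) < (Fintype.card ι : ℝ) ^ k := by
      have : 0 < Fintype.card ι := Fintype.card_pos
      positivity
    linarith

/-- log convexity -/
lemma log_convex [Nonempty ι] (k : ℕ) : PP c (k + 1) 0 ^ 2 ≤ PP c k 0 * PP c (k + 2) 0 := by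
  set H : Q → ℝ := fun y => ∑ i, P c (k + 1) (y + c i) with hH
  have hHFS : FS H := FS.sum fun i _ => (P_FS (k + 1)).comp_add (c i)
  have hA : ∑' y, P c k y * P c k y = PP c k 0 := (PP_zero k).symm
  have hC : ∑' y, H y * H y = PP c (k + 2) 0 := by
    have h1 : ∀ y, H y * H y = ∑ i, ∑ j, P c (k + 1) (y + c i) * P c (k + 1) (y + c j) := by
      intro y
      simp only [hH]
      rw [sum_mul_sum]
    rw [tsum_congr h1, Summable.tsum_finsetSum]
    · have h2 : PP c (k + 2) 0 = ∑ i, ∑ j, PP c (k + 1) (c i - c j) := by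
        rw [PP_succ]
        refine sum_congr rfl fun i _ => sum_congr rfl fun j _ => ?_
        rw [← PP_neg]
        congr 1
        abel
      rw [h2]
      refine sum_congr rfl fun i _ => ?_
      rw [Summable.tsum_finsetSum]
      · exact sum_congr rfl fun j _ => corr _ _ _
      · intro j _
        exact (((P_FS (k + 1)).comp_add (c i)).mul _).summable
    · intro i _
      exact (FS.sum fun j _ => ((P_FS (k + 1)).comp_add (c i)).mul _).summable
  have hB : ∑' y, P c k y * H y = PP c (k + 1) 0 := by
    rw [PP_zero]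
    have h1 : ∀ y, P c k y * H y = ∑ i, P c k y * P c (k + 1) (y + c i) := by
      intro y
      simp only [hH]
      rw [mul_sum]
    have h2 : ∀ y, P c (k + 1) y * P c (k + 1) y = ∑ i, P c k (y - c i) * P c (k + 1) y := by
      intro y
      nth_rewrite 1 [P_succ]
      rw [sum_mul]
    rw [tsum_congr h1, tsum_congr h2, Summable.tsum_finsetSum, Summable.tsum_finsetSum]
    · refine sum_congr rfl fun i _ => ?_
      rw [← tsum_shift (fun y => P c k y * P c (k + 1) (y + c i)) (c i)]
      refine tsum_congr fun y => ?_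
      rw [sub_add_cancel]
    · intro i _
      exact (((P_FS k).comp_sub (c i)).mul _).summable
    · intro i _
      exact ((P_FS k).mul _).summable
  have hCpos := PP_pos (c := c) (k + 2)
  set A := PP c k 0
  set B := PP c (k + 1) 0
  set C := PP c (k + 2) 0
  have key : 0 ≤ A - 2 * (B / C) * B + (B / C) ^ 2 * C := by
    have h1 : ∑' y, (P c k y - (B / C) * H y) ^ 2 =
        A - 2 * (B / C) * B + (B / C) ^ 2 * C := by
      have e : ∀ y, (P c k y - (B / C) * H y) ^ 2 =
          P c k y * P c k y - (2 * (B / C)) * (P c k y * H y) +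
            (B / C) ^ 2 * (H y * H y) := by intro y; ring
      have s1 : Summable fun y => P c k y * P c k y := ((P_FS k).mul _).summable
      have s2 : Summable fun y => (2 * (B / C)) * (P c k y * H y) :=
        (((P_FS k).mul _).summable).mul_left _
      have s3 : Summable fun y => (B / C) ^ 2 * (H y * H y) :=
        ((hHFS.mul _).summable).mul_left _
      rw [tsum_congr e, Summable.tsum_add (s1.sub s2) s3, Summable.tsum_sub s1 s2, tsum_mul_left,
        tsum_mul_left, hA, hB, hC]
    rw [← h1]
    exact tsum_nonneg fun y => sq_nonneg _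
  have h2 : A - 2 * (B / C) * B + (B / C) ^ 2 * C = A - B ^ 2 / C := by
    field_simp
    ring
  rw [h2] at key
  have h3 : B ^ 2 / C ≤ A := by linarith
  rwa [div_le_iff₀ hCpos] at h3

lemma supp_P (k : ℕ) : ∀ z : Q, P c k z ≠ 0 → ∃ m : ι → ℕ, (∀ i, m i ≤ k) ∧ z = ∑ i, m i • c i := by
  classical
  induction k with
  | zero =>
    intro z hz
    refine ⟨fun _ => 0, fun _ => le_rfl, ?_⟩
    by_contra h
    apply hz
    rw [P_zero, if_neg]
    simpa using h
  | succ k ih =>
    intro z hz
    rw [P_succ] at hz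
    obtain ⟨i, _, hi⟩ := exists_ne_zero_of_sum_ne_zero hz
    obtain ⟨m, hm, hm'⟩ := ih _ hi
    refine ⟨fun j => m j + if j = i then 1 else 0, fun j => ?_, ?_⟩
    · have := hm j
      dsimp only
      split_ifs <;> omega
    · simp only [add_smul, sum_add_distrib, ← hm', ite_smul, one_smul, zero_smul, sum_ite_eq',
        mem_univ, if_true]
      abel

/-- polynomial lower bound -/
lemma lower (k : ℕ) :
    (Fintype.card ι : ℝ) ^ (2 * k) ≤ ((k : ℝ) + 1) ^ (Fintype.card ι) * PP c k 0 := by
  classical
  set T : Finset Q := (Fintype.piFinset fun _ : ι => range (k + 1)).image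
    (fun m => ∑ i, m i • c i) with hT
  have hsupp : ∀ y ∉ T, P c k y = 0 := by
    intro y hy
    by_contra h
    obtain ⟨m, hm, hm'⟩ := supp_P k y h
    apply hy
    rw [hT, mem_image]
    exact ⟨m, Fintype.mem_piFinset.mpr fun i => mem_range.mpr (Nat.lt_succ_of_le (hm i)), hm'.symm⟩
  have h1 : ∑ y ∈ T, P c k y = (Fintype.card ι : ℝ) ^ k := by
    rw [← P_mass (c := c) k, tsum_eq_sum hsupp]
  have h2 : ∑ y ∈ T, P c k y ^ 2 = PP c k 0 := by
    rw [PP_zero, tsum_eq_sum (s := T)]
    · exact sum_congr rfl fun y _ => by rw [sq]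
    · intro y hy; rw [hsupp y hy, zero_mul]
  have h3 := sq_sum_le_card_mul_sum_sq (s := T) (f := fun y => P c k y)
  rw [h1, h2] at h3
  have h4 : (T.card : ℝ) ≤ ((k : ℝ) + 1) ^ (Fintype.card ι) := by
    have h5 : T.card ≤ (k + 1) ^ (Fintype.card ι) := by
      refine card_image_le.trans (le_of_eq ?_)
      rw [Fintype.card_piFinset]
      simp
    exact_mod_cast h5
  calc (Fintype.card ι : ℝ) ^ (2 * k) = ((Fintype.card ι : ℝ) ^ k) ^ 2 := by rw [← pow_mul]; ring
    _ ≤ T.card * PP c k 0 := h3
    _ ≤ _ := mul_le_mul_of_nonneg_right h4 (PP_nonneg _ _)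

/-- the successive ratios -/
noncomputable def rr (c : ι → Q) (k : ℕ) : ℝ :=
  PP c (k + 1) 0 / ((Fintype.card ι : ℝ) ^ 2 * PP c k 0)

lemma rr_le_one [Nonempty ι] (k : ℕ) : rr c k ≤ 1 := by
  have h0 := PP_pos (c := c) k
  have hn : (0 : ℝ) < Fintype.card ι := by exact_mod_cast Fintype.card_pos
  unfold rr
  rw [div_le_one (by positivity)]
  have h1 := sum_defect (c := c) k
  have h2 : 0 ≤ ∑ i, ∑ j, (PP c k 0 - PP c k (c i - c j)) :=
    sum_nonneg fun i _ => sum_nonneg fun j _ => sub_nonneg.mpr (PP_le_zero k _)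
  linarith

lemma rr_mono [Nonempty ι] : Monotone (rr c) := by
  refine monotone_nat_of_le_succ fun k => ?_
  have h0 := PP_pos (c := c) k
  have h1 := PP_pos (c := c) (k + 1)
  have hn : (0 : ℝ) < Fintype.card ι := by exact_mod_cast Fintype.card_pos
  unfold rr
  rw [div_le_div_iff₀ (by positivity) (by positivity)]
  have h2 := log_convex (c := c) k
  have h3 : (0 : ℝ) < (Fintype.card ι : ℝ) ^ 2 := by positivity
  calc PP c (k + 1) 0 * ((Fintype.card ι : ℝ) ^ 2 * PP c (k + 1) 0) =
        (Fintype.card ι : ℝ) ^ 2 * PP c (k + 1) 0 ^ 2 := by ring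
    _ ≤ (Fintype.card ι : ℝ) ^ 2 * (PP c k 0 * PP c (k + 2) 0) :=
        mul_le_mul_of_nonneg_left h2 h3.le
    _ = _ := by
        have : k + 1 + 1 = k + 2 := rfl
        rw [this]; ring

theorem rr_tendsto [Nonempty ι] : Tendsto (rr c) atTop (𝓝 1) := by
  have hbdd : BddAbove (Set.range (rr c)) := ⟨1, by rintro _ ⟨k, rfl⟩; exact rr_le_one k⟩
  have ht := tendsto_atTop_ciSup (rr_mono (c := c)) hbdd
  set r := ⨆ k, rr c k with hr
  have hr1 : r ≤ 1 := ciSup_le fun k => rr_le_one k
  have hle : ∀ k, rr c k ≤ r := fun k => le_ciSup hbdd k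
  have hn : (0 : ℝ) < Fintype.card ι := by exact_mod_cast Fintype.card_pos
  have hr0 : 0 ≤ r := by
    refine le_trans ?_ (hle 0)
    unfold rr
    have h0 := PP_pos (c := c) 0
    have h1 := PP_pos (c := c) (0 + 1)
    positivity
  rcases hr1.lt_or_eq with hlt | heq
  · exfalso
    have h1 : ∀ k, PP c k 0 ≤ (Fintype.card ι : ℝ) ^ (2 * k) * r ^ k := by
      intro k
      induction k with
      | zero =>
        classical
        rw [mul_zero, pow_zero, pow_zero, mul_one, PP_zero]
        simp only [P_zero]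
        have h5 : ∀ y : Q, (if y = 0 then (1 : ℝ) else 0) * (if y = 0 then (1 : ℝ) else 0) =
            if y = 0 then 1 else 0 := by
          intro y
          split_ifs <;> norm_num
        rw [tsum_congr h5, tsum_ite_eq]
      | succ k ih =>
        have h0 := PP_pos (c := c) k
        have h2 := hle k
        unfold rr at h2
        rw [div_le_iff₀ (by positivity)] at h2
        calc PP c (k + 1) 0 ≤ r * ((Fintype.card ι : ℝ) ^ 2 * PP c k 0) := h2
          _ ≤ r * ((Fintype.card ι : ℝ) ^ 2 * ((Fintype.card ι : ℝ) ^ (2 * k) * r ^ k)) := by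
              gcongr
          _ = _ := by ring
    have h2 : ∀ k : ℕ, 1 ≤ ((k : ℝ) + 1) ^ (Fintype.card ι) * r ^ k := by
      intro k
      have h3 := (lower (c := c) k).trans
        (mul_le_mul_of_nonneg_left (h1 k) (by positivity))
      have h4 : (0 : ℝ) < (Fintype.card ι : ℝ) ^ (2 * k) := by positivity
      have h5 : (Fintype.card ι : ℝ) ^ (2 * k) * 1 ≤ (Fintype.card ι : ℝ) ^ (2 * k) *
          (((k : ℝ) + 1) ^ (Fintype.card ι) * r ^ k) := by
        calc _ = (Fintype.card ι : ℝ) ^ (2 * k) := mul_one _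
          _ ≤ _ := h3
          _ = _ := by ring
      exact le_of_mul_le_mul_left h5 h4
    have h3 : Tendsto (fun k : ℕ => ((k : ℝ) ^ (Fintype.card ι)) * r ^ k) atTop (𝓝 0) :=
      tendsto_pow_const_mul_const_pow_of_abs_lt_one _ (by rw [abs_of_nonneg hr0]; exact hlt)
    have h4 : Tendsto (fun k : ℕ => (2 : ℝ) ^ (Fintype.card ι) *
        (((k : ℝ) ^ (Fintype.card ι)) * r ^ k)) atTop (𝓝 0) := by
      have := h3.const_mul ((2 : ℝ) ^ (Fintype.card ι))
      rwa [mul_zero] at this
    have h5 := (h4.eventually (gt_mem_nhds (zero_lt_one : (0 : ℝ) < 1))).and (eventually_ge_atTop 1)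
    obtain ⟨k, hk, hk1⟩ := h5.exists
    have h6 := h2 k
    have h7 : ((k : ℝ) + 1) ^ (Fintype.card ι) ≤ (2 : ℝ) ^ (Fintype.card ι) *
        (k : ℝ) ^ (Fintype.card ι) := by
      rw [← mul_pow]
      have : (1 : ℝ) ≤ k := by exact_mod_cast hk1
      exact pow_le_pow_left₀ (by positivity) (by linarith) _
    have h8 : ((k : ℝ) + 1) ^ (Fintype.card ι) * r ^ k ≤ (2 : ℝ) ^ (Fintype.card ι) *
        (((k : ℝ) ^ (Fintype.card ι)) * r ^ k) := by
      rw [← mul_assoc]
      exact mul_le_mul_of_nonneg_right h7 (by positivity)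
    linarith
  · rw [heq] at ht
    exact ht

/-- the differences of letters -/
def CC (c : ι → Q) : AddSubgroup Q := AddSubgroup.closure {w : Q | ∃ i j, w = c i - c j}

/-- **The ratio limit.** -/
theorem ratio [Nonempty ι] {z : Q} (hz : z ∈ CC c) :
    Tendsto (fun k => PP c k z / PP c k 0) atTop (𝓝 1) := by
  have hn : (0 : ℝ) < Fintype.card ι := by exact_mod_cast Fintype.card_pos
  have hpos := fun k => PP_pos (c := c) k
  -- reformulation with the defect
  suffices h : Tendsto (fun k => (PP c k 0 - PP c k z) / PP c k 0) atTop (𝓝 0) by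
    have h1 := h.const_sub 1
    rw [sub_zero] at h1
    refine h1.congr fun k => ?_
    have := (hpos k).ne'
    field_simp
    ring
  have hnn : ∀ z k, 0 ≤ (PP c k 0 - PP c k z) / PP c k 0 := fun z k =>
    div_nonneg (sub_nonneg.mpr (PP_le_zero k z)) (hpos k).le
  unfold CC at hz
  induction hz using AddSubgroup.closure_induction with
  | mem z hz =>
    obtain ⟨i, j, rfl⟩ := hz
    have h4 : Tendsto (fun k => (Fintype.card ι : ℝ) ^ 2 * (1 - rr c k)) atTop (𝓝 0) := by
      have := ((rr_tendsto (c := c)).const_sub 1).const_mul ((Fintype.card ι : ℝ) ^ 2)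
      rwa [sub_self, mul_zero] at this
    refine squeeze_zero (hnn _) (fun k => ?_) h4
    have h5 := defect_two (c := c) k i j
    unfold rr
    rw [div_le_iff₀ (hpos k)]
    refine h5.trans (le_of_eq ?_)
    have := (hpos k).ne'
    field_simp
  | zero => simp
  | add z w _ _ hz hw =>
    have h1 := (hz.const_mul 2).add (hw.const_mul 2)
    rw [mul_zero, add_zero] at h1
    refine squeeze_zero (hnn _) (fun k => ?_) h1
    rw [div_le_iff₀ (hpos k)]
    refine (defect_add k z w).trans (le_of_eq ?_)
    have := (hpos k).ne'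
    field_simp
  | neg z _ hz =>
    refine hz.congr fun k => ?_
    rw [PP_neg]

end Pool.Agent.Q59.RL
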