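import Pool.Agent.Q59.RL.Tate2

/-!
# The signs of the lines of algebraic classes
-/

set_option linter.unusedSectionVars false

namespace Pool.Agent.Q59.RL

open Finset Pool.Agent.H916R2 Pool.Agent.Q59.FS
open Pool.Agent.H916T (IsTate SurfaceTate Standard W)
open Pool.Agent.H916Z (Link ZBase)

/-- the rules for the signs -/
structure SignT (p : ℕ) (A : ∀ M : ℕ, Multiset (ZMod M) → Prop)
    (ε : ∀ M : ℕ, Multiset (ZMod M) → ℤˣ) : Prop where
  neg : ∀ M, 0 < M → p.Coprime M → ∀ s, A M s → ε M (s.map Neg.neg) = ε M s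
  pair : ∀ M, 0 < M → p.Coprime M → ∀ a : ZMod M, a ≠ 0 → ε M {a, -a} = 1
  surface : ∀ M, 0 < M → p.Coprime M → ∀ s, SurfaceTate p M s → ε M s = 1
  standard : ∀ M, 0 < M → p.Coprime M → ∀ q : ℕ, q.Prime → q ∣ M → ∀ s, Standard q M s → ε M s = 1
  join : ∀ M, 0 < M → p.Coprime M → ∀ s t, A M s → A M t → ε M (s + t) = ε M s * ε M t
  level : ∀ M N, 0 < M → 0 < N → p.Coprime M → p.Coprime N → ∀ s : Multiset (ZMod M), A M s →
    ε (N * M) (s.map fun a => ((N * a.val : ℕ) : ZMod (N * M))) = ε M s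

variable {p : ℕ} {A : ∀ M : ℕ, Multiset (ZMod M) → Prop} {ε : ∀ M : ℕ, Multiset (ZMod M) → ℤˣ}

/-- the positive characters form an admissible family -/
theorem SignT.adm (hε : SignT p A ε) (hA : AdmT p A) : AdmT p (fun M s => A M s ∧ ε M s = 1) where
  tate := fun M hM hpM s hs => hA.tate M hM hpM s hs.1
  neg := fun M hM hpM s hs => ⟨hA.neg M hM hpM s hs.1, by rw [hε.neg M hM hpM s hs.1, hs.2]⟩
  pair := fun M hM hpM a ha => ⟨hA.pair M hM hpM a ha, hε.pair M hM hpM a ha⟩
  surface := fun M hM hpM s hs => ⟨hA.surface M hM hpM s hs, hε.surface M hM hpM s hs⟩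
  standard := fun M hM hpM q hq hqM s hs =>
    ⟨hA.standard M hM hpM q hq hqM s hs, hε.standard M hM hpM q hq hqM s hs⟩
  join := fun M hM hpM s t hs ht => ⟨hA.join M hM hpM s t hs.1 ht.1, by
    rw [hε.join M hM hpM s t hs.1 ht.1, hs.2, ht.2, mul_one]⟩
  cancel := fun M hM hpM a s hs => by
    have h1 := hA.cancel M hM hpM a s hs.1
    have h0 : a ≠ 0 := fun h => (hA.tate M hM hpM _ hs.1).1 (h ▸ Multiset.mem_cons_self a _)
    refine ⟨h1, ?_⟩
    have h2 := hε.join M hM hpM {a, -a} s (hA.pair M hM hpM a h0) h1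
    have h3 : ({a, -a} : Multiset (ZMod M)) + s = a ::ₘ -a ::ₘ s := by
      rw [Multiset.insert_eq_cons, Multiset.cons_add, Multiset.singleton_add]
    rw [h3, hε.pair M hM hpM a h0, one_mul] at h2
    rw [← h2, hs.2]
  descend := fun M N hM hN hpM hpN s hs => by
    have h1 := hA.descend M N hM hN hpM hpN s hs.1
    exact ⟨h1, by rw [← hε.level M N hM hN hpM hpN s h1, hs.2]⟩

variable {m : ℕ} [NeZero m]

/-- the parities of the other classes -/
noncomputable def par2 (p : ℕ) (s : Multiset (ZMod m)) : Cls2 p m → ZMod 2 := fun c => par p s c.1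

lemma par2_add (s t : Multiset (ZMod m)) : par2 p (s + t) = par2 p s + par2 p t := by
  funext c
  exact par_add s t c.1

lemma par2_zero : par2 p (0 : Multiset (ZMod m)) = 0 := by
  funext c
  simp [par2, par]

lemma par2_sum {κ : Type*} (S : Finset κ) (L : κ → Multiset (ZMod m)) :
    par2 p (∑ i ∈ S, L i) = ∑ i ∈ S, par2 p (L i) := by
  classical
  induction S using Finset.induction_on with
  | empty => simp [par2_zero]
  | insert a S ha ih => rw [sum_insert ha, sum_insert ha, par2_add, ih]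

lemma par2_unit (t : (ZMod m)ˣ) {s : Multiset (ZMod m)} (h0 : (0 : ZMod m) ∉ s) :
    par2 p (s.map fun a => (t : ZMod m) * a) = par2 p s := by
  classical
  funext c
  unfold par2 par
  rw [Multiset.map_map]
  congr 1
  refine Multiset.map_congr rfl fun b hb => ?_
  have hb0 : b ≠ 0 := fun h => h0 (h ▸ hb)
  have h1 : addOrderOf ((t : ZMod m) * b) = addOrderOf b := by
    have h2 : ∀ (u : (ZMod m)ˣ) (x : ZMod m), addOrderOf ((u : ZMod m) * x) ∣ addOrderOf x := by
      intro u x
      rw [addOrderOf_dvd_iff_nsmul_eq_zero, nsmul_eq_mul]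
      have := addOrderOf_nsmul_eq_zero x
      rw [nsmul_eq_mul] at this
      linear_combination (u : ZMod m) * this
    refine Nat.dvd_antisymm (h2 t b) ?_
    have h3 := h2 t⁻¹ ((t : ZMod m) * b)
    rwa [← mul_assoc, Units.inv_mul, one_mul] at h3
  have h2 : (Quot.mk _ ((t : ZMod m) * b) : Cls p m) = Quot.mk _ b :=
    Quot.sound ⟨unit_mul_ne_zero t hb0, hb0, Or.inl (by rw [h1])⟩
  simp only [Function.comp_apply, h2]

lemma Adm_sum (hA : AdmT p A) (hpm : p.Coprime m) (hm : 2 ≤ m) {κ : Type*} (S : Finset κ)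
    (L : κ → Multiset (ZMod m)) (hL : ∀ i ∈ S, A m (L i)) : A m (∑ i ∈ S, L i) := by
  classical
  induction S using Finset.induction_on with
  | empty => simpa using hA.zero hpm hm
  | insert a S ha ih =>
    rw [sum_insert ha]
    exact hA.join m (NeZero.pos m) hpm _ _ (hL a (mem_insert_self a S))
      (ih fun i hi => hL i (mem_insert_of_mem hi))

lemma eps_zero (hA : AdmT p A) (hε : SignT p A ε) (hpm : p.Coprime m) (hm : 2 ≤ m) : ε m 0 = 1 := by
  have h0 := hA.zero hpm hm
  have h1 := hε.join m (NeZero.pos m) hpm 0 0 h0 h0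
  rw [add_zero] at h1
  exact (mul_eq_left.mp h1.symm)

lemma eps_sum (hA : AdmT p A) (hε : SignT p A ε) (hpm : p.Coprime m) (hm : 2 ≤ m) {κ : Type*}
    (S : Finset κ) (L : κ → Multiset (ZMod m)) (hL : ∀ i ∈ S, A m (L i)) :
    ε m (∑ i ∈ S, L i) = ∏ i ∈ S, ε m (L i) := by
  classical
  induction S using Finset.induction_on with
  | empty => simpa using eps_zero hA hε hpm hm
  | insert a S ha ih =>
    rw [sum_insert ha, prod_insert ha, hε.join m (NeZero.pos m) hpm _ _ (hL a (mem_insert_self a S))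
      (Adm_sum hA hpm hm S L fun i hi => hL i (mem_insert_of_mem hi)),
      ih fun i hi => hL i (mem_insert_of_mem hi)]

/-- the space of the parities of the algebraic characters -/
def PS (hA : AdmT p A) (hpm : p.Coprime m) (hm : 2 ≤ m) : Submodule (ZMod 2) (Cls2 p m → ZMod 2) where
  carrier := {v | ∃ s : Multiset (ZMod m), A m s ∧ par2 p s = v}
  zero_mem' := ⟨0, hA.zero hpm hm, par2_zero⟩
  add_mem' := by
    rintro _ _ ⟨s, hs, rfl⟩ ⟨t, ht, rfl⟩
    exact ⟨s + t, hA.join m (NeZero.pos m) hpm s t hs ht, par2_add s t⟩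
  smul_mem' := by
    rintro c _ ⟨s, hs, rfl⟩
    have h2 : c = 0 ∨ c = 1 := by revert c; decide
    rcases h2 with rfl | rfl
    · exact ⟨0, hA.zero hpm hm, by rw [par2_zero, zero_smul]⟩
    · exact ⟨s, hs, by rw [one_smul]⟩

/-- **The signs are determined by finitely many.** -/
theorem sign_determination (hA : AdmT p A) (hp : p.Prime) (hpm : p.Coprime m) (hm : 2 ≤ m) :
    ∃ (F : Finset (Multiset (ZMod m))) (I : Multiset (ZMod m) → Finset (Multiset (ZMod m))),
      F.card + 1 ≤ Nat.card (Cls' p m) ∧ (∀ f ∈ F, A m f) ∧ (∀ s, I s ⊆ F) ∧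
      (∀ (t : (ZMod m)ˣ) (s : Multiset (ZMod m)), (0 : ZMod m) ∉ s →
        I (s.map fun a => (t : ZMod m) * a) = I s) ∧
      ∀ ε, SignT p A ε → ∀ s, A m s → ε m s = ∏ f ∈ I s, ε m f := by
  classical
  set P := PS hA hpm hm with hP
  set k := Module.finrank (ZMod 2) P with hk
  let b : Module.Basis (Fin k) (ZMod 2) P := Module.finBasis (ZMod 2) P
  have hrep : ∀ j : Fin k, ∃ s : Multiset (ZMod m), A m s ∧ par2 p s = (b j : Cls2 p m → ZMod 2) :=
    fun j => (b j).2
  choose f hf1 hf2 using hrep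
  have hfinj : Function.Injective f := by
    intro i j h
    apply b.injective
    apply Subtype.ext
    rw [← hf2, ← hf2, h]
  let J : Multiset (ZMod m) → Finset (Fin k) := fun s =>
    if h : par2 p s ∈ P then univ.filter fun j => b.repr ⟨par2 p s, h⟩ j = 1 else ∅
  have hJ : ∀ s, A m s → par2 p s = ∑ j ∈ J s, par2 p (f j) := by
    intro s hs
    have h : par2 p s ∈ P := ⟨s, hs, rfl⟩
    simp only [J]
    rw [dif_pos h]
    have h1 := b.sum_repr ⟨par2 p s, h⟩
    have h2 := congrArg (fun x : P => (x : Cls2 p m → ZMod 2)) h1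
    simp only [AddSubmonoidClass.coe_finsetSum, Submodule.coe_smul] at h2
    refine h2.symm.trans ?_
    rw [sum_filter]
    refine sum_congr rfl fun j _ => ?_
    have h3 : b.repr ⟨par2 p s, h⟩ j = 0 ∨ b.repr ⟨par2 p s, h⟩ j = 1 := by
      generalize b.repr ⟨par2 p s, h⟩ j = c
      revert c; decide
    rcases h3 with h3 | h3
    · rw [h3, zero_smul, if_neg (by decide)]
    · rw [h3, one_smul, if_pos rfl, hf2]
  refine ⟨univ.image f, fun s => (J s).image f, ?_, ?_, ?_, ?_, ?_⟩
  · rw [← card_Cls2 hm, card_image_of_injective _ hfinj, card_univ, Fintype.card_fin]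
    have h1 : k ≤ Module.finrank (ZMod 2) (Cls2 p m → ZMod 2) := Submodule.finrank_le P
    rw [Module.finrank_fintype_fun_eq_card, ← Nat.card_eq_fintype_card] at h1
    omega
  · intro g hg
    obtain ⟨j, _, rfl⟩ := mem_image.mp hg
    exact hf1 j
  · intro s
    exact image_subset_image (subset_univ _)
  · intro t s h0
    have h1 := par2_unit (p := p) t h0
    have : J (s.map fun a => (t : ZMod m) * a) = J s := by
      simp only [J]
      simp only [h1]
    beta_reduce
    rw [this]
  · intro ε hε s hs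
    have hsum : A m (∑ j ∈ J s, f j) := Adm_sum hA hpm hm _ _ fun j _ => hf1 j
    have hu : A m (s + ∑ j ∈ J s, f j) := hA.join m (NeZero.pos m) hpm _ _ hs hsum
    have hpar : par2 p (s + ∑ j ∈ J s, f j) = 0 := by
      rw [par2_add, par2_sum, ← hJ s hs]
      funext c
      exact two_self _
    have h1 := (hε.adm hA).of_par hp hpm hm (hA.tate m (NeZero.pos m) hpm _ hu)
      (fun c => congrFun hpar c)
    have h2 := h1.2
    rw [hε.join m (NeZero.pos m) hpm _ _ hs hsum, eps_sum hA hε hpm hm _ _ fun j _ => hf1 j] at h2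
    beta_reduce
    rw [prod_image fun i _ j _ h => hfinj h]
    rcases Int.units_eq_one_or (∏ j ∈ J s, ε m (f j)) with h3 | h3
    · rw [h3, mul_one] at h2
      rw [h2, h3]
    · rw [h3] at h2 ⊢
      rcases Int.units_eq_one_or (ε m s) with h4 | h4
      · rw [h4] at h2
        exact absurd h2 (by decide)
      · exact h4

end Pool.Agent.Q59.RL
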