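import Pool.Agent.Q59.RL.Hodge
import Pool.Agent.Q59.FS.Tate

/-!
# The dyadic law for families of Tate characters
-/

namespace Pool.Agent.Q59.RL

open Finset Filter Topology Pool.Agent.H916R2 Pool.Agent.Q59.FS
open Pool.Agent.H916T (IsTate SurfaceTate Standard W)
open Pool.Agent.H916Z (Link ZBase)

/-- the closure properties of the family of the characters of algebraic classes -/
structure AdmT (p : ℕ) (A : ∀ M : ℕ, Multiset (ZMod M) → Prop) : Prop where
  tate : ∀ M, 0 < M → p.Coprime M → ∀ s, A M s → IsTate p M s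
  neg : ∀ M, 0 < M → p.Coprime M → ∀ s, A M s → A M (s.map Neg.neg)
  pair : ∀ M, 0 < M → p.Coprime M → ∀ a : ZMod M, a ≠ 0 → A M {a, -a}
  surface : ∀ M, 0 < M → p.Coprime M → ∀ s, SurfaceTate p M s → A M s
  standard : ∀ M, 0 < M → p.Coprime M → ∀ q : ℕ, q.Prime → q ∣ M → ∀ s, Standard q M s → A M s
  join : ∀ M, 0 < M → p.Coprime M → ∀ s t, A M s → A M t → A M (s + t)
  cancel : ∀ M, 0 < M → p.Coprime M → ∀ a s, A M (a ::ₘ -a ::ₘ s) → A M s
  descend : ∀ M N, 0 < M → 0 < N → p.Coprime M → p.Coprime N → ∀ s : Multiset (ZMod M),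
    A (N * M) (s.map fun a => ((N * a.val : ℕ) : ZMod (N * M))) → A M s

section Basic

variable {p : ℕ} {A : ∀ M : ℕ, Multiset (ZMod M) → Prop}

lemma AdmT.gen (hA : AdmT p A) {M : ℕ} (hM : 0 < M) (hpM : p.Coprime M) {s : Multiset (ZMod M)}
    (h : Pool.Agent.H916T.Generated M (ZBase p M) s) : A M s := by
  induction h with
  | ofBase s hs =>
    rcases hs with h | ⟨q, hq, hqM, h⟩
    · exact hA.surface M hM hpM s h
    · exact hA.standard M hM hpM q hq hqM s h
  | pair a ha => exact hA.pair M hM hpM a ha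
  | join s t _ _ ihs iht => exact hA.join M hM hpM s t ihs iht
  | cancel a s _ ih => exact hA.cancel M hM hpM a s ih

variable {m : ℕ} [NeZero m]

lemma AdmT.gen2 (hA : AdmT p A) (hpm : p.Coprime m) {s : Multiset (ZMod m)}
    (h : Pool.Agent.H916R2.Generated m (A m) s) : A m s := by
  have hm : 0 < m := NeZero.pos m
  induction h with
  | ofBase s hs => exact hs
  | pair a ha => exact hA.pair m hm hpm a ha
  | standard q hq hq2 hqm a ha =>
    exact hA.standard m hm hpm q hq hqm _ ⟨hq.odd_of_ne_two hq2, a, ha, rfl⟩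
  | standardTwo h2 a ha =>
    exact hA.surface m hm hpm _ (Pool.Agent.H916T.surface_standardTwo hpm (Nat.mul_div_cancel' h2) ha)
  | join s t _ _ ihs iht => exact hA.join m hm hpm s t ihs iht
  | cancel a s _ ih => exact hA.cancel m hm hpm a s ih

lemma AdmT.zero (hA : AdmT p A) (hpm : p.Coprime m) (hm : 2 ≤ m) : A m 0 := by
  have : Fact (1 < m) := ⟨hm⟩
  exact hA.cancel m (by omega) hpm 1 0 (hA.pair m (by omega) hpm 1 one_ne_zero)

open scoped Classical in
/-- characters with even parities -/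
lemma AdmT.parity (hA : AdmT p A) (hp : p.Prime) (hpm : p.Coprime m) (hm : 2 ≤ m)
    {s : Multiset (ZMod m)} (hs : IsTate p m s)
    (hpar : ∀ a : ZMod m, Even (s.countP fun b => Relation.EqvGen (Link p) a b)) : A m s := by
  by_cases hne : s = 0
  · rw [hne]; exact hA.zero hpm hm
  · obtain ⟨N, hN, hpN, H⟩ := Pool.Agent.H916Y.parity_main hp (NeZero.pos m) hpm hs hne hpar
    refine hA.descend m N (NeZero.pos m) hN hpm hpN s ?_
    exact hA.gen (Nat.mul_pos hN (NeZero.pos m)) (Nat.Coprime.mul_right hpN hpm) (H (N * m) rfl)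

lemma IsTate.add {s t : Multiset (ZMod m)} (hs : IsTate p m s) (ht : IsTate p m t) :
    IsTate p m (s + t) := by
  refine ⟨?_, ?_, ?_, fun u => ?_⟩
  · rw [Multiset.mem_add, not_or]; exact ⟨hs.1, ht.1⟩
  · rw [Multiset.card_add]; exact hs.2.1.add ht.2.1
  · rw [Multiset.sum_add, hs.2.2.1, ht.2.2.1, add_zero]
  · have h1 := hs.2.2.2 u
    have h2 := ht.2.2.2 u
    simp only [Multiset.map_add, Multiset.sum_add, Multiset.card_add]
    rw [sum_add_distrib, mul_add, h1, h2]
    ring

lemma isTate_zero : IsTate p m (0 : Multiset (ZMod m)) := by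
  refine ⟨by simp, by simp, by simp, fun u => by simp⟩

/-- the class of a multiset -/
def ct (B : Multiset (ZMod m) → Prop) (s : Multiset (ZMod m)) :
    (((ZMod m → ℤ) ⧸ LL m B) × ZMod 2) × ZMod m := (cl B s, s.sum)

omit [NeZero m] in
lemma ct_add {B : Multiset (ZMod m) → Prop} (s t : Multiset (ZMod m)) :
    ct B (s + t) = ct B s + ct B t := by
  unfold ct
  rw [cl_add, Multiset.sum_add]
  rfl

omit [NeZero m] in
lemma ct_zero {B : Multiset (ZMod m) → Prop} : ct B 0 = 0 := by
  unfold ct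
  rw [cl_zero]
  simp

lemma ct_neg {B : Multiset (ZMod m) → Prop} (s : Multiset (ZMod m)) :
    ct B (s.map Neg.neg) = - ct B s := by
  unfold ct
  rw [cl_neg]
  refine Prod.ext rfl ?_
  simp only [Prod.snd_neg]
  exact Multiset.sum_map_neg' s

lemma ct_sum {B : Multiset (ZMod m) → Prop} {ι : Type*} (S : Finset ι)
    (L : ι → Multiset (ZMod m)) : ct B (∑ i ∈ S, L i) = ∑ i ∈ S, ct B (L i) := by
  classical
  induction S using Finset.induction_on with
  | empty => simp [ct_zero]
  | insert a S ha ih => rw [sum_insert ha, sum_insert ha, ct_add, ih]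

/-- the functional of a unit -/
noncomputable def psiT (hA : AdmT p A) (hpm : p.Coprime m) (t : (ZMod m)ˣ) :
    ((ZMod m → ℤ) ⧸ LL m (A m)) →+ ℤ :=
  QuotientAddGroup.lift (LL m (A m))
    { toFun := fun y => ∑ a, y a * W p ((t : ZMod m) * a)
      map_zero' := by simp
      map_add' := fun x y => by
        simp only [Pi.add_apply, add_mul]
        rw [sum_add_distrib] }
    (by
      intro y hy
      unfold LL at hy
      induction hy using AddSubgroup.closure_induction with
      | mem y hy =>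
        obtain ⟨s, hs, rfl⟩ := hy
        have h0 := (hA.tate m (NeZero.pos m) hpm s (hA.gen2 hpm hs)).W_sum hpm t
        have h1 : ∑ a : ZMod m, ((s.count a : ℕ) : ℤ) * W p ((t : ZMod m) * a) = 0 := by
          rw [← h0, ← sum_count s (fun a => W p ((t : ZMod m) * a))]
          rfl
        change ∑ a, EE s a * W p ((t : ZMod m) * a) = 0
        simp only [EE_apply, sub_mul]
        rw [sum_sub_distrib, h1, zero_sub, neg_eq_zero]
        have h2 : ∑ a : ZMod m, ((s.count (-a) : ℕ) : ℤ) * W p ((t : ZMod m) * a) =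
            - ∑ a : ZMod m, ((s.count a : ℕ) : ℤ) * W p ((t : ZMod m) * a) := by
          rw [← sum_neg_distrib]
          refine Fintype.sum_equiv (Equiv.neg _) _ _ fun a => ?_
          simp only [Equiv.neg_apply]
          rw [mul_neg, Pool.Agent.H916T.W_neg]
          ring
        rw [h2, h1, neg_zero]
      | zero => exact AddSubgroup.zero_mem _
      | add x y _ _ hx hy => exact AddSubgroup.add_mem _ hx hy
      | neg x _ hx => exact AddSubgroup.neg_mem _ hx)

lemma psiT_cQ (hA : AdmT p A) (hpm : p.Coprime m) (t : (ZMod m)ˣ) (a : ZMod m) :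
    psiT hA hpm t (cQ m (A m) a) = 2 * W p ((t : ZMod m) * a) := by
  classical
  change ∑ b, eps a b * W p ((t : ZMod m) * b) = 2 * W p ((t : ZMod m) * a)
  have h1 : ∀ b, eps a b * W p ((t : ZMod m) * b) =
      (if b = a then W p ((t : ZMod m) * b) else 0) - if b = -a then W p ((t : ZMod m) * b) else 0 := by
    intro b
    rw [eps_apply]
    have h2 : (-b = a) = (b = -a) := by rw [neg_eq_iff_eq_neg]
    rw [sub_mul]
    simp only [h2]
    congr 1
    · split_ifs <;> simp
    · split_ifs <;> simp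
  rw [sum_congr rfl fun b _ => h1 b, sum_sub_distrib, sum_ite_eq', sum_ite_eq', if_pos (mem_univ _),
    if_pos (mem_univ _), mul_neg, Pool.Agent.H916T.W_neg]
  ring

lemma psiT_sum (hA : AdmT p A) (hpm : p.Coprime m) (t : (ZMod m)ˣ) (s : Multiset (ZMod m)) :
    psiT hA hpm t (s.map (cQ m (A m))).sum = 2 * (s.map fun a => W p ((t : ZMod m) * a)).sum := by
  rw [map_multiset_sum, Multiset.map_map, ← Multiset.sum_map_mul_left]
  congr 1
  exact Multiset.map_congr rfl fun a _ => psiT_cQ hA hpm t a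

variable (p) in
/-- the subgroup of the Tate classes -/
def TA (B : Multiset (ZMod m) → Prop) :
    AddSubgroup ((((ZMod m → ℤ) ⧸ LL m B) × ZMod 2) × ZMod m) where
  carrier := {x | ∃ s, p.Coprime m ∧ IsTate p m s ∧ ct B s = x} ∪ {0}
  zero_mem' := Or.inr rfl
  add_mem' := by
    rintro _ _ (⟨s, hp, hs, rfl⟩ | rfl) (⟨t, _, ht, rfl⟩ | rfl)
    · exact Or.inl ⟨s + t, hp, IsTate.add hs ht, ct_add s t⟩
    · exact Or.inl ⟨s, hp, hs, (add_zero _).symm⟩
    · rw [zero_add]; exact Or.inl ⟨t, by assumption, ht, rfl⟩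
    · rw [zero_add]; exact Or.inr rfl
  neg_mem' := by
    rintro _ (⟨s, hp, hs, rfl⟩ | rfl)
    · exact Or.inl ⟨s.map Neg.neg, hp, hs.neg hp, ct_neg s⟩
    · rw [neg_zero]; exact Or.inr rfl

lemma mem_TA (hpm : p.Coprime m) {B : Multiset (ZMod m) → Prop}
    {x : (((ZMod m → ℤ) ⧸ LL m B) × ZMod 2) × ZMod m} :
    x ∈ TA p B ↔ ∃ s, IsTate p m s ∧ ct B s = x := by
  constructor
  · rintro (⟨s, _, hs, h⟩ | h)
    · exact ⟨s, hs, h⟩
    · exact ⟨0, isTate_zero, by rw [ct_zero]; exact h.symm⟩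
  · rintro ⟨s, hs, h⟩
    exact Or.inl ⟨s, hpm, hs, h⟩

lemma ct_mem_iff (hA : AdmT p A) (hpm : p.Coprime m) {s : Multiset (ZMod m)}
    (h0 : (0 : ZMod m) ∉ s) : ct (A m) s ∈ TA p (A m) ↔ IsTate p m s := by
  rw [mem_TA hpm]
  constructor
  · rintro ⟨t, ht, h⟩
    have e1 : (t.map (cQ m (A m))).sum = (s.map (cQ m (A m))).sum :=
      congrArg (fun x : (((ZMod m → ℤ) ⧸ LL m (A m)) × ZMod 2) × ZMod m => x.1.1) h
    have e2 : ((Multiset.card t : ℕ) : ZMod 2) = ((Multiset.card s : ℕ) : ZMod 2) :=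
      congrArg (fun x : (((ZMod m → ℤ) ⧸ LL m (A m)) × ZMod 2) × ZMod m => x.1.2) h
    have e3 : t.sum = s.sum :=
      congrArg (fun x : (((ZMod m → ℤ) ⧸ LL m (A m)) × ZMod 2) × ZMod m => x.2) h
    refine Pool.Agent.H916T.isTate_of_W hpm h0 ?_ ?_ fun u => ?_
    · rw [even_iff_two_dvd, ← ZMod.natCast_eq_zero_iff, ← e2, ZMod.natCast_eq_zero_iff,
        ← even_iff_two_dvd]
      exact ht.2.1
    · rw [← e3]; exact ht.2.2.1
    · have h1 := psiT_sum hA hpm u s
      rw [← e1, psiT_sum, ht.W_sum hpm] at h1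
      omega
  · intro h
    exact ⟨s, h, rfl⟩

lemma ct_eq_zero_iff (hA : AdmT p A) (hpm : p.Coprime m) (hm : 2 ≤ m) {s : Multiset (ZMod m)}
    (h0 : (0 : ZMod m) ∉ s) : ct (A m) s = 0 ↔ A m s := by
  have hgood : ∀ s, A m s → (0 : ZMod m) ∉ s ∧ Even (Multiset.card s) := fun s h =>
    ⟨(hA.tate m (NeZero.pos m) hpm s h).1, (hA.tate m (NeZero.pos m) hpm s h).2.1⟩
  constructor
  · intro h
    have e1 : (s.map (cQ m (A m))).sum = 0 :=
      congrArg (fun x : (((ZMod m → ℤ) ⧸ LL m (A m)) × ZMod 2) × ZMod m => x.1.1) h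
    have e2 : ((Multiset.card s : ℕ) : ZMod 2) = 0 :=
      congrArg (fun x : (((ZMod m → ℤ) ⧸ LL m (A m)) × ZMod 2) × ZMod m => x.1.2) h
    rw [ZMod.natCast_eq_zero_iff, ← even_iff_two_dvd] at e2
    by_cases hs : s = 0
    · rw [hs]; exact hA.zero hpm hm
    · rw [cQ_sum, QuotientAddGroup.eq_zero_iff] at e1
      exact hA.gen2 hpm (generated_of_mem_LL hgood (hA.neg m (NeZero.pos m) hpm) h0 e2 hs e1)
  · intro h
    have h1 := hA.tate m (NeZero.pos m) hpm s h
    refine Prod.ext (Prod.ext ?_ ?_) ?_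
    · exact cQ_sum_eq_zero (Generated.ofBase s h)
    · change ((Multiset.card s : ℕ) : ZMod 2) = 0
      rw [ZMod.natCast_eq_zero_iff, ← even_iff_two_dvd]
      exact h1.2.1
    · exact h1.2.2.1

end Basic

section Par

variable {p : ℕ} {m : ℕ} [NeZero m]

/-- the classes of linked residues -/
abbrev Cls (p m : ℕ) : Type := Quot (Link p : ZMod m → ZMod m → Prop)

noncomputable instance : Fintype (Cls p m) :=
  @Fintype.ofFinite _ (Quot.finite _)

open scoped Classical in
/-- the parities -/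
noncomputable def par (p : ℕ) (s : Multiset (ZMod m)) (c : Cls p m) : ZMod 2 :=
  (s.map fun b => if (Quot.mk _ b : Cls p m) = c then (1 : ZMod 2) else 0).sum

lemma par_add (s t : Multiset (ZMod m)) (c : Cls p m) : par p (s + t) c = par p s c + par p t c := by
  unfold par
  rw [Multiset.map_add, Multiset.sum_add]

lemma par_neg {s : Multiset (ZMod m)} (h0 : (0 : ZMod m) ∉ s) (c : Cls p m) :
    par p (s.map Neg.neg) c = par p s c := by
  classical
  unfold par
  rw [Multiset.map_map]
  congr 1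
  refine Multiset.map_congr rfl fun b hb => ?_
  have hb0 : b ≠ 0 := fun h => h0 (h ▸ hb)
  have h1 : (Quot.mk _ (-b) : Cls p m) = Quot.mk _ b :=
    Quot.sound ⟨neg_ne_zero.mpr hb0, hb0, Or.inl (by rw [addOrderOf_neg])⟩
  simp only [Function.comp_apply, h1]

lemma par_sum (s : Multiset (ZMod m)) : ∑ c, par p s c = ((Multiset.card s : ℕ) : ZMod 2) := by
  classical
  induction s using Multiset.induction_on with
  | empty => simp [par]
  | cons a s ih =>
    have h1 : ∀ c, par p (a ::ₘ s) c = (if (Quot.mk _ a : Cls p m) = c then (1 : ZMod 2) else 0) +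
        par p s c := fun c => by
      unfold par
      rw [Multiset.map_cons, Multiset.sum_cons]
    rw [sum_congr rfl fun c _ => h1 c, sum_add_distrib, ih, Multiset.card_cons]
    simp [add_comm]

open scoped Classical in
lemma par_countP (s : Multiset (ZMod m)) (a : ZMod m) :
    par p s (Quot.mk _ a) =
      ((s.countP fun b => Relation.EqvGen (Link p) a b : ℕ) : ZMod 2) := by
  induction s using Multiset.induction_on with
  | empty => simp [par]
  | cons b s ih =>
    unfold par at ih ⊢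
    rw [Multiset.map_cons, Multiset.sum_cons, ih]
    by_cases h : Relation.EqvGen (Link p) a b
    · rw [Multiset.countP_cons_of_pos _ h, if_pos (Quot.eqvGen_sound h).symm]
      push_cast; ring
    · rw [Multiset.countP_cons_of_neg _ h, if_neg, zero_add]
      intro h'
      exact h ((Quot.eqvGen_exact h').symm)

lemma mk_zero_ne {b : ZMod m} (hb : b ≠ 0) : (Quot.mk _ b : Cls p m) ≠ Quot.mk _ 0 := by
  intro h
  have h1 := Quot.eqvGen_exact h
  have h2 : ∀ x y : ZMod m, Relation.EqvGen (Link p) x y → (x = 0 ↔ y = 0) := by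
    intro x y hxy
    induction hxy with
    | rel x y h => exact ⟨fun h' => absurd h' h.1, fun h' => absurd h' h.2.1⟩
    | refl x => exact Iff.rfl
    | symm x y _ ih => exact ih.symm
    | trans x y z _ _ ih1 ih2 => exact ih1.trans ih2
  exact hb ((h2 b 0 h1).mpr rfl)

lemma par_zero {s : Multiset (ZMod m)} (h0 : (0 : ZMod m) ∉ s) : par p s (Quot.mk _ 0) = 0 := by
  classical
  unfold par
  have h1 : s.map (fun b => if (Quot.mk _ b : Cls p m) = Quot.mk _ 0 then (1 : ZMod 2) else 0) =
      s.map fun _ => 0 := by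
    refine Multiset.map_congr rfl fun b hb => if_neg ?_
    exact mk_zero_ne fun h => h0 (h ▸ hb)
  rw [h1]
  simp

/-- the classes of nonzero residues -/
abbrev Cls' (p m : ℕ) : Type := {c : Cls p m // c ≠ Quot.mk _ 0}

/-- the other classes -/
abbrev Cls2 (p m : ℕ) : Type := {c : Cls p m // c ≠ Quot.mk _ 0 ∧ c ≠ Quot.mk _ 1}

lemma card_Cls2 (hm : 2 ≤ m) : Nat.card (Cls2 p m) + 1 = Nat.card (Cls' p m) := by
  classical
  have : Fact (1 < m) := ⟨hm⟩
  have h1 : (Quot.mk _ 1 : Cls p m) ≠ Quot.mk _ 0 := mk_zero_ne one_ne_zero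
  rw [Nat.card_eq_fintype_card, Nat.card_eq_fintype_card, Fintype.card_subtype,
    Fintype.card_subtype]
  have h2 : (univ.filter fun c : Cls p m => c ≠ Quot.mk _ 0) =
      insert (Quot.mk _ 1) (univ.filter fun c : Cls p m => c ≠ Quot.mk _ 0 ∧ c ≠ Quot.mk _ 1) := by
    ext c
    simp only [mem_filter, mem_univ, true_and, mem_insert]
    by_cases hc : c = Quot.mk _ 1
    · subst hc; simp [h1]
    · simp [hc]
  rw [h2, card_insert_of_notMem]
  simp

/-- parities are determined by the other classes -/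
lemma par_eq_zero {s : Multiset (ZMod m)} (h0 : (0 : ZMod m) ∉ s) (heven : Even (Multiset.card s))
    (h : ∀ c : Cls2 p m, par p s c.1 = 0) (c : Cls p m) : par p s c = 0 := by
  classical
  by_cases hc0 : c = Quot.mk _ 0
  · rw [hc0]; exact par_zero h0
  by_cases hc1 : c = Quot.mk _ 1
  · have h1 := par_sum (p := p) s
    have h2 : ((Multiset.card s : ℕ) : ZMod 2) = 0 := by
      rw [ZMod.natCast_eq_zero_iff]; exact even_iff_two_dvd.mp heven
    rw [h2, sum_eq_single (Quot.mk _ 1)] at h1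
    · rw [hc1]; exact h1
    · intro b _ hb
      by_cases hb0 : b = Quot.mk _ 0
      · rw [hb0]; exact par_zero h0
      · exact h ⟨b, hb0, hb⟩
    · intro h'; exact absurd (mem_univ _) h'
  · exact h ⟨c, hc0, hc1⟩

open scoped Classical in
/-- the number of classes -/
lemma card_Cls' (hm : 2 ≤ m) :
    Nat.card (Cls' p m) ≤ 2 ^ (m.primeFactors.filter fun q => q ≠ 2).card := by
  classical
  let key : ZMod m → Finset ℕ := fun a =>
    if 2 ∣ addOrderOf a then ∅ else (addOrderOf a).primeFactors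
  have hkey : ∀ a b : ZMod m, a ≠ 0 → b ≠ 0 → key a = key b →
      (Quot.mk _ a : Cls p m) = Quot.mk _ b := by
    intro a b ha hb h
    refine Quot.sound ⟨ha, hb, ?_⟩
    have hne : ∀ x : ZMod m, x ≠ 0 → (addOrderOf x).primeFactors ≠ ∅ := by
      intro x hx h'
      rcases Nat.primeFactors_eq_empty.mp h' with h1 | h1
      · exact (addOrderOf_pos x).ne' h1
      · exact hx (AddMonoid.addOrderOf_eq_one_iff.mp h1)
    simp only [key] at h
    split_ifs at h with h1 h2 h2
    · exact Or.inr (Or.inl ⟨h1, h2⟩)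
    · exact absurd h.symm (hne b hb)
    · exact absurd h (hne a ha)
    · exact Or.inl h
  have hrep : ∀ c : Cls' p m, ∃ a : ZMod m, a ≠ 0 ∧ (Quot.mk _ a : Cls p m) = c.1 := by
    rintro ⟨c, hc⟩
    obtain ⟨a, rfl⟩ := Quot.exists_rep c
    exact ⟨a, fun h => hc (by rw [h]), rfl⟩
  choose rep hrep0 hrep1 using hrep
  have hmem : ∀ a : ZMod m, key a ∈ (m.primeFactors.filter fun q => q ≠ 2).powerset := by
    intro a
    rw [mem_powerset]
    simp only [key]
    split_ifs with h
    · exact empty_subset _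
    · intro q hq
      have hqd := Nat.dvd_of_mem_primeFactors hq
      have h1 : addOrderOf a ∣ m := by
        have := addOrderOf_dvd_card (x := a)
        rwa [ZMod.card] at this
      refine mem_filter.mpr ⟨Nat.mem_primeFactors.mpr ⟨Nat.prime_of_mem_primeFactors hq,
        hqd.trans h1, NeZero.ne m⟩, ?_⟩
      rintro rfl
      exact h hqd
  have hinj : Function.Injective fun c : Cls' p m =>
      (⟨key (rep c), hmem _⟩ : {S // S ∈ (m.primeFactors.filter fun q => q ≠ 2).powerset}) := by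
    intro c c' h
    have h1 : key (rep c) = key (rep c') := congrArg Subtype.val h
    apply Subtype.ext
    rw [← hrep1 c, ← hrep1 c']
    exact hkey _ _ (hrep0 c) (hrep0 c') h1
  have h1 := Nat.card_le_card_of_injective _ hinj
  refine h1.trans (le_of_eq ?_)
  rw [Nat.card_eq_fintype_card, Fintype.card_coe, card_powerset]

end Par

end Pool.Agent.Q59.RL
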