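import Pool.Agent.Q59.RL.Tate

/-!
# The dyadic law for families of Tate characters: the order of the group of the Tate classes
-/

namespace Pool.Agent.Q59.RL

open Finset Filter Topology Pool.Agent.H916R2 Pool.Agent.Q59.FS
open Pool.Agent.H916T (IsTate SurfaceTate Standard W)
open Pool.Agent.H916Z (Link ZBase)

variable {p : ℕ} {A : ∀ M : ℕ, Multiset (ZMod M) → Prop} {m : ℕ} [NeZero m]

/-- characters with vanishing parities -/
lemma AdmT.of_par (hA : AdmT p A) (hp : p.Prime) (hpm : p.Coprime m) (hm : 2 ≤ m)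
    {s : Multiset (ZMod m)} (hs : IsTate p m s) (h : ∀ c : Cls2 p m, par p s c.1 = 0) : A m s := by
  classical
  refine hA.parity hp hpm hm hs fun a => ?_
  have h1 := par_eq_zero hs.1 hs.2.1 h (Quot.mk _ a)
  rw [par_countP, ZMod.natCast_eq_zero_iff] at h1
  exact even_iff_two_dvd.mpr h1

lemma two_self (x : ZMod 2) : x + x = 0 := by revert x; decide

/-- the group is killed by two -/
lemma TA_two (hA : AdmT p A) (hp : p.Prime) (hpm : p.Coprime m) (hm : 2 ≤ m)
    {x : (((ZMod m → ℤ) ⧸ LL m (A m)) × ZMod 2) × ZMod m} (hx : x ∈ TA p (A m)) : x + x = 0 := by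
  obtain ⟨s, hs, rfl⟩ := (mem_TA hpm).mp hx
  rw [← ct_add]
  have h1 := IsTate.add hs hs
  refine (ct_eq_zero_iff hA hpm hm h1.1).mpr (hA.of_par hp hpm hm h1 fun c => ?_)
  rw [par_add, two_self]

/-- equal parities -/
lemma ct_eq_of_par (hA : AdmT p A) (hp : p.Prime) (hpm : p.Coprime m) (hm : 2 ≤ m)
    {s t : Multiset (ZMod m)} (hs : IsTate p m s) (ht : IsTate p m t)
    (h : ∀ c : Cls2 p m, par p s c.1 = par p t c.1) : ct (A m) s = ct (A m) t := by
  have h1 := IsTate.add hs (ht.neg hpm)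
  have h2 : A m (s + t.map Neg.neg) := hA.of_par hp hpm hm h1 fun c => by
    rw [par_add, par_neg ht.1, h c, two_self]
  have h3 := (ct_eq_zero_iff hA hpm hm h1.1).mpr h2
  rw [ct_add, ct_neg, ← sub_eq_add_neg, sub_eq_zero] at h3
  exact h3

/-- the order of the group -/
theorem card_TA (hA : AdmT p A) (hp : p.Prime) (hpm : p.Coprime m) (hm : 2 ≤ m) :
    ∃ s, s + 1 ≤ Nat.card (Cls' p m) ∧ Nat.card (TA p (A m)) = 2 ^ s := by
  classical
  have hrep : ∀ x : TA p (A m), ∃ s, IsTate p m s ∧ ct (A m) s = x.1 := fun x =>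
    (mem_TA hpm).mp x.2
  choose rep hrep1 hrep2 using hrep
  have hinj : Function.Injective fun (x : TA p (A m)) (c : Cls2 p m) => par p (rep x) c.1 := by
    intro x y h
    apply Subtype.ext
    rw [← hrep2 x, ← hrep2 y]
    exact ct_eq_of_par hA hp hpm hm (hrep1 x) (hrep1 y) fun c => congrFun h c
  have hfin : Finite (TA p (A m)) := Finite.of_injective _ hinj
  have hcard := Nat.card_le_card_of_injective _ hinj
  have hfun : Nat.card (Cls2 p m → ZMod 2) = 2 ^ Nat.card (Cls2 p m) := by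
    rw [Nat.card_fun, Nat.card_zmod]
  rw [hfun] at hcard
  let _ : Module (ZMod 2) (TA p (A m)) := AddCommGroup.zmodModule (n := 2) (fun x => by
    apply Subtype.ext
    rw [two_nsmul]
    exact TA_two hA hp hpm hm x.2)
  have h1 := Module.natCard_eq_pow_finrank (K := ZMod 2) (V := TA p (A m))
  rw [Nat.card_zmod] at h1
  refine ⟨_, ?_, h1⟩
  rw [h1] at hcard
  have h2 := (Nat.pow_le_pow_iff_right (by norm_num : 1 < 2)).mp hcard
  rw [← card_Cls2 hm]
  omega

/-- Frobenius acts trivially on the classes of the multisets of sum zero -/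
lemma cls_frob (hA : AdmT p A) (hp : p.Prime) (hpm : p.Coprime m) (hm : 2 ≤ m)
    {s : Multiset (ZMod m)} (h0 : (0 : ZMod m) ∉ s) (hsum : s.sum = 0) :
    (s.map fun a => cQ m (A m) ((p : ZMod m) * a)).sum = (s.map (cQ m (A m))).sum := by
  have hu := Pool.Agent.H916T.isUnit_p hpm
  set t : Multiset (ZMod m) := s.map fun a => (p : ZMod m) * a with ht
  have ht0 : (0 : ZMod m) ∉ t := by
    intro h
    obtain ⟨b, hb, hb0⟩ := Multiset.mem_map.mp h
    exact h0 ((hu.mul_right_eq_zero.mp hb0) ▸ hb)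
  have htn0 : (0 : ZMod m) ∉ t.map Neg.neg := by
    intro h
    obtain ⟨b, hb, hb0⟩ := Multiset.mem_map.mp h
    exact ht0 (by rwa [neg_eq_zero.mp hb0] at hb)
  have h1 : IsTate p m (s + t.map Neg.neg) := by
    refine Pool.Agent.H916T.isTate_of_W hpm ?_ ?_ ?_ fun u => ?_
    · rw [Multiset.mem_add, not_or]; exact ⟨h0, htn0⟩
    · rw [Multiset.card_add, Multiset.card_map, Multiset.card_map]
      exact ⟨_, rfl⟩
    · rw [Multiset.sum_add, Multiset.sum_map_neg', hsum, ht, Multiset.sum_map_mul_left,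
        Multiset.map_id', hsum]
      simp
    · rw [Multiset.map_add, Multiset.sum_add, Multiset.map_map, ht, Multiset.map_map]
      have h2 : s.map ((fun a => W p ((u : ZMod m) * a)) ∘ Neg.neg ∘ fun a => (p : ZMod m) * a) =
          s.map fun a => - W p ((u : ZMod m) * a) := by
        refine Multiset.map_congr rfl fun a _ => ?_
        simp only [Function.comp_apply]
        rw [mul_neg, Pool.Agent.H916T.W_neg, mul_left_comm, Pool.Agent.H916T.W_mul]
      rw [Function.comp_assoc, h2, Multiset.sum_map_neg]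
      ring
  have hpar : ∀ c : Cls p m, par p t c = par p s c := by
    intro c
    classical
    unfold par
    rw [ht, Multiset.map_map]
    congr 1
    refine Multiset.map_congr rfl fun b hb => ?_
    have hb0 : b ≠ 0 := fun h => h0 (h ▸ hb)
    have h1 : (Quot.mk _ ((p : ZMod m) * b) : Cls p m) = Quot.mk _ b := by
      refine Quot.sound ⟨fun h => hb0 (hu.mul_right_eq_zero.mp h), hb0, Or.inl ?_⟩
      have := order_unit_mul hu.unit b
      rw [IsUnit.unit_spec] at this
      rw [this]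
    simp only [Function.comp_apply, h1]
  have h2 : A m (s + t.map Neg.neg) := hA.of_par hp hpm hm h1 fun c => by
    rw [par_add, par_neg ht0, hpar, two_self]
  have h3 := (ct_eq_zero_iff hA hpm hm h1.1).mpr h2
  rw [ct_add, ct_neg, ← sub_eq_add_neg, sub_eq_zero] at h3
  have e1 : (s.map (cQ m (A m))).sum = (t.map (cQ m (A m))).sum :=
    congrArg (fun x : (((ZMod m → ℤ) ⧸ LL m (A m)) × ZMod 2) × ZMod m => x.1.1) h3
  rw [e1, ht, Multiset.map_map]
  rfl

lemma cls_frob_pow (hA : AdmT p A) (hp : p.Prime) (hpm : p.Coprime m) (hm : 2 ≤ m)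
    {s : Multiset (ZMod m)} (h0 : (0 : ZMod m) ∉ s) (hsum : s.sum = 0) (j : ℕ) :
    (s.map fun a => cQ m (A m) ((p : ZMod m) ^ j * a)).sum = (s.map (cQ m (A m))).sum := by
  have hu := Pool.Agent.H916T.isUnit_p hpm
  induction j with
  | zero => simp
  | succ j ih =>
    rw [← ih]
    have h1 := cls_frob hA hp hpm hm (s := s.map fun a => (p : ZMod m) ^ j * a) (by
      intro h
      obtain ⟨b, hb, hb0⟩ := Multiset.mem_map.mp h
      exact h0 (((hu.pow j).mul_right_eq_zero.mp hb0) ▸ hb)) (by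
      rw [Multiset.sum_map_mul_left, Multiset.map_id', hsum, mul_zero])
    rw [Multiset.map_map, Multiset.map_map] at h1
    have e1 : (fun a => cQ m (A m) ((p : ZMod m) ^ (j + 1) * a)) =
        (fun a => cQ m (A m) ((p : ZMod m) * a)) ∘ fun a => (p : ZMod m) ^ j * a := by
      funext a
      simp only [Function.comp_apply]
      rw [pow_succ', mul_assoc]
    rw [e1]
    exact h1

/-- the averaged relation -/
lemma rel_avg (hpm : p.Coprime m) {s : Multiset (ZMod m)} (hs : IsTate p m s) :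
    ∃ x : ZMod m → ℤ, Rel x ∧ ∀ (Q : Type) [AddCommGroup Q] (c : ZMod m → Q),
      ∑ a, x a • c a = ∑ j ∈ range (orderOf (p : ZMod m)),
        (s.map fun a => c ((p : ZMod m) ^ j * a)).sum := by
  set f := orderOf (p : ZMod m) with hf'
  set u : (ZMod m)ˣ := (Pool.Agent.H916T.isUnit_p hpm).unit with hu
  have hup : ((u : (ZMod m)ˣ) : ZMod m) = p := IsUnit.unit_spec _
  set x : ZMod m → ℤ := fun a => ((s.count a : ℕ) : ℤ) with hx
  refine ⟨avg u f x, ?_, ?_⟩
  · intro t
    have h1 := avg_sum u f x (fun a => saw ((t : ZMod m) * a))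
    simp only [smul_eq_mul] at h1
    rw [h1]
    have h3 := hs.W_sum hpm t
    rw [← sum_count s (fun a => W p ((t : ZMod m) * a))] at h3
    simp only [smul_eq_mul] at h3
    rw [← h3]
    refine sum_congr rfl fun b _ => ?_
    congr 1
    unfold W
    refine sum_congr rfl fun j _ => ?_
    congr 1
    rw [Units.val_pow_eq_pow_val, hup]
    ring
  · intro Q _ c
    rw [avg_sum]
    simp only [smul_sum]
    rw [sum_comm]
    refine sum_congr rfl fun j _ => ?_
    rw [← sum_count s (fun a => c ((p : ZMod m) ^ j * a))]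
    refine sum_congr rfl fun b _ => ?_
    rw [Units.val_pow_eq_pow_val, hup]

/-- the order of the group, if the order of `p` is odd -/
theorem card_TA_odd (hA : AdmT p A) (hp : p.Prime) (hpm : p.Coprime m) (hm : 2 ≤ m)
    (hf : Odd (orderOf (p : ZMod m))) :
    Nat.card (TA p (A m)) ≤ 2 ^ (2 ^ ((levels m).card - 1) - 1) := by
  obtain ⟨s0, hs0, hcard⟩ := card_T (cQ_oddDist (m := m) (base := A m))
  have hfin : Finite (TD (cQ m (A m)) m) := Nat.finite_of_card_ne_zero (by rw [hcard]; positivity)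
  have hmem : ∀ x : TA p (A m), x.1.1.1 ∈ TD (cQ m (A m)) m := by
    rintro ⟨x, hx⟩
    have h2x := TA_two hA hp hpm hm hx
    obtain ⟨s, hs, rfl⟩ := (mem_TA hpm).mp hx
    obtain ⟨y, hy, hy'⟩ := rel_avg hpm hs
    have h1 := hy' _ (cQ m (A m))
    rw [sum_congr rfl fun j _ => cls_frob_pow hA hp hpm hm hs.1 hs.2.2.1 j, sum_const,
      card_range] at h1
    have h2 : (s.map (cQ m (A m))).sum + (s.map (cQ m (A m))).sum = 0 :=
      congrArg (fun x : (((ZMod m → ℤ) ⧸ LL m (A m)) × ZMod 2) × ZMod m => x.1.1) h2x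
    obtain ⟨g, hg⟩ := hf
    rw [hg, add_smul, one_smul, mul_comm, mul_smul, two_nsmul, h2, smul_zero, zero_add] at h1
    change (s.map (cQ m (A m))).sum ∈ TD (cQ m (A m)) m
    rw [← h1]
    refine ⟨y, hy, fun a _ => ?_, rfl⟩
    have := addOrderOf_dvd_card (x := a)
    rw [ZMod.card] at this
    exact Nat.le_of_dvd (NeZero.pos m) this
  have hinj : Function.Injective fun x : TA p (A m) =>
      (⟨x.1.1.1, hmem x⟩ : TD (cQ m (A m)) m) := by
    intro x y h
    have h1 : x.1.1.1 = y.1.1.1 := congrArg Subtype.val h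
    have hz : ∀ x : TA p (A m), x.1.1.2 = 0 ∧ x.1.2 = 0 := by
      rintro ⟨x, hx⟩
      obtain ⟨s, hs, rfl⟩ := (mem_TA hpm).mp hx
      refine ⟨?_, hs.2.2.1⟩
      change ((Multiset.card s : ℕ) : ZMod 2) = 0
      rw [ZMod.natCast_eq_zero_iff, ← even_iff_two_dvd]
      exact hs.2.1
    apply Subtype.ext
    refine Prod.ext (Prod.ext h1 ?_) ?_
    · rw [(hz x).1, (hz y).1]
    · rw [(hz x).2, (hz y).2]
  refine (Nat.card_le_card_of_injective _ hinj).trans ?_
  rw [hcard]
  exact Nat.pow_le_pow_right (by norm_num) hs0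

variable {ι : Type} [Fintype ι] [Nonempty ι]

omit [Fintype ι] [Nonempty ι] in
lemma ct_un {B : Multiset (ZMod m) → Prop} (L : ι → Multiset (ZMod m)) {k : ℕ}
    (w : (Fin k → ι) × (Fin k → ι)) : ct B (un L w) = df (fun i => ct B (L i)) w := by
  unfold un df
  rw [ct_add, ct_neg, ct_sum, ct_sum, sub_eq_add_neg]

/-- **The dyadic law for Tate characters.** -/
theorem dyadic_tate (hA : AdmT p A) (hp : p.Prime) (hpm : p.Coprime m) (hm : 2 ≤ m)
    (L : ι → Multiset (ZMod m)) (hL : ∀ i, (0 : ZMod m) ∉ L i) :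
    ∃ s, s + 1 ≤ Nat.card (Cls' p m) ∧
      (Odd (orderOf (p : ZMod m)) → s ≤ 2 ^ ((levels m).card - 1) - 1) ∧
      (∀ k : ℕ, Nat.card {w : (Fin k → ι) × (Fin k → ι) // IsTate p m (un L w)} ≤
        2 ^ s * Nat.card {w : (Fin k → ι) × (Fin k → ι) // A m (un L w)}) ∧
      Tendsto (fun k : ℕ => (Nat.card {w : (Fin k → ι) × (Fin k → ι) // A m (un L w)} : ℝ) /
        Nat.card {w : (Fin k → ι) × (Fin k → ι) // IsTate p m (un L w)}) atTop (𝓝 (1 / 2 ^ s)) ∧
      (s = 0 ↔ ∀ (k : ℕ) (w : (Fin k → ι) × (Fin k → ι)), IsTate p m (un L w) →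
        A m (un L w)) := by
  set c : ι → (((ZMod m → ℤ) ⧸ LL m (A m)) × ZMod 2) × ZMod m := fun i => ct (A m) (L i) with hc
  obtain ⟨s0, hs0, hcard⟩ := card_TA hA hp hpm hm
  have hfin : Finite (TA p (A m)) := Nat.finite_of_card_ne_zero (by rw [hcard]; positivity)
  have hdvd : Nat.card (TA p (A m) ⊓ CC c : AddSubgroup _) ∣ Nat.card (TA p (A m)) :=
    AddSubgroup.card_dvd_of_le inf_le_left
  rw [hcard] at hdvd
  obtain ⟨s, hs, hs'⟩ := (Nat.dvd_prime_pow Nat.prime_two).mp hdvd
  have e1 : ∀ k, Nat.card {w : (Fin k → ι) × (Fin k → ι) // IsTate p m (un L w)} =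
      Nat.card {w : (Fin k → ι) × (Fin k → ι) // df c w ∈ TA p (A m)} := fun k =>
    Nat.card_congr (Equiv.subtypeEquivRight fun w => by
      rw [← ct_mem_iff hA hpm (un_zero hL w), ct_un])
  have e2 : ∀ k, Nat.card {w : (Fin k → ι) × (Fin k → ι) // A m (un L w)} =
      Nat.card {w : (Fin k → ι) × (Fin k → ι) // df c w = 0} := fun k =>
    Nat.card_congr (Equiv.subtypeEquivRight fun w => by
      rw [← ct_eq_zero_iff hA hpm hm (un_zero hL w), ct_un])
  refine ⟨s, by omega, fun hf => ?_, fun k => ?_, ?_, ?_⟩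
  · have h1 := card_TA_odd hA hp hpm hm hf
    rw [hcard] at h1
    have h2 := (Nat.pow_le_pow_iff_right (by norm_num : 1 < 2)).mp h1
    exact hs.trans h2
  · rw [e1, e2, ← hs']
    exact pairs_le (TA p (A m)) k
  · simp only [e1, e2]
    have h := pairs_ratio (c := c) (TA p (A m))
    rw [hs'] at h
    push_cast at h
    exact h
  · have h1 : s = 0 ↔ TA p (A m) ⊓ CC c = ⊥ := by
      rw [← AddSubgroup.card_eq_one, hs']
      constructor
      · rintro rfl; exact pow_zero 2
      · intro h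
        rcases Nat.eq_zero_or_pos s with h2 | h2
        · exact h2
        · have := Nat.one_lt_two_pow h2.ne'
          omega
    rw [h1, pairs_all]
    refine forall_congr' fun k => forall_congr' fun w => ?_
    rw [← ct_mem_iff hA hpm (un_zero hL w), ← ct_eq_zero_iff hA hpm hm (un_zero hL w), ct_un]

end Pool.Agent.Q59.RL
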