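import Pool.Agent.Q59.RL.Coh
import Pool.Agent.Q59.FS.Main

/-!
# The torsion classes of given order
-/

namespace Pool.Agent.Q59.RL

open Finset Pool.Agent.H916R2 Pool.Agent.Q59.FS

section Card

variable {G : Type*} [CommGroup G]

lemma card_sup {K J : Subgroup G} (h : K ⊓ J = ⊥) :
    Nat.card (K ⊔ J : Subgroup G) = Nat.card K * Nat.card J := by
  have h1 := Subgroup.relIndex_mul_relIndex ⊥ K (K ⊔ J) bot_le le_sup_left
  rw [Subgroup.relIndex_bot_left, Subgroup.relIndex_bot_left, Subgroup.relIndex_sup_left] at h1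
  rw [← h1, ← Subgroup.inf_relIndex_right, h, Subgroup.relIndex_bot_left]

lemma card_jn {P : List (Subgroup G)} (hP : Ind P) :
    Nat.card (jn P) = (P.map fun K : Subgroup G => Nat.card K).prod := by
  induction P with
  | nil => simp [jn]
  | cons K P ih =>
    rw [List.map_cons, List.prod_cons, ← ih hP.2]
    exact card_sup hP.1

end Card

/-- the orders with torsion: products of odd primes and `4` -/
def Gd (d : ℕ) : Prop := (∀ p, p.Prime → p ≠ 2 → ¬ p * p ∣ d) ∧ d % 8 ≠ 0 ∧ d % 4 ≠ 2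

lemma prod_not_sq {S : Finset ℕ} (hS : ∀ q ∈ S, q.Prime) {p : ℕ} (hp : p.Prime) :
    ¬ p * p ∣ ∏ q ∈ S, q := by
  intro h
  have h1 : ∀ T : Finset ℕ, (∀ q ∈ T, q.Prime) → p ∣ ∏ q ∈ T, q → p ∈ T := by
    intro T hT h2
    obtain ⟨q, hq, hpq⟩ := (Nat.Prime.prime hp).exists_mem_finset_dvd h2
    rwa [(Nat.prime_dvd_prime_iff_eq hp (hT q hq)).mp hpq]
  have h2 : p ∈ S := h1 S hS ((dvd_mul_right p p).trans h)
  rw [← mul_prod_erase S _ h2] at h
  have h3 := Nat.dvd_of_mul_dvd_mul_left hp.pos h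
  exact notMem_erase p S (h1 _ (fun q hq => hS q (mem_of_mem_erase hq)) h3)

lemma gd_of_dvd {d : ℕ} (hd4 : d % 4 ≠ 2) (h : d ∣ 2 * ∏ q ∈ d.primeFactors, q) : Gd d := by
  have hS : ∀ q ∈ d.primeFactors, q.Prime := fun q hq => Nat.prime_of_mem_primeFactors hq
  refine ⟨fun p hp hp2 h1 => ?_, fun h8 => ?_, hd4⟩
  · have h2 : (p * p).Coprime 2 := by
      have : p.Coprime 2 := (Nat.coprime_primes hp Nat.prime_two).mpr hp2
      exact Nat.Coprime.mul_left this this
    exact prod_not_sq hS hp (h2.dvd_of_dvd_mul_left (h1.trans h))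
  · have h1 : 2 * (2 * 2) ∣ 2 * ∏ q ∈ d.primeFactors, q :=
      (Nat.dvd_of_mod_eq_zero (by norm_num; exact h8)).trans h
    exact prod_not_sq hS Nat.prime_two (Nat.dvd_of_mul_dvd_mul_left (by norm_num) h1)

lemma Gd.not_dvd {d ℓ n : ℕ} (hd : Gd d) (hℓ : ℓ.Prime) (hℓd : ℓ ∣ d) (hn : ℓ.Coprime n) :
    ¬ d ∣ 2 * n := by
  intro h
  by_cases h2 : ℓ = 2
  · subst h2
    have h4 : 2 * 2 ∣ 2 * n := by
      refine dvd_trans ?_ h
      have := hd.2.2
      omega
    have h5 := Nat.dvd_of_mul_dvd_mul_left (by norm_num) h4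
    exact (Nat.Prime.coprime_iff_not_dvd hℓ).mp hn h5
  · have h3 : ℓ ∣ 2 * n := hℓd.trans h
    rcases (Nat.Prime.dvd_mul hℓ).mp h3 with h4 | h4
    · exact h2 ((Nat.prime_dvd_prime_iff_eq hℓ Nat.prime_two).mp h4)
    · exact (Nat.Prime.coprime_iff_not_dvd hℓ).mp hn h4

lemma Gd.factorization {d : ℕ} (hd : Gd d) (hd0 : d ≠ 0) {p : ℕ} (hp : p ∈ d.primeFactors) :
    d.factorization p = if p = 2 then 2 else 1 := by
  have hpp := Nat.prime_of_mem_primeFactors hp
  have hpd := Nat.dvd_of_mem_primeFactors hp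
  have h1 : ∀ k, p ^ k ∣ d ↔ k ≤ d.factorization p := fun k =>
    hpp.pow_dvd_iff_le_factorization hd0
  split_ifs with h2
  · subst h2
    have h3 : 2 ^ 2 ∣ d := by
      have := hd.2.2
      omega
    have h4 : ¬ 2 ^ 3 ∣ d := by
      intro h
      exact hd.2.1 (Nat.mod_eq_zero_of_dvd (by simpa using h))
    rw [h1] at h3 h4
    omega
  · have h3 : p ^ 1 ∣ d := by rwa [pow_one]
    have h4 : ¬ p ^ 2 ∣ d := by rw [sq]; exact hd.1 p hpp h2
    rw [h1] at h3 h4
    omega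

lemma Gd.eq_prod {d : ℕ} (hd : Gd d) (hd0 : d ≠ 0) : d = ∏ p ∈ d.primeFactors, pp p := by
  conv_lhs => rw [← Nat.prod_factorization_pow_eq_self hd0]
  rw [Finsupp.prod, Nat.support_factorization]
  refine prod_congr rfl fun p hp => ?_
  rw [hd.factorization hd0 hp]
  unfold pp
  split_ifs with h
  · subst h; norm_num
  · rw [pow_one]

/-- the list of the subgroups -/
noncomputable def PL (d : ℕ) : List (Subgroup (ZMod d)ˣ) := d.primeFactors.toList.map (KL d)

lemma ind_PL (d : ℕ) : Ind (PL d) :=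
  ind_KL d (fun p hp => Nat.prime_of_mem_primeFactors (mem_toList.mp hp)) (nodup_toList _)

lemma jn_PL_le (d : ℕ) : jn (PL d) ≤ KL d (∏ q ∈ d.primeFactors, q) := by
  have := jn_KL_le d d.primeFactors.toList
  rwa [prod_toList] at this

lemma Gd.jn_eq_top {d : ℕ} [NeZero d] (hd : Gd d) : jn (PL d) = ⊤ := by
  have hd0 : d ≠ 0 := NeZero.ne d
  apply Subgroup.eq_top_of_card_eq
  rw [card_jn (ind_PL d), PL, List.map_map, Nat.card_eq_fintype_card, ZMod.card_units_eq_totient,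
    Nat.totient_eq_prod_factorization hd0, Finsupp.prod, Nat.support_factorization]
  have h1 : (d.primeFactors.toList.map ((fun K : Subgroup (ZMod d)ˣ => Nat.card K) ∘ KL d)).prod =
      ∏ p ∈ d.primeFactors, Nat.card (KL d p) := prod_map_toList _ _
  rw [h1]
  refine prod_congr rfl fun p hp => ?_
  have hpp := Nat.prime_of_mem_primeFactors hp
  obtain ⟨d', hd'⟩ := Nat.dvd_of_mem_primeFactors hp
  rw [hd.factorization hd0 hp, KL_eq_KK hpp.pos hd'.symm]
  split_ifs with h2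
  · subst h2
    rw [card_KK_dvd Nat.prime_two hd'.symm]
    · norm_num
    · have := hd.2.2
      omega
  · rw [card_KK_not_dvd hpp hd'.symm]
    · simp
    · intro h
      apply hd.1 p hpp h2
      rw [hd']
      exact Nat.mul_dvd_mul_left p h

lemma neg_one_mem_KL {d n : ℕ} : (-1 : (ZMod d)ˣ) ∈ KL d n ↔ d ∣ 2 * n := by
  rw [mem_KL, Units.val_neg, Units.val_one, mul_neg, mul_one, neg_eq_iff_add_eq_zero,
    ← ZMod.natCast_eq_zero_iff]
  push_cast
  rw [two_mul]

lemma ch_KL {d : ℕ} : ∀ (L : List ℕ) (B : Subgroup (ZMod d)ˣ) (b : ℕ), B ≤ KL d b →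
    (∀ ℓ ∈ L, ℓ.Prime ∧ ℓ.Coprime b) → L.Nodup →
    (∀ ℓ ∈ L, ∀ n, ℓ.Coprime n → ¬ d ∣ 2 * n) → B ⊔ jn (L.map (KL d)) = ⊤ →
    Ch (-1 : (ZMod d)ˣ) B (L.map (KL d)) := by
  intro L
  induction L with
  | nil =>
    intro B b _ _ _ _ h
    have h' : B ⊔ ⊥ = ⊤ := h
    rwa [sup_bot_eq] at h'
  | cons ℓ L ih =>
    intro B b hB hL hnd hn htop
    obtain ⟨hℓ, hℓb⟩ := hL ℓ (List.mem_cons_self ..)
    have hle : B ⊔ jn (L.map (KL d)) ≤ KL d (b * L.prod) := by
      refine sup_le (hB.trans (KL_le_mul d b _)) ((jn_KL_le d L).trans ?_)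
      rw [mul_comm]
      exact KL_le_mul d _ _
    have hcop : ℓ.Coprime (b * L.prod) := by
      refine Nat.Coprime.mul_right hℓb ?_
      rw [Nat.Prime.coprime_iff_not_dvd hℓ]
      intro h
      obtain ⟨p, hp, hap⟩ := (Nat.Prime.prime hℓ).dvd_prod_iff.mp h
      have h2 : ℓ = p := (Nat.prime_dvd_prime_iff_eq hℓ
        (hL p (List.mem_cons_of_mem _ hp)).1).mp hap
      exact (List.nodup_cons.mp hnd).1 (h2 ▸ hp)
    refine ⟨?_, ?_, ?_⟩
    · rw [eq_bot_iff, ← KL_inf hcop]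
      exact inf_le_inf_left _ hle
    · intro h
      exact hn ℓ (List.mem_cons_self ..) _ hcop (neg_one_mem_KL.mp (hle h))
    · refine ih (B ⊔ KL d ℓ) (b * ℓ) ?_ ?_ (List.nodup_cons.mp hnd).2
        (fun p hp => hn p (List.mem_cons_of_mem _ hp)) ?_
      · refine sup_le (hB.trans (KL_le_mul d b _)) ?_
        rw [mul_comm]
        exact KL_le_mul d _ _
      · intro p hp
        obtain ⟨hpp, hpb⟩ := hL p (List.mem_cons_of_mem _ hp)
        refine ⟨hpp, Nat.Coprime.mul_right hpb ((Nat.coprime_primes hpp hℓ).mpr ?_)⟩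
        rintro rfl
        exact (List.nodup_cons.mp hnd).1 hp
      · rw [← htop, List.map_cons, jn, sup_assoc]

lemma Gd.ch {d : ℕ} [NeZero d] (hd : Gd d) : Ch (-1 : (ZMod d)ˣ) ⊥ (PL d) := by
  have hS : ∀ q ∈ d.primeFactors.toList, q.Prime := fun q hq =>
    Nat.prime_of_mem_primeFactors (mem_toList.mp hq)
  refine ch_KL _ ⊥ 1 bot_le (fun ℓ hℓ => ⟨hS ℓ hℓ, Nat.coprime_one_right ℓ⟩) (nodup_toList _)
    (fun ℓ hℓ n hn => hd.not_dvd (hS ℓ hℓ) (Nat.dvd_of_mem_primeFactors (mem_toList.mp hℓ)) hn) ?_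
  rw [bot_sup_eq]
  exact hd.jn_eq_top

/-- the torsion classes of order `d` -/
theorem classes {d : ℕ} [NeZero d] :
    ((Gd d ∧ Even d.primeFactors.card) → Two (-1 : (ZMod d)ˣ) 1 ⊥ (PL d)) ∧
    (¬ (Gd d ∧ Even d.primeFactors.card) → One (-1 : (ZMod d)ˣ) 1 ⊥ (PL d)) := by
  have he2 : (-1 : (ZMod d)ˣ) * -1 = 1 := by simp
  constructor
  · rintro ⟨h, _⟩
    exact (chain he2 (PL d) ⊥ 1 (by norm_num) h.ch).1
  · intro h
    by_cases hG : Gd d
    · have hodd : Odd d.primeFactors.card := by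
        rw [← Nat.not_even_iff_odd]
        exact fun h' => h ⟨hG, h'⟩
      refine (chain he2 (PL d) ⊥ 1 (by norm_num) hG.ch).2 ?_
      rw [PL, List.length_map, length_toList, mul_one, hodd.neg_one_pow]
    · intro x hx
      by_cases hd4 : d % 4 = 2
      · refine ⟨x, fun _ => 0, ?_, hx.1, fun _ _ _ => rfl, fun u => by ring⟩
        refine II_of_bot ?_ x
        have h2 : 2 * (d / 2) = d := by omega
        have h3 : KL d 2 = ⊥ := by
          rw [KL_eq_KK two_pos h2]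
          apply Subgroup.card_eq_one.mp
          rw [card_KK_not_dvd Nat.prime_two h2 (by omega)]
        rw [PL, ← h3]
        refine List.mem_map.mpr ⟨2, mem_toList.mpr ?_, rfl⟩
        exact Nat.mem_primeFactors.mpr ⟨Nat.prime_two, Dvd.intro _ h2, NeZero.ne d⟩
      · refine tr_of_not_mem ?_ he2 hx
        rw [bot_sup_eq]
        intro h1
        exact hG (gd_of_dvd hd4 (neg_one_mem_KL.mp (jn_PL_le d h1)))

section Down

variable {m R d : ℕ} [NeZero m] [NeZero d]

omit [NeZero m] in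
lemma push_ne {ι : Type*} [Fintype ι] {g : ι → ZMod m} {h : ι → ℤ} {a : ZMod m}
    (ha : push g h a ≠ 0) : ∃ i, g i = a := by
  classical
  by_contra hcon
  push Not at hcon
  apply ha
  unfold push
  exact sum_eq_zero fun i _ => if_neg (hcon i)

/-- invariant functions descend -/
lemma inv_down (hR : R * d = m) {ℓ : ℕ} (hℓ : ℓ.Prime) (hℓd : ℓ ∣ d) {k : (ZMod d)ˣ → ℤ}
    (hk : Inv (KL d ℓ) k) : ∃ y : ZMod m → ℤ, (∀ a, y a ≠ 0 → addOrderOf a < d) ∧
      ∀ (Q : Type) [AddCommGroup Q] (c : ZMod m → Q), OddDist c →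
        ∑ a, y a • c a = ∑ u : (ZMod d)ˣ, k u • c (iota R (u : ZMod d)) := by
  classical
  obtain ⟨d', hd'⟩ := hℓd
  have hd'0 : 0 < d' := Nat.pos_of_ne_zero (by rintro rfl; rw [mul_zero] at hd'; exact NeZero.ne d hd')
  have : NeZero d' := ⟨hd'0.ne'⟩
  have h : ℓ * d' = d := hd'.symm
  have hRℓ : R * ℓ * d' = m := by rw [mul_assoc, h, hR]
  have hlt : d' < d := by
    rw [← h]
    exact lt_mul_of_one_lt_left hd'0 hℓ.one_lt
  set T : ℤ := if ℓ.Coprime d' then 1 else 0 with hT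
  set k' : (ZMod d')ˣ → ℤ := fun v => k (sec h v) with hk'
  refine ⟨fun a => push (fun v : (ZMod d')ˣ => iota (R * ℓ) (v : ZMod d')) k' a -
    T * push (g3 R ℓ d' m) k' a, ?_, ?_⟩
  · intro a ha
    by_cases h1 : push (fun v : (ZMod d')ˣ => iota (R * ℓ) (v : ZMod d')) k' a = 0
    · beta_reduce at ha
      rw [h1, zero_sub, neg_ne_zero] at ha
      have hT1 : T ≠ 0 := left_ne_zero_of_mul ha
      have hcop : ℓ.Coprime d' := by
        by_contra hcon
        rw [hT, if_neg hcon] at hT1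
        exact hT1 rfl
      obtain ⟨v, hv⟩ := push_ne (right_ne_zero_of_mul ha)
      rw [← hv]
      unfold g3
      rw [dif_pos hcop, addOrderOf_iota_unit hRℓ]
      exact hlt
    · obtain ⟨v, hv⟩ := push_ne h1
      rw [← hv]
      rw [addOrderOf_iota_unit hRℓ]
      exact hlt
  · intro Q _ c hc
    rw [push_rel hR hℓ h hc (k := k) (fun κ hκ u => hk κ (by rw [KL_eq_KK hℓ.pos h]; exact hκ) u)]
    simp only [sub_smul, mul_smul]
    rw [sum_sub_distrib, ← smul_sum, push_sum, push_sum, hT]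
    congr 1
    split_ifs
    · rw [one_smul]
    · rw [zero_smul]

/-- sums of invariant functions descend -/
lemma dec_down (hR : R * d = m) : ∀ (L : List ℕ), (∀ ℓ ∈ L, ℓ.Prime ∧ ℓ ∣ d) →
    ∀ {k : (ZMod d)ˣ → ℤ}, Dec (L.map (KL d)) k →
    ∃ y : ZMod m → ℤ, (∀ a, y a ≠ 0 → addOrderOf a < d) ∧
      ∀ (Q : Type) [AddCommGroup Q] (c : ZMod m → Q), OddDist c →
        ∑ a, y a • c a = ∑ u : (ZMod d)ˣ, k u • c (iota R (u : ZMod d)) := by
  intro L
  induction L with
  | nil =>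
    intro _ k hk
    refine ⟨fun _ => 0, fun a ha => absurd rfl ha, fun Q _ c _ => ?_⟩
    have hk' : ∀ u, k u = 0 := hk
    simp [hk']
  | cons ℓ L ih =>
    intro hL k hk
    obtain ⟨α, hα, hrest⟩ := hk
    obtain ⟨hℓ, hℓd⟩ := hL ℓ (List.mem_cons_self ..)
    obtain ⟨y1, h1, h2⟩ := inv_down hR hℓ hℓd hα
    obtain ⟨y2, h3, h4⟩ := ih (fun p hp => hL p (List.mem_cons_of_mem _ hp)) hrest
    refine ⟨fun a => y1 a + y2 a, fun a ha => ?_, fun Q _ c hc => ?_⟩
    · by_cases h5 : y1 a = 0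
      · refine h3 a ?_
        intro h6
        apply ha
        beta_reduce
        rw [h5, h6, add_zero]
      · exact h1 a h5
    · simp only [add_smul]
      rw [sum_add_distrib, h2 Q c hc, h4 Q c hc, ← sum_add_distrib]
      refine sum_congr rfl fun u _ => ?_
      rw [← add_smul]
      congr 1
      ring

/-- **The descent.** -/
theorem descend (hR : R * d = m) {x : ZMod m → ℤ} (htop : ∀ a, od x a ≠ 0 → addOrderOf a ≤ d)
    (hTr : Tr (-1 : (ZMod d)ˣ) 1 ⊥ (PL d) (fun u => x (iota R (u : ZMod d)))) :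
    ∃ x' : ZMod m → ℤ, (∀ a, od x' a ≠ 0 → addOrderOf a < d) ∧
      ∀ (Q : Type) [AddCommGroup Q] (c : ZMod m → Q), OddDist c →
        ∑ a, x' a • c a = ∑ a, x a • c a := by
  classical
  obtain ⟨i, z, hi, _, _, hx⟩ := hTr
  obtain ⟨y, hy1, hy2⟩ := dec_down hR _ (fun ℓ hℓ =>
    ⟨Nat.prime_of_mem_primeFactors (mem_toList.mp hℓ),
      Nat.dvd_of_mem_primeFactors (mem_toList.mp hℓ)⟩) (dec_of_II (ind_PL d) hi)
  refine ⟨fun a => (if addOrderOf a = d then 0 else x a) + y a, ?_, ?_⟩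
  · intro a ha
    by_contra hcon
    push Not at hcon
    apply ha
    have e1 : y a = 0 := by
      by_contra h
      have := hy1 a h
      omega
    have e2 : y (-a) = 0 := by
      by_contra h
      have := hy1 _ h
      rw [addOrderOf_neg] at this
      omega
    unfold od
    beta_reduce
    rw [e1, e2, addOrderOf_neg]
    split_ifs with h
    · rfl
    · have h1 : od x a = 0 := by
        by_contra h1
        have := htop a h1
        omega
      unfold od at h1
      linarith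
  · intro Q _ c hc
    have h1 : ∑ a, (if addOrderOf a = d then 0 else x a) • c a +
        ∑ u : (ZMod d)ˣ, x (iota R (u : ZMod d)) • c (iota R (u : ZMod d)) = ∑ a, x a • c a := by
      rw [← sum_order hR (fun a => x a • c a), sum_filter, ← sum_add_distrib]
      refine sum_congr rfl fun a _ => ?_
      split_ifs
      · rw [zero_smul, zero_add]
      · rw [add_zero]
    have h2 : ∑ u : (ZMod d)ˣ, x (iota R (u : ZMod d)) • c (iota R (u : ZMod d)) =
        ∑ u : (ZMod d)ˣ, i u • c (iota R (u : ZMod d)) := by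
      have h3 : ∑ u : (ZMod d)ˣ, z (-1 * u) • c (iota R (u : ZMod d)) =
          - ∑ u : (ZMod d)ˣ, z u • c (iota R (u : ZMod d)) := by
        rw [← sum_neg_distrib]
        refine Fintype.sum_equiv (Equiv.neg _) _ _ fun u => ?_
        simp only [Equiv.neg_apply, neg_one_mul]
        rw [Units.val_neg, iota_neg hR, hc.neg, smul_neg, neg_neg]
      have h4 : ∀ u : (ZMod d)ˣ, x (iota R (u : ZMod d)) • c (iota R (u : ZMod d)) =
          i u • c (iota R (u : ZMod d)) + (z u • c (iota R (u : ZMod d)) +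
            z (-1 * u) • c (iota R (u : ZMod d))) := by
        intro u
        have := hx u
        beta_reduce at this
        rw [← add_smul, ← add_smul, this, one_mul]
      rw [sum_congr rfl fun u _ => h4 u, sum_add_distrib, sum_add_distrib, h3, add_neg_cancel,
        add_zero]
    rw [← h1, h2, ← hy2 Q c hc, ← sum_add_distrib]
    exact sum_congr rfl fun a _ => add_smul _ _ _

/-- relations give cocycles -/
lemma cy_of_rel (hR : R * d = m) {x : ZMod m → ℤ} (hx : Rel x)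
    (htop : ∀ a, od x a ≠ 0 → addOrderOf a ≤ d) :
    Cy (-1 : (ZMod d)ˣ) 1 ⊥ (PL d) (fun u => x (iota R (u : ZMod d))) := by
  constructor
  · intro κ hκ u
    rw [Subgroup.mem_bot] at hκ
    rw [hκ, mul_one]
  · intro u
    have h := top_LB hR hx htop (L := d.primeFactors.toList) (fun ℓ hℓ hℓd => by
      rw [mem_toList]
      exact Nat.mem_primeFactors.mpr ⟨hℓ, hℓd, NeZero.ne d⟩) u
    refine h.congr fun v _ => ?_
    simp only [Pool.Agent.Q59.FS.TT, od, one_mul, neg_one_mul]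
    rw [Units.val_neg, iota_neg hR]

end Down

end Pool.Agent.Q59.RL
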