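import Pool.Agent.Q59.RL.Top

/-!
# The order of the group of torsion classes
-/

namespace Pool.Agent.Q59.RL

open Finset Pool.Agent.H916R2 Pool.Agent.Q59.FS

section Two

variable {Q : Type*} [AddCommGroup Q]

lemma card_step {A B : AddSubgroup Q} (hAB : A ≤ B)
    (h : ∀ x ∈ B, ∀ y ∈ B, x ∈ A ∨ y ∈ A ∨ x - y ∈ A) :
    Nat.card B = Nat.card A ∨ Nat.card B = 2 * Nat.card A := by
  by_cases hBA : B ≤ A
  · left
    rw [le_antisymm hBA hAB]
  · right
    obtain ⟨b0, hb0, hb0'⟩ := SetLike.not_le_iff_exists.mp hBA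
    have h1 : A.relIndex B = 2 := by
      rw [AddSubgroup.relIndex_eq_two_iff_exists_notMem_and']
      refine ⟨-b0, B.neg_mem hb0, fun h => hb0' (neg_mem_iff.mp h), fun b hb => ?_⟩
      rcases h b0 hb0 b hb with h2 | h2 | h2
      · exact absurd h2 hb0'
      · exact Or.inr h2
      · left
        have := A.neg_mem h2
        rwa [neg_sub, sub_eq_neg_add] at this
    have h2 := AddSubgroup.relIndex_mul_relIndex ⊥ A B bot_le hAB
    rw [AddSubgroup.relIndex_bot_left, AddSubgroup.relIndex_bot_left, h1] at h2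
    rw [← h2, mul_comm]

end Two

section Rel

variable {m : ℕ} [NeZero m]

lemma rel_sub {x y : ZMod m → ℤ} (hx : Rel x) (hy : Rel y) : Rel (fun a => x a - y a) := by
  intro t
  simp only [sub_mul]
  rw [sum_sub_distrib, hx t, hy t, sub_zero]

lemma rel_zero : Rel (fun _ : ZMod m => (0 : ℤ)) := by intro t; simp

lemma rel_neg {x : ZMod m → ℤ} (hx : Rel x) : Rel (fun a => - x a) := by
  have := rel_sub rel_zero hx
  simpa using this

lemma rel_add {x y : ZMod m → ℤ} (hx : Rel x) (hy : Rel y) : Rel (fun a => x a + y a) := by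
  have := rel_sub hx (rel_neg hy)
  simpa using this

variable {Q : Type} [AddCommGroup Q]

/-- the classes of the relations of bounded order -/
def TD (c : ZMod m → Q) (D : ℕ) : AddSubgroup Q where
  carrier := {q | ∃ x : ZMod m → ℤ, Rel x ∧ (∀ a, od x a ≠ 0 → addOrderOf a ≤ D) ∧
    ∑ a, x a • c a = q}
  zero_mem' := ⟨fun _ => 0, rel_zero, fun a h => absurd (by simp [od]) h, by simp⟩
  add_mem' := by
    rintro _ _ ⟨x, hx, hx', rfl⟩ ⟨y, hy, hy', rfl⟩
    refine ⟨fun a => x a + y a, rel_add hx hy, fun a ha => ?_, ?_⟩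
    · by_contra hcon
      apply ha
      have h1 : od x a = 0 := by
        by_contra h
        exact hcon (hx' a h)
      have h2 : od y a = 0 := by
        by_contra h
        exact hcon (hy' a h)
      unfold od at h1 h2 ⊢
      linarith
    · simp only [add_smul]
      rw [sum_add_distrib]
  neg_mem' := by
    rintro _ ⟨x, hx, hx', rfl⟩
    refine ⟨fun a => - x a, rel_neg hx, fun a ha => ?_, ?_⟩
    · apply hx'
      intro h
      apply ha
      unfold od at h ⊢
      linarith
    · simp only [neg_smul]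
      rw [sum_neg_distrib]

lemma mem_TD {c : ZMod m → Q} {D : ℕ} {q : Q} : q ∈ TD c D ↔ ∃ x : ZMod m → ℤ, Rel x ∧
    (∀ a, od x a ≠ 0 → addOrderOf a ≤ D) ∧ ∑ a, x a • c a = q := Iff.rfl

lemma TD_mono {c : ZMod m → Q} {D D' : ℕ} (h : D ≤ D') : TD c D ≤ TD c D' := by
  rintro q ⟨x, hx, hx', hq⟩
  exact ⟨x, hx, fun a ha => (hx' a ha).trans h, hq⟩

lemma TD_zero {c : ZMod m → Q} (hc : OddDist c) : TD c 0 = ⊥ := by
  rw [eq_bot_iff]
  rintro q ⟨x, _, hx', rfl⟩
  rw [AddSubgroup.mem_bot]
  refine even_kill (fun a => ?_) hc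
  have h1 : od x a = 0 := by
    by_contra h
    have := hx' a h
    have := addOrderOf_pos a
    omega
  unfold od at h1
  linarith

/-- the orders which contribute -/
def GG (m d : ℕ) : Prop := d ∣ m ∧ d ≠ 1 ∧ Gd d ∧ Even d.primeFactors.card

lemma TD_succ {c : ZMod m → Q} (hc : OddDist c) (D : ℕ) :
    (¬ GG m (D + 1) → TD c (D + 1) = TD c D) ∧
    (∀ x ∈ TD c (D + 1), ∀ y ∈ TD c (D + 1), x ∈ TD c D ∨ y ∈ TD c D ∨ x - y ∈ TD c D) := by
  by_cases hdm : D + 1 ∣ m
  · obtain ⟨R, hR0⟩ := hdm
    have hR : R * (D + 1) = m := by rw [hR0, mul_comm]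
    -- the reduction
    have red : ∀ x : ZMod m → ℤ, Rel x → (∀ a, od x a ≠ 0 → addOrderOf a ≤ D + 1) →
        Tr (-1 : (ZMod (D + 1))ˣ) 1 ⊥ (PL (D + 1)) (fun u => x (iota R (u : ZMod (D + 1)))) →
        ∑ a, x a • c a ∈ TD c D := by
      intro x hx hx' hT
      obtain ⟨x', h1, h2⟩ := descend hR hx' hT
      exact ⟨x', rel_of_eq hx h2, fun a ha => Nat.lt_succ_iff.mp (h1 a ha), h2 Q c hc⟩
    obtain ⟨c1, c2⟩ := classes (d := D + 1)
    constructor
    · intro hG
      refine le_antisymm ?_ (TD_mono (Nat.le_succ D))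
      rintro q ⟨x, hx, hx', rfl⟩
      by_cases hD : D = 0
      · subst hD
        refine ⟨x, hx, fun a ha => ?_, rfl⟩
        exfalso
        have h1 := hx' a ha
        have h2 := addOrderOf_pos a
        have h3 : addOrderOf a = 1 := by omega
        rw [AddMonoid.addOrderOf_eq_one_iff] at h3
        apply ha
        unfold od
        rw [h3, neg_zero, sub_self]
      · refine red x hx hx' (c2 ?_ _ (cy_of_rel hR hx hx'))
        rintro ⟨h1, h2⟩
        exact hG ⟨⟨R, hR0⟩, by omega, h1, h2⟩
    · rintro _ ⟨x, hx, hx', rfl⟩ _ ⟨y, hy, hy', rfl⟩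
      have hsub : ∑ a, x a • c a - ∑ a, y a • c a = ∑ a, (x a - y a) • c a := by
        simp only [sub_smul]
        rw [sum_sub_distrib]
      have hsub' : ∀ a, od (fun a => x a - y a) a ≠ 0 → addOrderOf a ≤ D + 1 := by
        intro a ha
        by_contra hcon
        apply ha
        have h1 : od x a = 0 := by
          by_contra h
          exact hcon (hx' a h)
        have h2 : od y a = 0 := by
          by_contra h
          exact hcon (hy' a h)
        unfold od at h1 h2 ⊢
        linarith
      by_cases hG : Gd (D + 1) ∧ Even (D + 1).primeFactors.card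
      · rcases c1 hG _ _ (cy_of_rel hR hx hx') (cy_of_rel hR hy hy') with h | h | h
        · exact Or.inl (red x hx hx' h)
        · exact Or.inr (Or.inl (red y hy hy' h))
        · rw [hsub]
          exact Or.inr (Or.inr (red _ (rel_sub hx hy) hsub' h))
      · exact Or.inl (red x hx hx' (c2 hG _ (cy_of_rel hR hx hx')))
  · have key : TD c (D + 1) = TD c D := by
      refine le_antisymm ?_ (TD_mono (Nat.le_succ D))
      rintro q ⟨x, hx, hx', hq⟩
      refine ⟨x, hx, fun a ha => ?_, hq⟩
      have h1 := hx' a ha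
      have h2 : addOrderOf a ∣ m := by
        have := addOrderOf_dvd_card (x := a)
        rwa [ZMod.card] at this
      by_contra hcon
      have h3 : addOrderOf a = D + 1 := by omega
      exact hdm (h3 ▸ h2)
    exact ⟨fun _ => key, fun x hx _ _ => Or.inl (key ▸ hx)⟩

open scoped Classical in
theorem card_TD {c : ZMod m → Q} (hc : OddDist c) (D : ℕ) :
    ∃ s ≤ ((range (D + 1)).filter (GG m)).card, Nat.card (TD c D) = 2 ^ s := by
  induction D with
  | zero =>
    refine ⟨0, Nat.zero_le _, ?_⟩
    rw [TD_zero hc]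
    simp
  | succ D ih =>
    obtain ⟨s, hs, hs'⟩ := ih
    obtain ⟨h1, h2⟩ := TD_succ hc D
    by_cases hG : GG m (D + 1)
    · have hcard : ((range (D + 1 + 1)).filter (GG m)).card =
          ((range (D + 1)).filter (GG m)).card + 1 := by
        rw [range_add_one, filter_insert, if_pos hG, card_insert_of_notMem]
        simp
      rcases card_step (TD_mono (Nat.le_succ D)) h2 with h | h
      · exact ⟨s, by omega, by rw [h, hs']⟩
      · exact ⟨s + 1, by omega, by rw [h, hs', pow_succ, mul_comm]⟩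
    · refine ⟨s, ?_, by rw [h1 hG, hs']⟩
      refine hs.trans (card_le_card ?_)
      intro d hd
      rw [mem_filter, mem_range] at hd ⊢
      exact ⟨by omega, hd.2⟩

end Rel

section Count

/-- the odd primes dividing `m`, and `2` if `4` divides `m` -/
def levels (m : ℕ) : Finset ℕ := m.primeFactors.filter fun p => p ≠ 2 ∨ 4 ∣ m

lemma card_even_powerset {L : Finset ℕ} (hL : L.Nonempty) :
    2 * (L.powerset.filter fun S => Even S.card).card = 2 ^ L.card := by
  have h1 := Finset.sum_powerset_neg_one_pow_card_of_nonempty hL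
  have h2 : ∀ S ∈ L.powerset, ((-1 : ℤ)) ^ S.card = 2 * (if Even S.card then 1 else 0) - 1 := by
    intro S _
    by_cases h : Even S.card
    · rw [h.neg_one_pow, if_pos h]; norm_num
    · rw [(Nat.not_even_iff_odd.mp h).neg_one_pow, if_neg h]; norm_num
  rw [sum_congr rfl h2, sum_sub_distrib, ← mul_sum, sum_boole, sum_const, card_powerset] at h1
  simp only [nsmul_eq_mul, mul_one] at h1
  have h3 : (2 : ℤ) * ((L.powerset.filter fun S => Even S.card).card : ℤ) = ((2 ^ L.card : ℕ) : ℤ) := by
    push_cast at h1 ⊢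
    linarith
  exact_mod_cast h3

open scoped Classical in
theorem card_GG {m : ℕ} (hm : 0 < m) (N : ℕ) :
    ((range N).filter (GG m)).card ≤ 2 ^ ((levels m).card - 1) - 1 := by
  have hinj : Set.InjOn (fun d : ℕ => d.primeFactors) ((range N).filter (GG m) : Finset ℕ) := by
    intro d hd d' hd' h
    have h1 := (mem_filter.mp (mem_coe.mp hd)).2
    have h2 := (mem_filter.mp (mem_coe.mp hd')).2
    have hd0 : d ≠ 0 := by rintro rfl; exact hm.ne' (Nat.eq_zero_of_zero_dvd h1.1)
    have hd0' : d' ≠ 0 := by rintro rfl; exact hm.ne' (Nat.eq_zero_of_zero_dvd h2.1)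
    rw [h1.2.2.1.eq_prod hd0, h2.2.2.1.eq_prod hd0']
    have h' : d.primeFactors = d'.primeFactors := h
    rw [h']
  have himg : ((range N).filter (GG m)).image (fun d : ℕ => d.primeFactors) ⊆
      ((levels m).powerset.filter fun S => Even S.card).erase ∅ := by
    intro S hS
    obtain ⟨d, hd, rfl⟩ := mem_image.mp hS
    obtain ⟨hdm, hd1, hG, hev⟩ := (mem_filter.mp hd).2
    have hd0 : d ≠ 0 := by rintro rfl; exact hm.ne' (Nat.eq_zero_of_zero_dvd hdm)
    rw [mem_erase, mem_filter, mem_powerset]
    refine ⟨?_, ?_, hev⟩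
    · intro h
      rcases Nat.primeFactors_eq_empty.mp h with h | h
      · exact hd0 h
      · exact hd1 h
    · intro p hp
      have hpd := Nat.dvd_of_mem_primeFactors hp
      refine mem_filter.mpr ⟨Nat.mem_primeFactors.mpr ⟨Nat.prime_of_mem_primeFactors hp,
        hpd.trans hdm, hm.ne'⟩, ?_⟩
      by_cases h2 : p = 2
      · right
        subst h2
        have := hG.2.2
        have h4 : 4 ∣ d := by omega
        exact h4.trans hdm
      · exact Or.inl h2
  have h1 := card_le_card himg
  rw [card_image_of_injOn hinj] at h1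
  refine h1.trans ?_
  have hmem : ∅ ∈ (levels m).powerset.filter fun S => Even S.card := by
    rw [mem_filter, mem_powerset]
    exact ⟨empty_subset _, by simp⟩
  rw [card_erase_of_mem hmem]
  rcases (levels m).eq_empty_or_nonempty with h | h
  · rw [h]
    have h2 := card_filter_le (∅ : Finset ℕ).powerset fun S => Even S.card
    rw [powerset_empty, card_singleton] at h2
    rw [powerset_empty]
    omega
  · have h2 := card_even_powerset h
    have h3 : 0 < (levels m).card := card_pos.mpr h
    have h4 : 2 ^ (levels m).card = 2 * 2 ^ ((levels m).card - 1) := by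
      rw [← pow_succ']
      congr 1
      omega
    omega

/-- **The torsion group.** -/
theorem card_T {m : ℕ} [NeZero m] {Q : Type} [AddCommGroup Q] {c : ZMod m → Q} (hc : OddDist c) :
    ∃ s ≤ 2 ^ ((levels m).card - 1) - 1, Nat.card (TD c m) = 2 ^ s := by
  classical
  obtain ⟨s, hs, hs'⟩ := card_TD hc m
  exact ⟨s, hs.trans (card_GG (NeZero.pos m) _), hs'⟩

end Count

end Pool.Agent.Q59.RL
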